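import Pool.Agent.TH783.OT.Fd

set_option autoImplicit false

/-! Faithful completeness from first-order interpretations. -/

namespace Pool.Agent.TH783.OT

open FirstOrder FirstOrder.Language
open Pool.Agent.W889.FO
open Pool.Agent.W889.FO.StE (LG gd siso_gd)
open Pool.Agent.W889.VC (BP BinStr BIso PairStr PIso Faithful bp_atom bp_fst bp_snd DLO)
open Pool.Agent.W889.SD (bp_nth Nth)
open Pool.Agent.TH783.FC (gc siso_cg siso_gc FD2 fd2_gd)
open Pool.Agent.TH686.FO (L2 R2 g1 g2 ps ofp ps1 ps2 ps_ofp siso_ps)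
open Pool.Agent.TH686.DO (DL1 faithful_interp' piso_of piso_ofp siso_ofp siso_ofp_ps bp_ax)
open Pool.Agent.TH783.MD (bp_gc gc_cg dlo_of)

section gen

variable {L L' : FirstOrder.Language.{0, 0}} [L.IsRelational] [L'.IsRelational] (I : Itp L L')
  {Z Z' : Type} [MeasurableSpace Z] [MeasurableSpace Z'] {E0 : Z → Z → Prop}
  {E1 : Z' → Z' → Prop} (dz : Z → L.Structure ℕ) (cz : L.Structure ℕ → Z)
  (dz' : Z' → L'.Structure ℕ) (cz' : L'.Structure ℕ → Z')

/-- faithful completeness from a first-order interpretation -/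
theorem itp_faithful
    (hup : ∀ S S', I.W S → I.W S' → SIso (I.D S) (I.D S') → SIso S S')
    (hm : ∀ (Y : Type) [MeasurableSpace Y] (f : Y → L.Structure ℕ),
      (∀ (n : ℕ) (R : L.Relations n) (a : Fin n → ℕ),
        BP (fun y => @Structure.RelMap L ℕ (f y) n R a)) → Measurable (fun y => cz (f y)))
    (hc : ∀ S S', SIso S S' ↔ E0 (cz S) (cz S')) (hd : ∀ z, cz (dz z) = z)
    (hs : ∀ z z', E0 z z' → E0 z' z) (hs' : ∀ z z', E1 z z' → E1 z' z)
    (hax : BP fun y => I.W (dz' y))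
    (hrel' : ∀ (n : ℕ) (R : L'.Relations n) (a : Fin n → ℕ),
      BP (fun y => @Structure.RelMap L' ℕ (dz' y) n R a))
    (hc' : ∀ y z, SIso (dz' y) (dz' z) ↔ E1 y z) (hd' : ∀ S, SIso S (dz' (cz' S)))
    {K0 : Z → Prop} {K : Z' → Prop}
    (hF : Faithful E0 K0) (hex : ∀ x, K0 x → ∃ S, I.W S ∧ SIso (I.D S) (dz x))
    (hK : ∀ y, I.W (dz' y) → K y) : Faithful E1 K := by
  classical
  let s : Set Z' := {y : Z' | I.W (dz' y)}
  have hsm : MeasurableSet s := hax
  by_cases hne : Nonempty Z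
  swap
  · intro a B hB hinv
    obtain ⟨B', F, k1, k2, k3, k4, k5, k6, k7⟩ := hF a B hB hinv
    have hemp : IsEmpty Z := not_nonempty_iff.1 hne
    refine ⟨∅, fun _ _ _ => false, MeasurableSet.empty, fun _ _ _ => Iff.rfl,
      fun y hy => hy.elim, measurable_const, fun y hy => hy.elim, fun y hy => hy.elim,
      fun x hx => ?_⟩
    obtain ⟨z, -, -⟩ := k7 x hx
    exact hemp.elim z
  obtain ⟨z0⟩ := hne
  let δ : Z' → Z := fun y => if y ∈ s then cz (I.D (dz' y)) else z0
  have hδ : ∀ {y : Z'}, I.W (dz' y) → δ y = cz (I.D (dz' y)) := fun {y} h => if_pos h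
  have hδm : Measurable δ := by
    let f : s → L'.Structure ℕ := fun y => dz' y.1
    have hb : ∀ (n : ℕ) (R : L'.Relations n) (a : Fin n → ℕ),
        BP (fun y => @Structure.RelMap L' ℕ (f y) n R a) := fun n R a =>
      measurable_subtype_coe (hrel' n R a)
    have hW : ∀ y, I.W (f y) := fun y => y.2
    have hdom : ∀ u, BP (fun y => I.dom (f y) u) := fun u => I.fdom.bp hb hW (fun _ => u)
    have hD : ∀ (n : ℕ) (R : L.Relations n) (v : Fin n → ℕ),
        BP (fun y => @Structure.RelMap L ℕ (I.D (f y)) n R v) := fun n R v =>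
      BP.ex fun u : Fin n → ℕ => (BP.all fun i => bp_nth hdom (v i) (u i)).and
        ((I.frel R).bp hb hW u)
    have hF : Measurable (fun y : s => cz (I.D (f y))) := hm _ _ hD
    have h := Measurable.dite (s := s) hF (g := fun _ => z0) measurable_const hsm
    convert h using 1
    funext y
    by_cases hy : y ∈ s
    · rw [dif_pos hy]
      exact if_pos hy
    · rw [dif_neg hy]
      exact if_neg hy
  refine faithful_interp' hF (W := fun y => I.W (dz' y)) (δ := δ)
    hs' hs hax hδm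
    (fun y z h hy => I.W_iso (S := dz' y) hy ((hc' _ _).2 h)) (fun y z hy hz => ?_)
    (fun x hx => ?_) hK
  · rw [hδ hy, hδ hz, ← hc]
    constructor
    · exact fun h => I.iso_down (S := dz' y) hy ((hc' _ _).2 h)
    · exact fun h => (hc' _ _).1 (hup _ _ hy hz h)
  · obtain ⟨S, h1, h2⟩ := hex x hx
    have h3 := hd' S
    have h4 : I.W (dz' (cz' S)) := I.W_iso (S := S) h1 h3
    refine ⟨cz' S, h4, ?_⟩
    rw [hδ h4]
    have h5 := (hc _ _).1 (((I.iso_down (S := S) h1 h3).symm).trans h2)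
    rwa [hd] at h5

end gen

theorem meas_ps {Y : Type} [MeasurableSpace Y] {f : Y → L2.Structure ℕ}
    (hD : ∀ (n : ℕ) (R : L2.Relations n) (a : Fin n → ℕ),
        BP (fun y => @Structure.RelMap L2 ℕ (f y) n R a)) : Measurable (fun y => ps (f y)) := by
  refine Measurable.prodMk ?_ ?_
  · refine measurable_pi_iff.2 fun u => measurable_pi_iff.2 fun v => measurable_to_bool ?_
    refine (congrArg MeasurableSet (Set.ext fun y => ?_)).mp (hD 2 R2.fst ![u, v])
    show g1 (f y) u v ↔ (ps (f y)).1 u v = true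
    exact (ps1 _ u v).symm
  · refine measurable_pi_iff.2 fun u => measurable_pi_iff.2 fun v => measurable_to_bool ?_
    refine (congrArg MeasurableSet (Set.ext fun y => ?_)).mp (hD 2 R2.snd ![u, v])
    show g2 (f y) u v ↔ (ps (f y)).2 u v = true
    exact (ps2 _ u v).symm

/-- pairs to pairs -/
theorem itp_pp (I : Itp L2 L2)
    (hup : ∀ S S', I.W S → I.W S' → SIso (I.D S) (I.D S') → SIso S S')
    {K0 K : PairStr → Prop} (hF : Faithful PIso K0)
    (hex : ∀ x, K0 x → ∃ S, I.W S ∧ SIso (I.D S) (ofp x))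
    (hK : ∀ y, I.W (ofp y) → K y) : Faithful PIso K :=
  itp_faithful I ofp ps ofp ps hup (fun _ _ _ hD => meas_ps hD)
    (fun _ _ => ⟨piso_of, siso_ps⟩) ps_ofp (fun _ _ h => h.symm) (fun _ _ h => h.symm)
    (bp_ax I.axW) (fun n R a => by
      cases R with
      | fst => exact bp_fst (a 0) (a 1)
      | snd => exact bp_snd (a 0) (a 1))
    (fun _ _ => ⟨piso_ofp, siso_ofp⟩) siso_ofp_ps hF hex hK

/-- pairs to binary relations -/
theorem itp_pb (I : Itp L2 LG)
    (hup : ∀ S S', I.W S → I.W S' → SIso (I.D S) (I.D S') → SIso S S')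
    {K0 : PairStr → Prop} {K : BinStr → Prop} (hF : Faithful PIso K0)
    (hex : ∀ x, K0 x → ∃ S, I.W S ∧ SIso (I.D S) (ofp x))
    (hK : ∀ y, I.W (gc y) → K y) : Faithful BIso K :=
  Pool.Agent.TH783.MD.itp_faithful2 I hup hF hex hK

/-- the two relations of a pair -/
def r2 (S : L2.Structure ℕ) (j : Bool) : ℕ → ℕ → Prop := if j = true then g2 S else g1 S

theorem fd_g1 {V : L2.Structure ℕ → Prop} : FD2 V g1 := fun _ i j => by
  have h : FD V (fun S v => @Structure.RelMap L2 ℕ S 2 R2.fst (fun m => v (![i, j] m))) :=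
    FD.rel (L := L2) R2.fst ![i, j]
  refine h.congr fun S _ v => ?_
  unfold g1
  have e1 : (fun m => v (![i, j] m)) = ![v i, v j] := by
    funext m
    fin_cases m <;> rfl
  rw [e1]

theorem fd_g2 {V : L2.Structure ℕ → Prop} : FD2 V g2 := fun _ i j => by
  have h : FD V (fun S v => @Structure.RelMap L2 ℕ S 2 R2.snd (fun m => v (![i, j] m))) :=
    FD.rel (L := L2) R2.snd ![i, j]
  refine h.congr fun S _ v => ?_
  unfold g2
  have e1 : (fun m => v (![i, j] m)) = ![v i, v j] := by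
    funext m
    fin_cases m <;> rfl
  rw [e1]

theorem fd_r2 (V : L2.Structure ℕ → Prop) (j : Bool) : FD2 V (fun S => r2 S j) := by
  cases j
  · exact fd_g1
  · exact fd_g2

/-- the pair of two relations -/
@[reducible] def mk2 (X : Bool → ℕ → ℕ → Prop) : L2.Structure ℕ where
  funMap := fun {_} f => isEmptyElim f
  RelMap := fun {n} Q => match n, Q with
    | _, R2.fst => fun v => X false (v 0) (v 1)
    | _, R2.snd => fun v => X true (v 0) (v 1)

theorem r2_mk2 (X : Bool → ℕ → ℕ → Prop) : r2 (mk2 X) = X := by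
  funext j
  cases j <;> rfl

theorem siso_r2 {S S' : L2.Structure ℕ} (e : ℕ ≃ ℕ)
    (h : ∀ j u v, r2 S j u v ↔ r2 S' j (e u) (e v)) : SIso S S' := by
  refine siso_ps ⟨e, fun m n => ⟨?_, ?_⟩⟩
  · rw [Bool.eq_iff_iff, ps1, ps1]
    exact (h false m n).symm
  · rw [Bool.eq_iff_iff, ps2, ps2]
    exact (h true m n).symm

/-- the relation of a graph -/
def r1 (S : LG.Structure ℕ) (_ : Unit) : ℕ → ℕ → Prop := gd S

theorem fd_r1 (V : LG.Structure ℕ → Prop) (j : Unit) : FD2 V (fun S => r1 S j) := fd2_gd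

/-- the graph of a relation -/
@[reducible] def mk1 (X : Unit → ℕ → ℕ → Prop) : LG.Structure ℕ where
  funMap := fun {_} f => isEmptyElim f
  RelMap := fun {n} Q => match n, Q with
    | _, FirstOrder.Language.graphRel.adj => fun v => X () (v 0) (v 1)

theorem r1_mk1 (X : Unit → ℕ → ℕ → Prop) : r1 (mk1 X) = X := by
  funext j
  cases j
  rfl

theorem siso_r1 {S S' : LG.Structure ℕ} (e : ℕ ≃ ℕ)
    (h : ∀ j u v, r1 S j u v ↔ r1 S' j (e u) (e v)) : SIso S S' :=
  siso_gd e fun u v => (h () u v).symm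

/-- pairs over pairs of dense orders -/
theorem faithful_2 {t : Tab Bool} {d : Dc Bool} (hd : d.Fd) (hi : d.Inv) (hok : d.Ok t)
    {K : PairStr → Prop} (hK : ∀ y : PairStr, W t d (r2 (ofp y)) → K y) : Faithful PIso K :=
  itp_pp (itp t d hd r2 fd_r2) (fun _ _ h1 h2 h3 => up (fun e => siso_r2 e) h1 h2 h3)
    Pool.Agent.TH686.DO.faithful_DD
    (fun x hx => ex hi hok mk2 r2_mk2 (ofp x) (dlo_of hx.1) (dlo_of hx.2)) hK

/-- binary relations over pairs of dense orders -/
theorem faithful_1 {t : Tab Unit} {d : Dc Unit} (hd : d.Fd) (hi : d.Inv) (hok : d.Ok t)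
    {K : BinStr → Prop} (hK : ∀ y : BinStr, W t d (r1 (gc y)) → K y) : Faithful BIso K :=
  itp_pb (itp t d hd r1 fd_r1) (fun _ _ h1 h2 h3 => up (fun e => siso_r1 e) h1 h2 h3)
    Pool.Agent.TH686.DO.faithful_DD
    (fun x hx => ex hi hok mk1 r1_mk1 (ofp x) (dlo_of hx.1) (dlo_of hx.2)) hK

end Pool.Agent.TH783.OT
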