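import Pool.Agent.TH783.OT.PatO

set_option autoImplicit false

/-! Ordered graphs: the coded structures and the patterns. -/

namespace Pool.Agent.TH783.OT

open Pool.Agent.W889.VC (DLO PairStr PIso Faithful BP bp_fst bp_snd)
open Pool.Agent.TH686.FO (L2 R2 g1 g2 ps ofp ps1 ps2 ps_ofp siso_ps)
open PatO

theorem SL.of_dlo {Q : Type} {o : Q → Q → Prop} (h : DLO o) : SL o :=
  ⟨h.irrefl, h.trans, h.total⟩

/-- translation of the signs -/
def PatO.Sign.sd : Sign → Sd
  | .eq => .eq
  | .ne => .ne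
  | .leR => .leR
  | .geR => .geR
  | .leC => .leC
  | .geC => .geC

section

variable {Q : Type}

/-- the point -/
def Tk.pt : Tk Q → Q ⊕ Bool
  | .p _ q => .inl q
  | .s false => .inr true
  | .s true => .inr false

/-- the side -/
def Tk.sd : Tk Q → Bool
  | .p k _ => k
  | .s i => i

variable {o1 o2 : Q → Q → Prop} {s : Sd} {l r : Prop}

theorem lt_iff (u v : Tk Q) : (tabO s l r).SY o1 o2 false u v ↔ match u.sd, v.sd with
    | false, false => Ext o1 u.pt v.pt
    | true, true => Ext o2 u.pt v.pt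
    | false, true => True
    | true, false => False := by
  rcases u with ⟨_ | _, x⟩ | _ | _ <;> rcases v with ⟨_ | _, y⟩ | _ | _ <;>
    simp [Tab.SY, tabO, Ext, Tk.sd, Tk.pt]

theorem adj_iff (u v : Tk Q) : (tabO s l r).SY o1 o2 true u v ↔ match u.sd, v.sd with
    | false, false => l ∧ u.pt ≠ v.pt
    | true, true => r ∧ u.pt ≠ v.pt
    | false, true => s.cr (Ext o1 u.pt v.pt) (Ext o1 v.pt u.pt) (Ext o2 u.pt v.pt)
        (Ext o2 v.pt u.pt) (u.pt = v.pt)
    | true, false => s.cr (Ext o1 v.pt u.pt) (Ext o1 u.pt v.pt) (Ext o2 v.pt u.pt)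
        (Ext o2 u.pt v.pt) (u.pt = v.pt) := by
  rcases u with ⟨_ | _, x⟩ | _ | _ <;> rcases v with ⟨_ | _, y⟩ | _ | _ <;> cases s <;>
    simp [Tab.SY, tabO, Ext, Tk.sd, Tk.pt, Sd.c, Sd.cr]

/-- the entries of the matrix of a permutation of a finite set of points -/
theorem entry_iff {Q : Type} {l1 l2 : Q → Q → Prop} (s : Sign) {N n : ℕ}
    {π : Equiv.Perm (Fin N)}
    {a : Fin n → Fin N} {p : Fin n → Q} (h0 : ∀ i j, a i = a j ↔ p i = p j)
    (h1 : ∀ i j, a i < a j ↔ l1 (p i) (p j)) (h2 : ∀ i j, π (a i) < π (a j) ↔ l2 (p i) (p j))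
    (i j : Fin n) : s.sd.cr (l1 (p i) (p j)) (l1 (p j) (p i)) (l2 (p i) (p j)) (l2 (p j) (p i))
      (p i = p j) ↔ s.entry π (a i) (π (a j)) := by
  cases s
  · show p i = p j ↔ π (a i) = π (a j)
    rw [π.injective.eq_iff, h0]
  · show ¬ p i = p j ↔ π (a i) ≠ π (a j)
    rw [π.injective.ne_iff, ← h0]
  · show ¬ l2 (p j) (p i) ↔ π (a i) ≤ π (a j)
    rw [← h2, not_lt]
  · show ¬ l2 (p i) (p j) ↔ π (a j) ≤ π (a i)
    rw [← h2, not_lt]
  · show ¬ l1 (p j) (p i) ↔ a i ≤ π.symm (π (a j))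
    rw [← h1, not_lt, π.symm_apply_apply]
  · show ¬ l1 (p i) (p j) ↔ π.symm (π (a j)) ≤ a i
    rw [← h1, not_lt, π.symm_apply_apply]

/-- finite parts of the coded structures -/
theorem emb_match (h1 : DLO o1) (h2 : DLO o2) (s : Sign) (l r : Bool) {n : ℕ}
    (g : Fin n → Tk Q)
    (hg : ∀ i j, i < j → (tabO s.sd (l = true) (r = true)).SY o1 o2 false (g i) (g j)) :
    ∃ (N : ℕ) (π : Equiv.Perm (Fin N)) (h : Fin n → Fin N ⊕ Fin N),
      (∀ i j, i < j → Sum.Lex (· < ·) (· < ·) (h i) (h j)) ∧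
      ∀ i j, (tabO s.sd (l = true) (r = true)).SY o1 o2 true (g i) (g j) ↔
        (matchGraph s l r π).Adj (h i) (h j) := by
  obtain ⟨N, π, a, k0, k1, k2⟩ := perm_of (SL.of_dlo h1).ext (SL.of_dlo h2).ext
    (fun i => (g i).pt)
  let h : Fin n → Fin N ⊕ Fin N := fun i => match (g i).sd with
    | false => .inl (a i)
    | true => .inr (π (a i))
  have hf : ∀ i, (g i).sd = false → h i = .inl (a i) := by
    intro i hi
    simp only [h, hi]
  have ht : ∀ i, (g i).sd = true → h i = .inr (π (a i)) := by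
    intro i hi
    simp only [h, hi]
  refine ⟨N, π, h, fun i j hij => ?_, fun i j => ?_⟩
  · have h3 := hg i j hij
    rw [lt_iff] at h3
    cases hi : (g i).sd <;> cases hj : (g j).sd <;> simp only [hi, hj] at h3
    · rw [hf i hi, hf j hj]
      exact Sum.Lex.inl ((k1 i j).2 h3)
    · rw [hf i hi, ht j hj]
      exact Sum.Lex.sep _ _
    · rw [ht i hi, ht j hj]
      exact Sum.Lex.inr ((k2 i j).2 h3)
  · rw [adj_iff]
    cases hi : (g i).sd <;> cases hj : (g j).sd <;> simp only
    · rw [hf i hi, hf j hj]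
      show _ ↔ l = true ∧ a i ≠ a j
      rw [Ne, ← k0]
    · rw [hf i hi, ht j hj]
      exact entry_iff s k0 k1 k2 i j
    · rw [ht i hi, hf j hj]
      show _ ↔ s.entry π (a j) (π (a i))
      rw [← entry_iff s k0 k1 k2 j i, eq_comm]
    · rw [ht i hi, ht j hj]
      show _ ↔ r = true ∧ π (a i) ≠ π (a j)
      rw [π.injective.ne_iff, Ne, ← k0]

end

theorem sto_of {Q : Type} {l : Q → Q → Prop} (h : SL l) : IsStrictTotalOrder Q l :=
  { trichotomous := fun a b h1 h2 => by
      by_contra hab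
      rcases h.total a b hab with h3 | h3
      · exact h1 h3
      · exact h2 h3
    irrefl := h.irrefl
    trans := h.trans }

/-- the coded structures belong locally to the class -/
theorem locally_match {𝒞 : (n : ℕ) → SimpleGraph (Fin n) → Prop} {s : Sign} {l r : Bool}
    (hC : ∀ (n : ℕ) (π : Equiv.Perm (Fin n)),
      Contains 𝒞 (Sum.Lex (· < ·) (· < ·)) (matchGraph s l r π)) {X : Bool → ℕ → ℕ → Prop}
    (hX : W (tabO s.sd (l = true) (r = true)) (dcO s.sd) X) :
    LocallyIn 𝒞 (X false) (X true) := by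
  obtain ⟨Q, _, _, o1, o2, h1, h2, e, he⟩ := hX.std
  have m1 := (SL.of_dlo h1).ext
  have m2 := (SL.of_dlo h2).ext
  have hsl : SL (X false) := by
    constructor
    · intro x h3
      rw [he, lt_iff] at h3
      cases hx : (e x).sd <;> simp only [hx] at h3
      · exact m1.irrefl _ h3
      · exact m2.irrefl _ h3
    · intro x y z h3 h4
      rw [he, lt_iff] at h3 h4 ⊢
      cases hx : (e x).sd <;> cases hy : (e y).sd <;> cases hz : (e z).sd <;>
        simp only [hx, hy, hz] at h3 h4 ⊢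
      · exact m1.trans _ _ _ h3 h4
      · exact m2.trans _ _ _ h3 h4
    · intro x y hne
      rw [he, he, lt_iff, lt_iff]
      have hne' : e x ≠ e y := fun h => hne (e.injective h)
      have hpt : (e x).sd = (e y).sd → (e x).pt ≠ (e y).pt := by
        intro h3 h4
        refine hne' ?_
        generalize e x = u at *
        generalize e y = v at *
        rcases u with ⟨_ | _, x⟩ | _ | _ <;> rcases v with ⟨_ | _, y⟩ | _ | _ <;>
          simp [Tk.sd, Tk.pt] at h3 h4 ⊢
        · exact h4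
        · exact h4
      cases hx : (e x).sd <;> cases hy : (e y).sd <;> simp only [or_true, true_or]
      · exact m1.total _ _ (hpt (by rw [hx, hy]))
      · exact m2.total _ _ (hpt (by rw [hx, hy]))
  refine ⟨sto_of hsl, ⟨X true, ⟨fun x y h3 => ?_⟩, ⟨fun x h3 => ?_⟩⟩, fun _ _ => Iff.rfl,
    fun n f hf => ?_⟩
  · rw [he, adj_iff] at h3 ⊢
    cases hx : (e x).sd <;> cases hy : (e y).sd <;> simp only [hx, hy] at h3 ⊢
    · exact ⟨h3.1, h3.2.symm⟩
    · rw [eq_comm]
      exact h3
    · rw [eq_comm]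
      exact h3
    · exact ⟨h3.1, h3.2.symm⟩
  · rw [he, adj_iff] at h3
    cases hx : (e x).sd <;> simp only [hx] at h3
    · exact h3.2 rfl
    · exact h3.2 rfl
  · obtain ⟨N, π, h, k1, k2⟩ := emb_match h1 h2 s l r (fun i => e (f i))
      fun i j hij => (he false _ _).1 (hf i j hij)
    have h3 := hC N π n h k1
    convert h3 using 1
    ext i j
    exact (he true _ _).trans (k2 i j)

end Pool.Agent.TH783.OT
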