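import Pool.Agent.TH783.OT.EmbO

set_option autoImplicit false

/-! Ordered permutation graphs. -/

namespace Pool.Agent.TH783.OT

open FirstOrder FirstOrder.Language
open Pool.Agent.W889.FO
open Pool.Agent.W889.FO.StA (FD.all1 FD.ex1)
open Pool.Agent.W889.VC (DLO PairStr PIso Faithful BP bp_fst bp_snd)
open Pool.Agent.TH686.FO (L2 R2 g1 g2 ps ofp ps1 ps2 ps_ofp siso_ps)
open Pool.Agent.TH783.FC (FD1 FD2)
open Pool.Agent.TH783.MD (ax_dlo dlo_map dlo_of)
open PatO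

/-- the second order -/
def q2 (S : L2.Structure ℕ) (u v : ℕ) : Prop := (g1 S u v ∧ ¬ g2 S u v) ∨ (g1 S v u ∧ g2 S u v)

theorem fd_q2 {V : L2.Structure ℕ → Prop} : FD2 V q2 := fun _ i j =>
  ((fd_g1 _ i j).and (fd_g2 _ i j).not).or ((fd_g1 _ j i).and (fd_g2 _ i j))

theorem dlo_true {l : ℕ → ℕ → Prop} : DLO (fun x y : {_x : ℕ // True} => l x y) ↔ DLO l :=
  ⟨dlo_map (Equiv.subtypeUnivEquiv fun _ => trivial) fun _ _ => Iff.rfl,
    dlo_map (Equiv.subtypeUnivEquiv fun _ => trivial).symm fun _ _ => Iff.rfl⟩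

/-- the axioms -/
structure WP (S : L2.Structure ℕ) : Prop where
  d1 : DLO (g1 S)
  d2 : DLO (q2 S)
  sy : ∀ u v, g2 S u v → g2 S v u
  ir : ∀ u, ¬ g2 S u u

theorem ax_WP : Ax WP := by
  have h1 := ax_dlo (L := L2) (P := fun _ _ => True) (R := g1) (fun _ _ => FD.const True) fd_g1
  have h2 := ax_dlo (L := L2) (P := fun _ _ => True) (R := q2) (fun _ _ => FD.const True) fd_q2
  have h3 : Ax (fun S : L2.Structure ℕ => ∀ v : Fin 2 → ℕ, g2 S (v 0) (v 1) →
    g2 S (v 1) (v 0)) := Ax.ofn 2 <| (fd_g2 _ _ _).imp (fd_g2 _ _ _)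
  have h4 : Ax (fun S : L2.Structure ℕ => ∀ v : Fin 1 → ℕ, ¬ g2 S (v 0) (v 0)) :=
    Ax.ofn 1 (fd_g2 _ _ _).not
  refine (h1.and <| h2.and <| h3.and h4).congr fun S => ?_
  constructor
  · rintro ⟨b1, b2, b3, b4⟩
    exact ⟨dlo_true.1 b1, dlo_true.1 b2, fun u v => b3 ![u, v], fun u => b4 fun _ => u⟩
  · rintro ⟨b1, b2, b3, b4⟩
    exact ⟨dlo_true.2 b1, dlo_true.2 b2, fun v => b3 _ _, fun v => b4 _⟩

/-- the interpretation -/
def itpP : Itp L2 L2 where
  W := WP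
  axW := ax_WP
  dom := fun _ _ => True
  rel := fun {n} Q => match n, Q with
    | _, R2.fst => fun S v => g1 S (v 0) (v 1)
    | _, R2.snd => fun S v => q2 S (v 0) (v 1)
  fdom := FD.const True
  frel := fun {n} Q => match n, Q with
    | _, R2.fst => fd_g1 _ _ _
    | _, R2.snd => fd_q2 _ _ _
  inf := fun _ _ N => ⟨N, le_rfl, trivial⟩

theorem g2_of {S : L2.Structure ℕ} (h : WP S) (u v : ℕ) :
    g2 S u v ↔ (g1 S u v ∧ ¬ q2 S u v) ∨ (g1 S v u ∧ q2 S u v) := by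
  by_cases huv : u = v
  · subst huv
    exact iff_of_false (h.ir u) fun h3 => h3.elim (fun h4 => h.d1.irrefl _ h4.1)
      fun h4 => h.d1.irrefl _ h4.1
  · have h3 := h.d1.total u v huv
    have h4 : ¬ (g1 S u v ∧ g1 S v u) := fun h5 => h.d1.irrefl _ (h.d1.trans _ _ _ h5.1 h5.2)
    unfold q2
    tauto

theorem upP {S S' : L2.Structure ℕ} (h1 : WP S) (h2 : WP S')
    (hi : SIso (itpP.D S) (itpP.D S')) : SIso S S' := by
  obtain ⟨π, hπ⟩ : ∃ π : {_u : ℕ // True} ≃ {_u : ℕ // True},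
      ∀ {n : ℕ} (Q : L2.Relations n) (u : Fin n → {_u : ℕ // True}),
        itpP.rel Q S (fun i => u i) ↔ itpP.rel Q S' (fun i => π (u i)) :=
    (itpP.D_iso_iff h1 h2).1 hi
  let E : {_u : ℕ // True} ≃ ℕ := Equiv.subtypeUnivEquiv fun _ => trivial
  let e : ℕ ≃ ℕ := (E.symm.trans π).trans E
  have k1 : ∀ u v, g1 S u v ↔ g1 S' (e u) (e v) := fun u v =>
    hπ R2.fst (fun m => if m = 0 then E.symm u else E.symm v)
  have k2 : ∀ u v, q2 S u v ↔ q2 S' (e u) (e v) := fun u v =>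
    hπ R2.snd (fun m => if m = 0 then E.symm u else E.symm v)
  refine siso_r2 e fun j u v => ?_
  cases j
  · exact k1 u v
  · show g2 S u v ↔ g2 S' (e u) (e v)
    rw [g2_of h1, g2_of h2, k1, k1, k2]

theorem exP (N : L2.Structure ℕ) (h1 : DLO (g1 N)) (h2 : DLO (g2 N)) :
    ∃ S : L2.Structure ℕ, WP S ∧ SIso (itpP.D S) N := by
  let S : L2.Structure ℕ := mk2 (fun j u v => if j = true then
    (g1 N u v ∧ g2 N v u) ∨ (g1 N v u ∧ g2 N u v) else g1 N u v)
  have e1 : g1 S = g1 N := rfl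
  have e2 : ∀ u v, g2 S u v ↔ (g1 N u v ∧ g2 N v u) ∨ (g1 N v u ∧ g2 N u v) := fun _ _ => Iff.rfl
  have e3 : q2 S = g2 N := by
    funext u v
    refine propext ?_
    unfold q2
    rw [e2, e1]
    by_cases huv : u = v
    · subst huv
      have := h1.irrefl u
      have := h2.irrefl u
      tauto
    · have h3 := h1.total u v huv
      have h4 : ¬ (g1 N u v ∧ g1 N v u) := fun h5 => h1.irrefl _ (h1.trans _ _ _ h5.1 h5.2)
      have h5 := h2.total u v huv
      have h6 : ¬ (g2 N u v ∧ g2 N v u) := fun h5 => h2.irrefl _ (h2.trans _ _ _ h5.1 h5.2)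
      tauto
  have hW : WP S := by
    refine ⟨h1, ?_, fun u v h => ?_, fun u h => ?_⟩
    · rw [e3]
      exact h2
    · rw [e2] at h ⊢
      exact h.symm
    · rw [e2] at h
      exact h.elim (fun h => h1.irrefl _ h.1) fun h => h1.irrefl _ h.1
  refine ⟨S, hW, ?_⟩
  refine itpP.D_iso hW (Equiv.subtypeUnivEquiv fun _ => trivial).symm fun {n} Q u => ?_
  cases Q with
  | fst =>
    have e4 : ![u 0, u 1] = u := by
      funext m
      fin_cases m <;> rfl
    have h3 : @Structure.RelMap L2 ℕ N 2 R2.fst u ↔ g1 N (u 0) (u 1) := by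
      unfold g1
      rw [e4]
    exact h3
  | snd =>
    have e4 : ![u 0, u 1] = u := by
      funext m
      fin_cases m <;> rfl
    have h3 : @Structure.RelMap L2 ℕ N 2 R2.snd u ↔ g2 N (u 0) (u 1) := by
      unfold g2
      rw [e4]
    refine h3.trans ?_
    show _ ↔ q2 S (u 0) (u 1)
    rw [e3]

/-- permutation graphs over pairs of dense orders -/
theorem faithful_P {K : PairStr → Prop} (hK : ∀ y : PairStr, WP (ofp y) → K y) :
    Faithful PIso K :=
  itp_pp itpP (fun _ _ h1 h2 h3 => upP h1 h2 h3) Pool.Agent.TH686.DO.faithful_DD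
    (fun x hx => exP (ofp x) (dlo_of hx.1) (dlo_of hx.2)) hK

/-- the coded structures belong locally to the class -/
theorem locally_perm {𝒞 : (n : ℕ) → SimpleGraph (Fin n) → Prop}
    (hC : ∀ (n : ℕ) (π : Equiv.Perm (Fin n)), Contains 𝒞 (· < ·) (permGraph π))
    {S : L2.Structure ℕ} (hS : WP S) : LocallyIn 𝒞 (g1 S) (g2 S) := by
  have m1 := SL.of_dlo hS.d1
  have m2 := SL.of_dlo hS.d2
  refine ⟨sto_of m1, ⟨g2 S, ⟨fun x y => hS.sy x y⟩, ⟨fun x => hS.ir x⟩⟩, fun _ _ => Iff.rfl,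
    fun n f hf => ?_⟩
  obtain ⟨N, π, a, k0, k1, k2⟩ := perm_of m1 m2 f
  have h3 := hC N π n a fun i j hij => (k1 i j).2 (hf i j hij)
  convert h3 using 1
  ext i j
  show g2 S (f i) (f j) ↔ (a i < a j ∧ π (a j) < π (a i)) ∨ (a j < a i ∧ π (a i) < π (a j))
  rw [k1, k1, k2, k2, g2_of hS]
  by_cases hij : f i = f j
  · have := m1.irrefl (f j)
    have := m2.irrefl (f j)
    rw [hij]
    tauto
  · have h5 := m2.total _ _ hij
    have h6 : ¬ (q2 S (f i) (f j) ∧ q2 S (f j) (f i)) := fun h => m2.asymm h.1 h.2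
    tauto

end Pool.Agent.TH783.OT
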