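import Pool.Agent.TH783.OT.OG0
import Pool.Agent.TH783.OT.PermO

set_option autoImplicit false

/-! Densely ordered graphs: the coded structures and the patterns. -/

namespace Pool.Agent.TH783.OT.D

open Pool.Agent.W889.VC (DLO PairStr PIso Faithful BP bp_fst bp_snd)
open Pool.Agent.TH686.FO (L2 R2 g1 g2 ps ofp ps1 ps2 ps_ofp siso_ps)
open PatO

/-- densely ordered graphs which belong locally to the class -/
def LD (𝒞 : (n : ℕ) → SimpleGraph (Fin n) → Prop) (lt E : ℕ → ℕ → Prop) : Prop :=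
  DLO lt ∧ LocallyIn 𝒞 lt E

section

variable {Q : Type} {o1 o2 : Q → Q → Prop}

/-- finite parts of the coded structures -/
theorem emb_match (h1 : DLO o1) (h2 : DLO o2) (s : Sign) (l r : Bool) {n : ℕ}
    (g : Fin n → Bool × Q)
    (hg : ∀ i j, i < j → SY (tabO s.sd l r) o1 o2 false (g i) (g j)) :
    ∃ (N : ℕ) (π : Equiv.Perm (Fin N)) (h : Fin n → Fin N ⊕ Fin N),
      (∀ i j, i < j → Sum.Lex (· < ·) (· < ·) (h i) (h j)) ∧
      ∀ i j, SY (tabO s.sd l r) o1 o2 true (g i) (g j) ↔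
        (matchGraph s l r π).Adj (h i) (h j) := by
  obtain ⟨N, π, a, k0, k1, k2⟩ := perm_of (SL.of_dlo h1) (SL.of_dlo h2)
    (fun i => (g i).2)
  let h : Fin n → Fin N ⊕ Fin N := fun i => match (g i).1 with
    | false => .inl (a i)
    | true => .inr (π (a i))
  have hf : ∀ i, (g i).1 = false → h i = .inl (a i) := by
    intro i hi
    simp only [h, hi]
  have ht : ∀ i, (g i).1 = true → h i = .inr (π (a i)) := by
    intro i hi
    simp only [h, hi]
  refine ⟨N, π, h, fun i j hij => ?_, fun i j => ?_⟩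
  · have h3 := hg i j hij
    unfold SY at h3
    cases hi : (g i).1 <;> cases hj : (g j).1 <;> rw [hi, hj] at h3
    · rw [hf i hi, hf j hj]
      exact Sum.Lex.inl ((k1 i j).2 h3)
    · rw [hf i hi, ht j hj]
      exact Sum.Lex.sep _ _
    · exact h3.elim
    · rw [ht i hi, ht j hj]
      exact Sum.Lex.inr ((k2 i j).2 h3)
  · unfold SY
    cases hi : (g i).1 <;> cases hj : (g j).1
    · rw [hf i hi, hf j hj]
      show _ ∧ ¬ _ ↔ l = true ∧ a i ≠ a j
      rw [Ne, ← k0]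
    · rw [hf i hi, ht j hj]
      exact entry_iff s k0 k1 k2 i j
    · rw [ht i hi, hf j hj]
      show s.sd.cr _ _ _ _ ((g i).2 = (g j).2) ↔ s.entry π (a j) (π (a i))
      rw [← entry_iff s k0 k1 k2 j i, eq_comm]
    · rw [ht i hi, ht j hj]
      show _ ∧ ¬ _ ↔ r = true ∧ π (a i) ≠ π (a j)
      rw [π.injective.ne_iff, Ne, ← k0]

end

/-- the coded structures belong locally to the class -/
theorem locally_match {𝒞 : (n : ℕ) → SimpleGraph (Fin n) → Prop} {s : Sign} {l r : Bool}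
    (hC : ∀ (n : ℕ) (π : Equiv.Perm (Fin n)),
      Contains 𝒞 (Sum.Lex (· < ·) (· < ·)) (matchGraph s l r π)) {X : Bool → ℕ → ℕ → Prop}
    (hX : W (tabO s.sd l r) (dcO s.sd l r) X) : LD 𝒞 (X false) (X true) := by
  obtain ⟨Q, _, _, o1, o2, h1, h2, e, he⟩ := hX.std
  have hd : DLO (X false) := Pool.Agent.TH783.MD.dlo_map e.symm (fun u v => by
    rw [he, e.apply_symm_apply, e.apply_symm_apply]) (dlo_SY h1 h2 s.sd l r)
  refine ⟨hd, sto_of (SL.of_dlo hd), ⟨X true, ⟨fun x y h3 => ?_⟩, ⟨fun x h3 => ?_⟩⟩,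
    fun _ _ => Iff.rfl, fun n f hf => ?_⟩
  · rw [he] at h3 ⊢
    unfold SY at h3 ⊢
    rcases hx : e x with ⟨_ | _, p⟩ <;> rcases hy : e y with ⟨_ | _, q⟩ <;>
      rw [hx, hy] at h3
    · exact ⟨h3.1, fun e => h3.2 e.symm⟩
    · show s.sd.cr _ _ _ _ (q = p)
      rw [eq_comm]
      exact h3
    · show s.sd.cr _ _ _ _ (q = p)
      rw [eq_comm]
      exact h3
    · exact ⟨h3.1, fun e => h3.2 e.symm⟩
  · rw [he] at h3
    unfold SY at h3
    rcases hx : e x with ⟨_ | _, p⟩ <;> rw [hx] at h3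
    · exact h3.2 rfl
    · exact h3.2 rfl
  · obtain ⟨N, π, h, k1, k2⟩ := emb_match h1 h2 s l r (fun i => e (f i))
      fun i j hij => (he false _ _).1 (hf i j hij)
    have h3 := hC N π n h k1
    convert h3 using 1
    ext i j
    exact (he true _ _).trans (k2 i j)

/-- pairs -/
def LDy (𝒞 : (n : ℕ) → SimpleGraph (Fin n) → Prop) (y : PairStr) : Prop :=
  LD 𝒞 (fun u v => y.1 u v = true) (fun u v => y.2 u v = true)

theorem faithful_C {𝒞 : (n : ℕ) → SimpleGraph (Fin n) → Prop} (h : HasPatterns 𝒞) :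
    Faithful PIso (LDy 𝒞) := by
  rcases h with ⟨s, l, r, h⟩ | h
  · exact faithful_2 (fd_dcO s.sd l r) (inv_dcO s.sd l r) (ok_dcO s.sd l r)
      fun y hy => locally_match h hy
  · exact faithful_P fun y hy => ⟨hy.d1, locally_perm h hy⟩

end Pool.Agent.TH783.OT.D
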