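import Pool.Agent.TH783.OT.PatT

set_option autoImplicit false

/-! Tournaments: the coded structures and the patterns. -/

namespace Pool.Agent.TH783.OT.To

open Pool.Agent.W889.VC (DLO BinStr BIso Faithful)
open Pool.Agent.TH783.FC (gc)
open PatT

theorem sl_of {Q : Type} {o : Q → Q → Prop} (h : DLO o) : SL o :=
  ⟨h.irrefl, h.trans, h.total⟩

/-- translation of the signs -/
def tt : PatT.Sign → Tt
  | .eq => .eq
  | .le => .le
  | .ge => .ge

/-- two elements are added above -/
def ExT {Q : Type} (l : Q → Q → Prop) : Q ⊕ Bool → Q ⊕ Bool → Prop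
  | .inl x, .inl y => l x y
  | .inl _, .inr _ => True
  | .inr _, .inl _ => False
  | .inr i, .inr j => i = false ∧ j = true

/-- two elements are added below -/
def ExB {Q : Type} (l : Q → Q → Prop) : Q ⊕ Bool → Q ⊕ Bool → Prop
  | .inl x, .inl y => l x y
  | .inl _, .inr _ => False
  | .inr _, .inl _ => True
  | .inr i, .inr j => i = false ∧ j = true

theorem sl_ext {Q : Type} {l : Q → Q → Prop} (h : SL l) : SL (ExT l) where
  irrefl := by
    rintro (x | _ | _)
    · exact h.irrefl x
    · simp [ExT]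
    · simp [ExT]
  trans := by
    rintro (x | _ | _) (y | _ | _) (z | _ | _) h1 h2
    all_goals first
      | exact h.trans _ _ _ h1 h2
      | simp [ExT] at h1 h2 ⊢
  total := by
    rintro (x | _ | _) (y | _ | _) h1
    all_goals first
      | (simp [ExT]; done)
      | exact absurd rfl h1
      | exact h.total x y fun e => h1 (by rw [e])

theorem sl_exb {Q : Type} {l : Q → Q → Prop} (h : SL l) : SL (ExB l) where
  irrefl := by
    rintro (x | _ | _)
    · exact h.irrefl x
    · simp [ExB]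
    · simp [ExB]
  trans := by
    rintro (x | _ | _) (y | _ | _) (z | _ | _) h1 h2
    all_goals first
      | exact h.trans _ _ _ h1 h2
      | simp [ExB] at h1 h2 ⊢
  total := by
    rintro (x | _ | _) (y | _ | _) h1
    all_goals first
      | (simp [ExB]; done)
      | exact absurd rfl h1
      | exact h.total x y fun e => h1 (by rw [e])

section

variable {Q : Type}

/-- the point -/
def pt : Tk Q → Q ⊕ Bool
  | .p _ q => .inl q
  | .s i => .inr i

/-- the side -/
def sd : Tk Q → Bool
  | .p k _ => k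
  | .s _ => true

/-- the first order with the special elements -/
def E1 (c : Tt) (l : Q → Q → Prop) : Q ⊕ Bool → Q ⊕ Bool → Prop := match c with
  | .le => ExT l
  | _ => ExB l

/-- the second order with the special elements -/
def E2 (c : Tt) (l : Q → Q → Prop) : Q ⊕ Bool → Q ⊕ Bool → Prop := match c with
  | .eq => ExB l
  | _ => ExT l

theorem sl_E1 (c : Tt) {l : Q → Q → Prop} (h : SL l) : SL (E1 c l) := by
  cases c
  · exact sl_exb h
  · exact sl_ext h
  · exact sl_exb h

theorem sl_E2 (c : Tt) {l : Q → Q → Prop} (h : SL l) : SL (E2 c l) := by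
  cases c
  · exact sl_exb h
  · exact sl_ext h
  · exact sl_ext h

variable {o1 o2 : Q → Q → Prop} {c : Tt}

theorem arc_iff (u v : Tk Q) : (tabT c).SY o1 o2 () u v ↔ match sd u, sd v with
    | false, false => E1 c o1 (pt u) (pt v)
    | true, true => E2 c o2 (pt u) (pt v)
    | true, false => c.cr (E1 c o1 (pt u) (pt v)) (E1 c o1 (pt v) (pt u)) (pt v = pt u)
    | false, true => ¬ c.cr (E1 c o1 (pt v) (pt u)) (E1 c o1 (pt u) (pt v)) (pt u = pt v) := by
  cases c <;> rcases u with ⟨_ | _, x⟩ | _ | _ <;> rcases v with ⟨_ | _, y⟩ | _ | _ <;>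
    simp [Tab.SY, tabT, E1, E2, ExT, ExB, sd, pt, Tt.b, Tt.cr, eq_comm]

theorem pt_sd_inj {u v : Tk Q} (h1 : sd u = sd v) (h2 : pt u = pt v) : u = v := by
  rcases u with ⟨_ | _, x⟩ | _ | _ <;> rcases v with ⟨_ | _, y⟩ | _ | _ <;>
    simp [sd, pt] at h1 h2 ⊢
  · exact h2
  · exact h2

theorem rel_iff {Q : Type} {l1 : Q → Q → Prop} (s : Sign) {N n : ℕ} {π : Equiv.Perm (Fin N)}
    {a : Fin n → Fin N} {p : Fin n → Q} (h0 : ∀ i j, a i = a j ↔ p i = p j)
    (h1 : ∀ i j, a i < a j ↔ l1 (p i) (p j)) (i j : Fin n) :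
    (tt s).cr (l1 (p j) (p i)) (l1 (p i) (p j)) (p i = p j) ↔
      s.rel (a i) (π.symm (π (a j))) := by
  rw [π.symm_apply_apply]
  cases s
  · show p i = p j ↔ a i = a j
    rw [h0]
  · show ¬ l1 (p j) (p i) ↔ a i ≤ a j
    rw [← h1, not_lt]
  · show ¬ l1 (p i) (p j) ↔ a j ≤ a i
    rw [← h1, not_lt]

/-- finite parts of the coded structures -/
theorem emb_pattern (h1 : DLO o1) (h2 : DLO o2) (s : Sign) {n : ℕ} (g : Fin n → Tk Q)
    (hg : Function.Injective g) :
    ∃ (N : ℕ) (π : Equiv.Perm (Fin N)) (h : Fin n → Fin N ⊕ Fin N), Function.Injective h ∧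
      ∀ i j, (tabT (tt s)).SY o1 o2 () (g i) (g j) ↔ pattern s π (h i) (h j) := by
  obtain ⟨N, π, a, k0, k1, k2⟩ := perm_of (sl_E1 (tt s) (sl_of h1)) (sl_E2 (tt s) (sl_of h2))
    (fun i => pt (g i))
  let h : Fin n → Fin N ⊕ Fin N := fun i => match sd (g i) with
    | false => .inl (a i)
    | true => .inr (π (a i))
  have hf : ∀ i, sd (g i) = false → h i = .inl (a i) := by
    intro i hi
    simp only [h, hi]
  have ht : ∀ i, sd (g i) = true → h i = .inr (π (a i)) := by
    intro i hi
    simp only [h, hi]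
  refine ⟨N, π, h, fun i j hij => ?_, fun i j => ?_⟩
  · refine hg ?_
    cases hi : sd (g i) <;> cases hj : sd (g j)
    · rw [hf i hi, hf j hj, Sum.inl.injEq, k0] at hij
      exact pt_sd_inj (by rw [hi, hj]) hij
    · rw [hf i hi, ht j hj] at hij
      cases hij
    · rw [ht i hi, hf j hj] at hij
      cases hij
    · rw [ht i hi, ht j hj, Sum.inr.injEq, π.injective.eq_iff, k0] at hij
      exact pt_sd_inj (by rw [hi, hj]) hij
  · rw [arc_iff]
    cases hi : sd (g i) <;> cases hj : sd (g j) <;> simp only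
    · rw [hf i hi, hf j hj]
      exact (k1 i j).symm
    · rw [hf i hi, ht j hj]
      exact (rel_iff s k0 k1 i j).not
    · rw [ht i hi, hf j hj]
      exact rel_iff s k0 k1 j i
    · rw [ht i hi, ht j hj]
      exact (k2 i j).symm

end

/-- the coded structures belong locally to the class -/
theorem locally_pattern {𝒞 : (n : ℕ) → (Fin n → Fin n → Prop) → Prop} {s : Sign}
    (hC : ∀ (n : ℕ) (π : Equiv.Perm (Fin n)), Contains 𝒞 (pattern s π))
    {X : Unit → ℕ → ℕ → Prop} (hX : W (tabT (tt s)) (dcT (tt s)) X) :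
    IsTournament (X ()) ∧ Contains 𝒞 (X ()) := by
  obtain ⟨Q, _, _, o1, o2, h1, h2, e, he⟩ := hX.std
  have m1 := sl_E1 (tt s) (sl_of h1)
  have m2 := sl_E2 (tt s) (sl_of h2)
  refine ⟨⟨fun x h3 => ?_, fun x y hne => ?_⟩, fun n f hf => ?_⟩
  · rw [he, arc_iff] at h3
    cases hx : sd (e x) <;> simp only [hx] at h3
    · exact m1.irrefl _ h3
    · exact m2.irrefl _ h3
  · rw [he, he, arc_iff, arc_iff]
    have hne' : e x ≠ e y := fun h => hne (e.injective h)
    cases hx : sd (e x) <;> cases hy : sd (e y) <;> simp only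
    · rw [m1.not_iff fun h => hne' (pt_sd_inj (by rw [hx, hy]) h.symm)]
    · rw [not_not]
    · rw [m2.not_iff fun h => hne' (pt_sd_inj (by rw [hx, hy]) h.symm)]
  · obtain ⟨N, π, h, k1, k2⟩ := emb_pattern h1 h2 s (fun i => e (f i))
      (e.injective.comp hf)
    have h3 := hC N π n h k1
    convert h3 using 3 with i j
    exact (he () _ _).trans (k2 i j)

theorem faithful_C {𝒞 : (n : ℕ) → (Fin n → Fin n → Prop) → Prop} (h : HasPatterns 𝒞) :
    Faithful BIso (fun y : BinStr => IsTournament (fun u v => y u v = true) ∧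
      Contains 𝒞 (fun u v => y u v = true)) := by
  obtain ⟨s, h⟩ := h
  exact faithful_1 (fd_dcT (tt s)) (inv_dcT (tt s)) (ok_dcT (tt s)) fun y hy =>
    locally_pattern h hy

end Pool.Agent.TH783.OT.To
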