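import Pool.Agent.TH783.OT.Mach

set_option autoImplicit false

/-! Definability and the interpretation. -/

namespace Pool.Agent.TH783.OT

open FirstOrder FirstOrder.Language
open Pool.Agent.TH783.FC (FD1 FD2)
open Pool.Agent.W889.FO
open Pool.Agent.W889.FO.StA (FD.all1 FD.ex1)
open Pool.Agent.W889.VC (DLO)
open Pool.Agent.TH783.MD (ax_dlo)
open Pool.Agent.TH686.FO (L2 R2 g1 g2)
open Pool.Agent.TH686.DO (DL1)

variable {L : FirstOrder.Language.{0, 0}} {V : L.Structure ℕ → Prop} {J : Type}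

theorem fd_app {α : Type} {P : L.Structure ℕ → (α → ℕ) → Prop}
    {G : Prop → L.Structure ℕ → (α → ℕ) → Prop} (h : FD V P) (h1 : FD V (G True))
    (h0 : FD V (G False)) : FD V (fun S v => G (P S v) S v) := by
  refine ((h.and h1).or (h.not.and h0)).congr fun S _ v => ?_
  by_cases hp : P S v
  · simp [hp]
  · simp [hp]

theorem fd_app5 {α : Type} {P1 P2 P3 P4 P5 : L.Structure ℕ → (α → ℕ) → Prop}
    (F : Prop → Prop → Prop → Prop → Prop → Prop) (h1 : FD V P1) (h2 : FD V P2) (h3 : FD V P3)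
    (h4 : FD V P4) (h5 : FD V P5) :
    FD V (fun S v => F (P1 S v) (P2 S v) (P3 S v) (P4 S v) (P5 S v)) := by
  have k5 : ∀ a b c d : Prop, FD V (fun S v => F a b c d (P5 S v)) := fun a b c d =>
    fd_app (G := fun p _ _ => F a b c d p) h5 (FD.const _) (FD.const _)
  have k4 : ∀ a b c : Prop, FD V (fun S v => F a b c (P4 S v) (P5 S v)) := fun a b c =>
    fd_app (G := fun p S v => F a b c p (P5 S v)) h4 (k5 _ _ _ _) (k5 _ _ _ _)
  have k3 : ∀ a b : Prop, FD V (fun S v => F a b (P3 S v) (P4 S v) (P5 S v)) := fun a b =>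
    fd_app (G := fun p S v => F a b p (P4 S v) (P5 S v)) h3 (k4 _ _ _) (k4 _ _ _)
  have k2 : ∀ a : Prop, FD V (fun S v => F a (P2 S v) (P3 S v) (P4 S v) (P5 S v)) := fun a =>
    fd_app (G := fun p S v => F a p (P3 S v) (P4 S v) (P5 S v)) h2 (k3 _ _) (k3 _ _)
  exact fd_app (G := fun p S v => F p (P2 S v) (P3 S v) (P4 S v) (P5 S v)) h1 (k2 _) (k2 _)

/-- definable decoders -/
structure Dc.Fd (d : Dc J) : Prop where
  dm : ∀ {L : FirstOrder.Language.{0, 0}} {V : L.Structure ℕ → Prop}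
    {R : L.Structure ℕ → J → ℕ → ℕ → Prop}, (∀ j, FD2 V (fun S => R S j)) →
    FD1 V (fun S => d.dm (R S))
  o1 : ∀ {L : FirstOrder.Language.{0, 0}} {V : L.Structure ℕ → Prop}
    {R : L.Structure ℕ → J → ℕ → ℕ → Prop}, (∀ j, FD2 V (fun S => R S j)) →
    FD2 V (fun S => d.o1 (R S))
  o2 : ∀ {L : FirstOrder.Language.{0, 0}} {V : L.Structure ℕ → Prop}
    {R : L.Structure ℕ → J → ℕ → ℕ → Prop}, (∀ j, FD2 V (fun S => R S j)) →
    FD2 V (fun S => d.o2 (R S))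
  at' : ∀ {L : FirstOrder.Language.{0, 0}} {V : L.Structure ℕ → Prop}
    {R : L.Structure ℕ → J → ℕ → ℕ → Prop}, (∀ j, FD2 V (fun S => R S j)) → ∀ k,
    FD2 V (fun S => d.at' (R S) k)
  sp : ∀ {L : FirstOrder.Language.{0, 0}} {V : L.Structure ℕ → Prop}
    {R : L.Structure ℕ → J → ℕ → ℕ → Prop}, (∀ j, FD2 V (fun S => R S j)) → ∀ i,
    FD1 V (fun S => d.sp (R S) i)

variable {t : Tab J} {d : Dc J} {R : L.Structure ℕ → J → ℕ → ℕ → Prop}

theorem ax_w (hd : d.Fd) (h : ∀ j, FD2 (fun _ => True) (fun S => R S j)) :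
    Ax (fun S : L.Structure ℕ => W t d (R S)) := by
  have a1 := ax_dlo (P := fun S => d.dm (R S)) (R := fun S => d.o1 (R S)) (hd.dm h) (hd.o1 h)
  have a2 := ax_dlo (P := fun S => d.dm (R S)) (R := fun S => d.o2 (R S)) (hd.dm h) (hd.o2 h)
  have a3 : Ax (fun S : L.Structure ℕ => ∀ m : ℕ, ∃ X : Fin m → ℕ,
      Function.Injective X ∧ ∀ i, d.dm (R S) (X i)) := Ax.all fun m => Ax.of <|
    FD.ex (P := fun S _ X => Function.Injective X ∧ ∀ i, d.dm (R S) (X i)) <|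
    (FD.inj _).and (FD.fin fun _ => hd.dm h _ _)
  have a4 : Ax (fun S : L.Structure ℕ => ∀ k : Bool, ∀ v : Fin 2 → ℕ,
      d.at' (R S) k (v 0) (v 1) → d.dm (R S) (v 1)) := Ax.all fun k => Ax.ofn 2 <|
    (hd.at' h k _ _ _).imp (hd.dm h _ _)
  have a5 : Ax (fun S : L.Structure ℕ => ∀ k : Bool, ∀ v : Fin 1 → ℕ, d.dm (R S) (v 0) →
      ∃ u, d.at' (R S) k u (v 0)) := Ax.all fun k => Ax.ofn 1 <| (hd.dm h _ _).imp <|
    FD.ex1 (P := fun S v u => d.at' (R S) k u (v 0)) (hd.at' h k _ _ _)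
  have a6 : Ax (fun S : L.Structure ℕ => ∀ k : Bool, ∀ v : Fin 3 → ℕ,
      d.at' (R S) k (v 1) (v 0) → d.at' (R S) k (v 2) (v 0) → v 1 = v 2) :=
    Ax.all fun k => Ax.ofn 3 <|
    (hd.at' h k _ _ _).imp <| (hd.at' h k _ _ _).imp (FD.eq _ _)
  have a7 : Ax (fun S : L.Structure ℕ => ∀ k k' : Bool, ∀ v : Fin 3 → ℕ,
      d.at' (R S) k (v 0) (v 1) → d.at' (R S) k' (v 0) (v 2) → k = k' ∧ v 1 = v 2) :=
    Ax.all fun k => Ax.all fun k' => Ax.ofn 3 <|
    (hd.at' h k _ _ _).imp <| (hd.at' h k' _ _ _).imp <| (FD.const _).and (FD.eq _ _)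
  have a8 : Ax (fun S : L.Structure ℕ => ∀ i : Bool, ∃ u, d.sp (R S) i u) :=
    Ax.all fun i => Ax.of <| FD.ex1 (P := fun S _ u => d.sp (R S) i u) (hd.sp h i _ _)
  have a9 : Ax (fun S : L.Structure ℕ => ∀ i : Bool, ∀ v : Fin 2 → ℕ,
      d.sp (R S) i (v 0) → d.sp (R S) i (v 1) → v 0 = v 1) :=
    Ax.all fun i => Ax.ofn 2 <| (hd.sp h i _ _).imp <| (hd.sp h i _ _).imp (FD.eq _ _)
  have a10 : Ax (fun S : L.Structure ℕ => ∀ i i' : Bool, ∀ v : Fin 1 → ℕ,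
      d.sp (R S) i (v 0) → d.sp (R S) i' (v 0) → i = i') :=
    Ax.all fun i => Ax.all fun i' => Ax.ofn 1 <|
    (hd.sp h i _ _).imp <| (hd.sp h i' _ _).imp (FD.const _)
  have a11 : Ax (fun S : L.Structure ℕ => ∀ k i : Bool, ∀ v : Fin 2 → ℕ,
      d.at' (R S) k (v 0) (v 1) → ¬ d.sp (R S) i (v 0)) :=
    Ax.all fun k => Ax.all fun i => Ax.ofn 2 <|
    (hd.at' h k _ _ _).imp (hd.sp h i _ _).not
  have a12 : Ax (fun S : L.Structure ℕ => ∀ v : Fin 1 → ℕ,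
      (∃ k x, d.at' (R S) k (v 0) x) ∨ ∃ i, d.sp (R S) i (v 0)) := Ax.ofn 1 <|
    (FD.fin' fun k => FD.ex1 (P := fun S v x => d.at' (R S) k (v 0) x) (hd.at' h k _ _ _)).or <|
    FD.fin' fun i => hd.sp h i _ _
  have a13 : Ax (fun S : L.Structure ℕ => ∀ j : J, ∀ k k' : Bool, ∀ v : Fin 4 → ℕ,
      d.at' (R S) k (v 0) (v 2) → d.at' (R S) k' (v 1) (v 3) →
      (R S j (v 0) (v 1) ↔ t.pp j k k' (d.o1 (R S) (v 2) (v 3)) (d.o1 (R S) (v 3) (v 2))
        (d.o2 (R S) (v 2) (v 3)) (d.o2 (R S) (v 3) (v 2)) (v 2 = v 3))) :=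
    Ax.all fun j => Ax.all fun k => Ax.all fun k' => Ax.ofn 4 <|
    (hd.at' h k _ _ _).imp <| (hd.at' h k' _ _ _).imp <| (h j _ _ _).iff <|
    fd_app5 (t.pp j k k') (hd.o1 h _ _ _) (hd.o1 h _ _ _) (hd.o2 h _ _ _) (hd.o2 h _ _ _)
      (FD.eq _ _)
  have a14 : Ax (fun S : L.Structure ℕ => ∀ j : J, ∀ k i : Bool, ∀ v : Fin 3 → ℕ,
      d.at' (R S) k (v 0) (v 2) → d.sp (R S) i (v 1) → (R S j (v 0) (v 1) ↔ t.ps j k i)) :=
    Ax.all fun j => Ax.all fun k => Ax.all fun i => Ax.ofn 3 <|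
    (hd.at' h k _ _ _).imp <| (hd.sp h i _ _).imp <| (h j _ _ _).iff (FD.const _)
  have a15 : Ax (fun S : L.Structure ℕ => ∀ j : J, ∀ i k : Bool, ∀ v : Fin 3 → ℕ,
      d.sp (R S) i (v 0) → d.at' (R S) k (v 1) (v 2) → (R S j (v 0) (v 1) ↔ t.sp j i k)) :=
    Ax.all fun j => Ax.all fun k => Ax.all fun i => Ax.ofn 3 <|
    (hd.sp h _ _ _).imp <| (hd.at' h _ _ _ _).imp <| (h j _ _ _).iff (FD.const _)
  have a16 : Ax (fun S : L.Structure ℕ => ∀ j : J, ∀ i i' : Bool, ∀ v : Fin 2 → ℕ,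
      d.sp (R S) i (v 0) → d.sp (R S) i' (v 1) → (R S j (v 0) (v 1) ↔ t.ss j i i')) :=
    Ax.all fun j => Ax.all fun k => Ax.all fun i => Ax.ofn 2 <|
    (hd.sp h _ _ _).imp <| (hd.sp h _ _ _).imp <| (h j _ _ _).iff (FD.const _)
  refine (a1.and <| a2.and <| a3.and <| a4.and <| a5.and <| a6.and <| a7.and <| a8.and <|
    a9.and <| a10.and <| a11.and <| a12.and <| a13.and <| a14.and <| a15.and a16).congr
    fun S => ?_
  constructor
  · rintro ⟨b1, b2, b3, b4, b5, b6, b7, b8, b9, b10, b11, b12, b13, b14, b15, b16⟩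
    exact ⟨b1, b2, b3, fun k u x => b4 k ![u, x], fun k x => b5 k fun _ => x,
      fun k x u u' => b6 k ![x, u, u'], fun k k' u x x' => b7 k k' ![u, x, x'], b8,
      fun i u u' => b9 i ![u, u'], fun i i' u => b10 i i' fun _ => u,
      fun k i u x => b11 k i ![u, x], fun u => b12 fun _ => u,
      fun j k k' u u' x x' => b13 j k k' ![u, u', x, x'], fun j k i u v x => b14 j k i ![u, v, x],
      fun j i k u v x => b15 j i k ![u, v, x], fun j i i' u v => b16 j i i' ![u, v]⟩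
  · rintro ⟨b1, b2, b3, b4, b5, b6, b7, b8, b9, b10, b11, b12, b13, b14, b15, b16⟩
    exact ⟨b1, b2, b3, fun k v => b4 k _ _, fun k v => b5 k _, fun k v => b6 k _ _ _,
      fun k k' v => b7 k k' _ _ _, b8, fun i v => b9 i _ _, fun i i' v => b10 i i' _,
      fun k i v => b11 k i _ _, fun v => b12 _, fun j k k' v => b13 j k k' _ _ _ _,
      fun j k i v => b14 j k i _ _ _, fun j i k v => b15 j i k _ _ _,
      fun j i i' v => b16 j i i' _ _⟩

/-- the interpretation -/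
def itp (t : Tab J) (d : Dc J) (hd : d.Fd) (R : L.Structure ℕ → J → ℕ → ℕ → Prop)
    (h : ∀ (V : L.Structure ℕ → Prop) j, FD2 V (fun S => R S j)) : Itp L2 L where
  W := fun S => W t d (R S)
  axW := ax_w hd (h _)
  dom := fun S u => d.dm (R S) u
  rel := fun {n} Q => match n, Q with
    | _, R2.fst => fun S v => d.o1 (R S) (v 0) (v 1)
    | _, R2.snd => fun S v => d.o2 (R S) (v 0) (v 1)
  fdom := hd.dm (h _) _ _
  frel := fun {n} Q => match n, Q with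
    | _, R2.fst => hd.o1 (h _) _ _ _
    | _, R2.snd => hd.o2 (h _) _ _ _
  inf := fun _ h => inf_of_card h.inf

variable {hd : d.Fd} {h : ∀ (V : L.Structure ℕ → Prop) j, FD2 V (fun S => R S j)}

theorem up (hs : ∀ {S S' : L.Structure ℕ} (e : ℕ ≃ ℕ),
      (∀ j u v, R S j u v ↔ R S' j (e u) (e v)) → SIso S S')
    {S S' : L.Structure ℕ} (h1 : W t d (R S)) (h2 : W t d (R S'))
    (hi : SIso ((itp t d hd R h).D S) ((itp t d hd R h).D S')) : SIso S S' := by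
  obtain ⟨π, hπ⟩ : ∃ π : {u // d.dm (R S) u} ≃ {u // d.dm (R S') u},
      ∀ {n : ℕ} (Q : L2.Relations n) (u : Fin n → {u // d.dm (R S) u}),
        (itp t d hd R h).rel Q S (fun i => u i) ↔ (itp t d hd R h).rel Q S' (fun i => π (u i)) :=
    ((itp t d hd R h).D_iso_iff h1 h2).1 hi
  obtain ⟨e, h3⟩ := W.ext h1 h2 π
    (fun u v => hπ R2.fst (fun m => if m = 0 then u else v))
    (fun u v => hπ R2.snd (fun m => if m = 0 then u else v))
  exact hs e h3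

theorem ex (hi : d.Inv) (hok : d.Ok t) (mk : (J → ℕ → ℕ → Prop) → L.Structure ℕ)
    (hmk : ∀ X, R (mk X) = X) (N : L2.Structure ℕ) (h1 : DLO (g1 N)) (h2 : DLO (g2 N)) :
    ∃ S : L.Structure ℕ, W t d (R S) ∧ SIso ((itp t d hd R h).D S) N := by
  obtain ⟨e⟩ : Nonempty (Tk ℕ ≃ ℕ) := nonempty_equiv_of_countable
  let X : J → ℕ → ℕ → Prop := fun j u v => t.SY (g1 N) (g2 N) j (e.symm u) (e.symm v)
  have hX : ∀ j u v, t.SY (g1 N) (g2 N) j u v ↔ X j (e u) (e v) := by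
    intro j u v
    simp [X]
  have hW : W t d X := W.map hi e hX (w_std hok h1 h2)
  have hW' : W t d (R (mk X)) := by
    rw [hmk]
    exact hW
  refine ⟨mk X, hW', ?_⟩
  have hB : ∀ q : ℕ, d.dm (R (mk X)) (e (.p false q)) := fun q => by
    rw [hmk]
    exact (hi.dm e hX _).1 ((hok.dm h1 h2 _).2 ⟨q, rfl⟩)
  have hbij : Function.Bijective (fun q : ℕ => (⟨e (.p false q), hB q⟩ :
      {u // d.dm (R (mk X)) u})) := by
    constructor
    · intro u v huv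
      simpa using e.injective (congrArg Subtype.val huv)
    · rintro ⟨u, hu⟩
      obtain ⟨t, rfl⟩ := e.surjective u
      obtain ⟨q, rfl⟩ := (hok.dm h1 h2 _).1 ((hi.dm e hX _).2 (by rwa [hmk] at hu))
      exact ⟨q, rfl⟩
  refine (itp t d hd R h).D_iso hW' (Equiv.ofBijective _ hbij) fun {n} Q u => ?_
  cases Q with
  | fst =>
    have e1 : ![u 0, u 1] = u := by
      funext m
      fin_cases m <;> rfl
    have h3 : @Structure.RelMap L2 ℕ N 2 R2.fst u ↔ g1 N (u 0) (u 1) := by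
      unfold g1
      rw [e1]
    refine h3.trans ?_
    show _ ↔ d.o1 (R (mk X)) (e (.p false (u 0))) (e (.p false (u 1)))
    rw [hmk, ← hi.o1 e hX, hok.o1 h1 h2]
  | snd =>
    have e1 : ![u 0, u 1] = u := by
      funext m
      fin_cases m <;> rfl
    have h3 : @Structure.RelMap L2 ℕ N 2 R2.snd u ↔ g2 N (u 0) (u 1) := by
      unfold g2
      rw [e1]
    refine h3.trans ?_
    show _ ↔ d.o2 (R (mk X)) (e (.p false (u 0))) (e (.p false (u 1)))
    rw [hmk, ← hi.o2 e hX, hok.o2 h1 h2]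

/-- a standard representation -/
theorem W.std {X : J → ℕ → ℕ → Prop} (h : W t d X) :
    ∃ (Q : Type) (_ : Countable Q) (_ : Nonempty Q) (o1 o2 : Q → Q → Prop), DLO o1 ∧ DLO o2 ∧
      ∃ e : ℕ ≃ Tk Q, ∀ j u v, X j u v ↔ t.SY o1 o2 j (e u) (e v) := by
  obtain ⟨e, h3⟩ := h.rep
  obtain ⟨x, hx⟩ := h.pt
  refine ⟨{x // d.dm X x}, inferInstance, ⟨⟨x, hx⟩⟩, _, _, h.d1, h.d2, e.symm,
    fun j u v => ?_⟩
  rw [h3, e.apply_symm_apply, e.apply_symm_apply]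

end Pool.Agent.TH783.OT
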