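import Pool.Agent.TH783.OT.Mach0

set_option autoImplicit false

/-! Definability and the interpretation. -/

namespace Pool.Agent.TH783.OT.D

open FirstOrder FirstOrder.Language
open Pool.Agent.TH783.FC (FD1 FD2)
open Pool.Agent.W889.FO
open Pool.Agent.W889.FO.StA (FD.all1 FD.ex1)
open Pool.Agent.W889.VC (DLO PairStr PIso Faithful)
open Pool.Agent.TH783.MD (ax_dlo dlo_of)
open Pool.Agent.TH686.FO (L2 R2 g1 g2 ofp)
open Pool.Agent.TH686.DO (DL1)

variable {L : FirstOrder.Language.{0, 0}} {V : L.Structure ℕ → Prop} {J : Type}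

/-- definable decoders -/
structure Dc.Fd (d : Dc J) : Prop where
  dm : ∀ {L : FirstOrder.Language.{0, 0}} {V : L.Structure ℕ → Prop}
    {R : L.Structure ℕ → J → ℕ → ℕ → Prop}, (∀ j, FD2 V (fun S => R S j)) →
    FD1 V (fun S => d.dm (R S))
  o1 : ∀ {L : FirstOrder.Language.{0, 0}} {V : L.Structure ℕ → Prop}
    {R : L.Structure ℕ → J → ℕ → ℕ → Prop}, (∀ j, FD2 V (fun S => R S j)) →
    FD2 V (fun S => d.o1 (R S))
  o2 : ∀ {L : FirstOrder.Language.{0, 0}} {V : L.Structure ℕ → Prop}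
    {R : L.Structure ℕ → J → ℕ → ℕ → Prop}, (∀ j, FD2 V (fun S => R S j)) →
    FD2 V (fun S => d.o2 (R S))
  at' : ∀ {L : FirstOrder.Language.{0, 0}} {V : L.Structure ℕ → Prop}
    {R : L.Structure ℕ → J → ℕ → ℕ → Prop}, (∀ j, FD2 V (fun S => R S j)) → ∀ k,
    FD2 V (fun S => d.at' (R S) k)

variable {t : Tab J} {d : Dc J} {R : L.Structure ℕ → J → ℕ → ℕ → Prop}

theorem ax_w (hd : d.Fd) (h : ∀ j, FD2 (fun _ => True) (fun S => R S j)) :
    Ax (fun S : L.Structure ℕ => W t d (R S)) := by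
  have a1 := ax_dlo (P := fun S => d.dm (R S)) (R := fun S => d.o1 (R S)) (hd.dm h) (hd.o1 h)
  have a2 := ax_dlo (P := fun S => d.dm (R S)) (R := fun S => d.o2 (R S)) (hd.dm h) (hd.o2 h)
  have a3 : Ax (fun S : L.Structure ℕ => ∀ m : ℕ, ∃ X : Fin m → ℕ,
      Function.Injective X ∧ ∀ i, d.dm (R S) (X i)) := Ax.all fun m => Ax.of <|
    FD.ex (P := fun S _ X => Function.Injective X ∧ ∀ i, d.dm (R S) (X i)) <|
    (FD.inj _).and (FD.fin fun _ => hd.dm h _ _)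
  have a4 : Ax (fun S : L.Structure ℕ => ∀ k : Bool, ∀ v : Fin 2 → ℕ,
      d.at' (R S) k (v 0) (v 1) → d.dm (R S) (v 1)) := Ax.all fun k => Ax.ofn 2 <|
    (hd.at' h k _ _ _).imp (hd.dm h _ _)
  have a5 : Ax (fun S : L.Structure ℕ => ∀ k : Bool, ∀ v : Fin 1 → ℕ, d.dm (R S) (v 0) →
      ∃ u, d.at' (R S) k u (v 0)) := Ax.all fun k => Ax.ofn 1 <| (hd.dm h _ _).imp <|
    FD.ex1 (P := fun S v u => d.at' (R S) k u (v 0)) (hd.at' h k _ _ _)
  have a6 : Ax (fun S : L.Structure ℕ => ∀ k : Bool, ∀ v : Fin 3 → ℕ,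
      d.at' (R S) k (v 1) (v 0) → d.at' (R S) k (v 2) (v 0) → v 1 = v 2) :=
    Ax.all fun k => Ax.ofn 3 <|
    (hd.at' h k _ _ _).imp <| (hd.at' h k _ _ _).imp (FD.eq _ _)
  have a7 : Ax (fun S : L.Structure ℕ => ∀ k k' : Bool, ∀ v : Fin 3 → ℕ,
      d.at' (R S) k (v 0) (v 1) → d.at' (R S) k' (v 0) (v 2) → k = k' ∧ v 1 = v 2) :=
    Ax.all fun k => Ax.all fun k' => Ax.ofn 3 <|
    (hd.at' h k _ _ _).imp <| (hd.at' h k' _ _ _).imp <| (FD.const _).and (FD.eq _ _)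
  have a12 : Ax (fun S : L.Structure ℕ => ∀ v : Fin 1 → ℕ,
      ∃ k x, d.at' (R S) k (v 0) x) := Ax.ofn 1 <|
    FD.fin' fun k => FD.ex1 (P := fun S v x => d.at' (R S) k (v 0) x) (hd.at' h k _ _ _)
  have a13 : Ax (fun S : L.Structure ℕ => ∀ j : J, ∀ k k' : Bool, ∀ v : Fin 4 → ℕ,
      d.at' (R S) k (v 0) (v 2) → d.at' (R S) k' (v 1) (v 3) →
      (R S j (v 0) (v 1) ↔ t j k k' (d.o1 (R S) (v 2) (v 3)) (d.o1 (R S) (v 3) (v 2))
        (d.o2 (R S) (v 2) (v 3)) (d.o2 (R S) (v 3) (v 2)) (v 2 = v 3))) :=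
    Ax.all fun j => Ax.all fun k => Ax.all fun k' => Ax.ofn 4 <|
    (hd.at' h k _ _ _).imp <| (hd.at' h k' _ _ _).imp <| (h j _ _ _).iff <|
    fd_app5 (t j k k') (hd.o1 h _ _ _) (hd.o1 h _ _ _) (hd.o2 h _ _ _) (hd.o2 h _ _ _)
      (FD.eq _ _)
  refine (a1.and <| a2.and <| a3.and <| a4.and <| a5.and <| a6.and <| a7.and <|
    a12.and a13).congr fun S => ?_
  constructor
  · rintro ⟨b1, b2, b3, b4, b5, b6, b7, b12, b13⟩
    exact ⟨b1, b2, b3, fun k u x => b4 k ![u, x], fun k x => b5 k fun _ => x,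
      fun k x u u' => b6 k ![x, u, u'], fun k k' u x x' => b7 k k' ![u, x, x'],
      fun u => b12 fun _ => u, fun j k k' u u' x x' => b13 j k k' ![u, u', x, x']⟩
  · rintro ⟨b1, b2, b3, b4, b5, b6, b7, b12, b13⟩
    exact ⟨b1, b2, b3, fun k v => b4 k _ _, fun k v => b5 k _, fun k v => b6 k _ _ _,
      fun k k' v => b7 k k' _ _ _, fun v => b12 _, fun j k k' v => b13 j k k' _ _ _ _⟩

/-- the interpretation -/
def itp (t : Tab J) (d : Dc J) (hd : d.Fd) (R : L.Structure ℕ → J → ℕ → ℕ → Prop)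
    (h : ∀ (V : L.Structure ℕ → Prop) j, FD2 V (fun S => R S j)) : Itp L2 L where
  W := fun S => W t d (R S)
  axW := ax_w hd (h _)
  dom := fun S u => d.dm (R S) u
  rel := fun {n} Q => match n, Q with
    | _, R2.fst => fun S v => d.o1 (R S) (v 0) (v 1)
    | _, R2.snd => fun S v => d.o2 (R S) (v 0) (v 1)
  fdom := hd.dm (h _) _ _
  frel := fun {n} Q => match n, Q with
    | _, R2.fst => hd.o1 (h _) _ _ _
    | _, R2.snd => hd.o2 (h _) _ _ _
  inf := fun _ h => inf_of_card h.inf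

variable {hd : d.Fd} {h : ∀ (V : L.Structure ℕ → Prop) j, FD2 V (fun S => R S j)}

theorem up (hs : ∀ {S S' : L.Structure ℕ} (e : ℕ ≃ ℕ),
      (∀ j u v, R S j u v ↔ R S' j (e u) (e v)) → SIso S S')
    {S S' : L.Structure ℕ} (h1 : W t d (R S)) (h2 : W t d (R S'))
    (hi : SIso ((itp t d hd R h).D S) ((itp t d hd R h).D S')) : SIso S S' := by
  obtain ⟨π, hπ⟩ : ∃ π : {u // d.dm (R S) u} ≃ {u // d.dm (R S') u},
      ∀ {n : ℕ} (Q : L2.Relations n) (u : Fin n → {u // d.dm (R S) u}),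
        (itp t d hd R h).rel Q S (fun i => u i) ↔ (itp t d hd R h).rel Q S' (fun i => π (u i)) :=
    ((itp t d hd R h).D_iso_iff h1 h2).1 hi
  obtain ⟨e, h3⟩ := W.ext h1 h2 π
    (fun u v => hπ R2.fst (fun m => if m = 0 then u else v))
    (fun u v => hπ R2.snd (fun m => if m = 0 then u else v))
  exact hs e h3

theorem ex (hi : d.Inv) (hok : d.Ok t) (mk : (J → ℕ → ℕ → Prop) → L.Structure ℕ)
    (hmk : ∀ X, R (mk X) = X) (N : L2.Structure ℕ) (h1 : DLO (g1 N)) (h2 : DLO (g2 N)) :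
    ∃ S : L.Structure ℕ, W t d (R S) ∧ SIso ((itp t d hd R h).D S) N := by
  obtain ⟨e⟩ : Nonempty (Bool × ℕ ≃ ℕ) := nonempty_equiv_of_countable
  let X : J → ℕ → ℕ → Prop := fun j u v => SY t (g1 N) (g2 N) j (e.symm u) (e.symm v)
  have hX : ∀ j u v, SY t (g1 N) (g2 N) j u v ↔ X j (e u) (e v) := by
    intro j u v
    simp [X]
  have hW : W t d X := W.map hi e hX (w_std hok h1 h2)
  have hW' : W t d (R (mk X)) := by
    rw [hmk]
    exact hW
  refine ⟨mk X, hW', ?_⟩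
  have hB : ∀ q : ℕ, d.dm (R (mk X)) (e (false, q)) := fun q => by
    rw [hmk]
    exact (hi.dm e hX _).1 ((hok.dm h1 h2 _).2 ⟨q, rfl⟩)
  have hbij : Function.Bijective (fun q : ℕ => (⟨e (false, q), hB q⟩ :
      {u // d.dm (R (mk X)) u})) := by
    constructor
    · intro u v huv
      simpa using e.injective (congrArg Subtype.val huv)
    · rintro ⟨u, hu⟩
      obtain ⟨t, rfl⟩ := e.surjective u
      obtain ⟨q, rfl⟩ := (hok.dm h1 h2 _).1 ((hi.dm e hX _).2 (by rwa [hmk] at hu))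
      exact ⟨q, rfl⟩
  refine (itp t d hd R h).D_iso hW' (Equiv.ofBijective _ hbij) fun {n} Q u => ?_
  cases Q with
  | fst =>
    have e1 : ![u 0, u 1] = u := by
      funext m
      fin_cases m <;> rfl
    have h3 : @Structure.RelMap L2 ℕ N 2 R2.fst u ↔ g1 N (u 0) (u 1) := by
      unfold g1
      rw [e1]
    refine h3.trans ?_
    show _ ↔ d.o1 (R (mk X)) (e (false, u 0)) (e (false, u 1))
    rw [hmk, ← hi.o1 e hX, hok.o1 h1 h2]
  | snd =>
    have e1 : ![u 0, u 1] = u := by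
      funext m
      fin_cases m <;> rfl
    have h3 : @Structure.RelMap L2 ℕ N 2 R2.snd u ↔ g2 N (u 0) (u 1) := by
      unfold g2
      rw [e1]
    refine h3.trans ?_
    show _ ↔ d.o2 (R (mk X)) (e (false, u 0)) (e (false, u 1))
    rw [hmk, ← hi.o2 e hX, hok.o2 h1 h2]

/-- a standard representation -/
theorem W.std {X : J → ℕ → ℕ → Prop} (h : W t d X) :
    ∃ (Q : Type) (_ : Countable Q) (_ : Nonempty Q) (o1 o2 : Q → Q → Prop), DLO o1 ∧ DLO o2 ∧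
      ∃ e : ℕ ≃ Bool × Q, ∀ j u v, X j u v ↔ SY t o1 o2 j (e u) (e v) := by
  obtain ⟨e, h3⟩ := h.rep
  obtain ⟨x, hx⟩ := h.pt
  refine ⟨{x // d.dm X x}, inferInstance, ⟨⟨x, hx⟩⟩, _, _, h.d1, h.d2, e.symm,
    fun j u v => ?_⟩
  rw [h3, e.apply_symm_apply, e.apply_symm_apply]

/-- pairs over pairs of dense orders -/
theorem faithful_2 {t : Tab Bool} {d : Dc Bool} (hd : d.Fd) (hi : d.Inv) (hok : d.Ok t)
    {K : PairStr → Prop} (hK : ∀ y : PairStr, W t d (r2 (ofp y)) → K y) : Faithful PIso K :=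
  itp_pp (itp t d hd r2 fd_r2) (fun _ _ h1 h2 h3 => up (fun e => siso_r2 e) h1 h2 h3)
    Pool.Agent.TH686.DO.faithful_DD
    (fun x hx => ex hi hok mk2 r2_mk2 (ofp x) (dlo_of hx.1) (dlo_of hx.2)) hK

end Pool.Agent.TH783.OT.D
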