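import Pool.Agent.TH783.OT.PermO

set_option autoImplicit false

/-! Ordered graphs: summary. -/

namespace Pool.Agent.TH783.OT

open Pool.Agent.W889.VC (DLO PairStr PIso Faithful BP bp_fst bp_snd)
open Pool.Agent.TH686.FO (L2 R2 g1 g2 ps ofp ps1 ps2 ps_ofp siso_ps)
open PatO

/-- the two relations of a pair -/
def LIn (𝒞 : (n : ℕ) → SimpleGraph (Fin n) → Prop) (y : PairStr) : Prop :=
  LocallyIn 𝒞 (fun u v => y.1 u v = true) (fun u v => y.2 u v = true)

theorem faithful_C {𝒞 : (n : ℕ) → SimpleGraph (Fin n) → Prop} (h : HasPatterns 𝒞) :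
    Faithful PIso (LIn 𝒞) := by
  rcases h with ⟨s, l, r, h⟩ | h
  · exact faithful_2 (fd_dcO s.sd) (inv_dcO s.sd) (ok_dcO s.sd (l = true) (r = true))
      fun y hy => locally_match h hy
  · exact faithful_P fun y hy => locally_perm h hy

/-- ordered graphs -/
def OG (y : PairStr) : Prop :=
  IsStrictTotalOrder ℕ (fun u v => y.1 u v = true) ∧ (∀ u v, y.2 u v = true → y.2 v u = true) ∧
    ∀ u, y.2 u u = false

theorem og_of {𝒞 : (n : ℕ) → SimpleGraph (Fin n) → Prop} {y : PairStr} (h : LIn 𝒞 y) :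
    OG y := by
  obtain ⟨h1, G, h2, -⟩ := h
  refine ⟨h1, fun u v h3 => (h2 v u).1 ((h2 u v).2 h3).symm, fun u => ?_⟩
  rw [← Bool.not_eq_true]
  exact fun h3 => G.irrefl ((h2 u u).2 h3)

theorem deg1 {Q : Type} {o1 o2 : Q → Q → Prop} {u v w : Tk Q}
    (h : (tabO Sign.eq.sd (false = true) (false = true)).SY o1 o2 true u v)
    (h' : (tabO Sign.eq.sd (false = true) (false = true)).SY o1 o2 true u w) : v = w := by
  rcases u with ⟨_ | _, x⟩ | _ | _ <;> rcases v with ⟨_ | _, y⟩ | _ | _ <;>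
    rcases w with ⟨_ | _, z⟩ | _ | _ <;>
    simp [Tab.SY, tabO, Sign.sd, Sd.c, Sd.cr] at h h' ⊢ <;> aesop

theorem deg2 {Q : Type} {o1 o2 : Q → Q → Prop} {u v w : Tk Q} (hv : u ≠ v) (hw : u ≠ w)
    (h : ¬ (tabO Sign.ne.sd (true = true) (true = true)).SY o1 o2 true u v)
    (h' : ¬ (tabO Sign.ne.sd (true = true) (true = true)).SY o1 o2 true u w) : v = w := by
  rcases u with ⟨_ | _, x⟩ | _ | _ <;> rcases v with ⟨_ | _, y⟩ | _ | _ <;>
    rcases w with ⟨_ | _, z⟩ | _ | _ <;>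
    simp [Tab.SY, tabO, Sign.sd, Sd.c, Sd.cr] at h h' hv hw ⊢ <;> aesop

/-- ordered graphs without two edges at one vertex -/
theorem faithful_D1 : Faithful PIso (fun y => OG y ∧ ∀ u v w, y.2 u v = true →
    y.2 u w = true → v = w) :=
  faithful_2 (fd_dcO Sign.eq.sd) (inv_dcO Sign.eq.sd)
    (ok_dcO Sign.eq.sd (false = true) (false = true)) fun y hy => by
    refine ⟨og_of (𝒞 := fun _ _ => True) (locally_match (fun _ _ _ _ _ => trivial) hy),
      fun u v w h3 h4 => ?_⟩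
    obtain ⟨Q, _, _, o1, o2, h1, h2, e, he⟩ := hy.std
    exact e.injective (deg1 ((he true u v).1 h3) ((he true u w).1 h4))

/-- ordered graphs without two non-edges at one vertex -/
theorem faithful_D2 : Faithful PIso (fun y => OG y ∧ ∀ u v w, u ≠ v → u ≠ w →
    y.2 u v = false → y.2 u w = false → v = w) :=
  faithful_2 (fd_dcO Sign.ne.sd) (inv_dcO Sign.ne.sd)
    (ok_dcO Sign.ne.sd (true = true) (true = true)) fun y hy => by
    refine ⟨og_of (𝒞 := fun _ _ => True) (locally_match (fun _ _ _ _ _ => trivial) hy),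
      fun u v w h5 h6 h3 h4 => ?_⟩
    obtain ⟨Q, _, _, o1, o2, h1, h2, e, he⟩ := hy.std
    refine e.injective (deg2 (o1 := o1) (o2 := o2) (e.injective.ne h5) (e.injective.ne h6)
      (fun h7 => ?_) (fun h7 => ?_))
    · have h8 : y.2 u v = true := (he true u v).2 h7
      rw [h3] at h8
      cases h8
    · have h8 : y.2 u w = true := (he true u w).2 h7
      rw [h4] at h8
      cases h8

/-- one forbidden ordered graph -/
theorem faithful_H {V : Type} {lt : V → V → Prop} {G : SimpleGraph V} {a b c : V}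
    (hab : a ≠ b) (hbc : b ≠ c) (hac : a ≠ c) (hlt : IsStrictTotalOrder V lt) :
    Faithful PIso (fun y => OG y ∧ ¬ ∃ f : V → ℕ, (∀ u v, lt u v → y.1 (f u) (f v) = true) ∧
      ∀ u v, G.Adj u v ↔ y.2 (f u) (f v) = true) := by
  have inj : ∀ {y : PairStr}, OG y → ∀ f : V → ℕ, (∀ u v, lt u v → y.1 (f u) (f v) = true) →
      ∀ u v, u ≠ v → f u ≠ f v := by
    intro y hy f hf u v huv h
    have h1 := hy.1.irrefl (f u)
    by_cases h2 : lt u v
    · have h3 := hf u v h2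
      rw [← h] at h3
      exact h1 h3
    · by_cases h3 : lt v u
      · have h3 := hf v u h3
        rw [← h] at h3
        exact h1 h3
      · exact huv (hlt.trichotomous u v h2 h3)
  by_cases h : (G.Adj a b ∧ G.Adj a c) ∨ (G.Adj b a ∧ G.Adj b c) ∨ (G.Adj c a ∧ G.Adj c b)
  · refine faithful_D1.mono fun y hy => ⟨hy.1, ?_⟩
    rintro ⟨f, hf1, hf2⟩
    have hi := inj hy.1 f hf1
    rcases h with ⟨h3, h4⟩ | ⟨h3, h4⟩ | ⟨h3, h4⟩
    · exact hi b c hbc (hy.2 _ _ _ ((hf2 _ _).1 h3) ((hf2 _ _).1 h4))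
    · exact hi a c hac (hy.2 _ _ _ ((hf2 _ _).1 h3) ((hf2 _ _).1 h4))
    · exact hi a b hab (hy.2 _ _ _ ((hf2 _ _).1 h3) ((hf2 _ _).1 h4))
  · have h' : (¬ G.Adj a b ∧ ¬ G.Adj a c) ∨ (¬ G.Adj b a ∧ ¬ G.Adj b c) ∨
        (¬ G.Adj c a ∧ ¬ G.Adj c b) := by
      have e1 := G.adj_comm a b
      have e2 := G.adj_comm a c
      have e3 := G.adj_comm b c
      tauto
    refine faithful_D2.mono fun y hy => ⟨hy.1, ?_⟩
    rintro ⟨f, hf1, hf2⟩
    have hi := inj hy.1 f hf1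
    have hf3 : ∀ u v, ¬ G.Adj u v → y.2 (f u) (f v) = false := fun u v h => by
      rw [← Bool.not_eq_true, ← hf2]
      exact h
    rcases h' with ⟨h3, h4⟩ | ⟨h3, h4⟩ | ⟨h3, h4⟩
    · exact hi b c hbc (hy.2 _ _ _ (hi _ _ hab) (hi _ _ hac) (hf3 _ _ h3) (hf3 _ _ h4))
    · exact hi a c hac (hy.2 _ _ _ (hi _ _ hab.symm) (hi _ _ hbc) (hf3 _ _ h3) (hf3 _ _ h4))
    · exact hi a b hab (hy.2 _ _ _ (hi _ _ hac.symm) (hi _ _ hbc.symm) (hf3 _ _ h3)
        (hf3 _ _ h4))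

end Pool.Agent.TH783.OT
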