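import Pool.Agent.TH783.OT.EmbO0
import Pool.Agent.TH783.OT.FinO
import Pool.Agent.TH686.DO.Rat

set_option autoImplicit false

/-! Densely ordered graphs: summary. Graphs on the rational numbers. -/

namespace Pool.Agent.TH783.OT.D

open Pool.Agent.W889.VC (DLO PairStr PIso Iso Str Faithful BP bp_fst bp_snd shuffle_unique)
open Pool.Agent.TH686.FO (L2 R2 g1 g2 ps ofp ps1 ps2 ps_ofp siso_ps)
open Pool.Agent.TH686.DO (en)
open PatO

/-- densely ordered graphs -/
def OD (y : PairStr) : Prop :=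
  DLO (fun u v => y.1 u v = true) ∧ (∀ u v, y.2 u v = true → y.2 v u = true) ∧
    ∀ u, y.2 u u = false

theorem od_of {𝒞 : (n : ℕ) → SimpleGraph (Fin n) → Prop} {y : PairStr} (h : LDy 𝒞 y) :
    OD y := by
  obtain ⟨h1, -, G, h2, -⟩ := h
  refine ⟨h1, fun u v h3 => (h2 v u).1 ((h2 u v).2 h3).symm, fun u => ?_⟩
  rw [← Bool.not_eq_true]
  exact fun h3 => G.irrefl ((h2 u u).2 h3)

theorem deg1 {Q : Type} {o1 o2 : Q → Q → Prop} {u v w : Bool × Q}
    (h : SY (tabO Sign.eq.sd false false) o1 o2 true u v)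
    (h' : SY (tabO Sign.eq.sd false false) o1 o2 true u w) : v = w := by
  rcases u with ⟨_ | _, x⟩ <;> rcases v with ⟨_ | _, y⟩ <;>
    rcases w with ⟨_ | _, z⟩ <;>
    simp [SY, tabO, Sign.sd, Sd.cr] at h h' ⊢ <;> aesop

theorem deg2 {Q : Type} {o1 o2 : Q → Q → Prop} {u v w : Bool × Q} (hv : u ≠ v) (hw : u ≠ w)
    (h : ¬ SY (tabO Sign.ne.sd true true) o1 o2 true u v)
    (h' : ¬ SY (tabO Sign.ne.sd true true) o1 o2 true u w) : v = w := by
  rcases u with ⟨_ | _, x⟩ <;> rcases v with ⟨_ | _, y⟩ <;>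
    rcases w with ⟨_ | _, z⟩ <;>
    simp [SY, tabO, Sign.sd, Sd.cr] at h h' hv hw ⊢ <;> aesop

/-- ordered graphs without two edges at one vertex -/
theorem faithful_D1 : Faithful PIso (fun y => OD y ∧ ∀ u v w, y.2 u v = true →
    y.2 u w = true → v = w) :=
  faithful_2 (fd_dcO Sign.eq.sd false false) (inv_dcO Sign.eq.sd false false)
    (ok_dcO Sign.eq.sd false false) fun y hy => by
    refine ⟨od_of (𝒞 := fun _ _ => True) (locally_match (fun _ _ _ _ _ => trivial) hy),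
      fun u v w h3 h4 => ?_⟩
    obtain ⟨Q, _, _, o1, o2, h1, h2, e, he⟩ := hy.std
    exact e.injective (deg1 ((he true u v).1 h3) ((he true u w).1 h4))

/-- ordered graphs without two non-edges at one vertex -/
theorem faithful_D2 : Faithful PIso (fun y => OD y ∧ ∀ u v w, u ≠ v → u ≠ w →
    y.2 u v = false → y.2 u w = false → v = w) :=
  faithful_2 (fd_dcO Sign.ne.sd true true) (inv_dcO Sign.ne.sd true true)
    (ok_dcO Sign.ne.sd true true) fun y hy => by
    refine ⟨od_of (𝒞 := fun _ _ => True) (locally_match (fun _ _ _ _ _ => trivial) hy),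
      fun u v w h5 h6 h3 h4 => ?_⟩
    obtain ⟨Q, _, _, o1, o2, h1, h2, e, he⟩ := hy.std
    refine e.injective (deg2 (o1 := o1) (o2 := o2) (e.injective.ne h5) (e.injective.ne h6)
      (fun h7 => ?_) (fun h7 => ?_))
    · have h8 : y.2 u v = true := (he true u v).2 h7
      rw [h3] at h8
      cases h8
    · have h8 : y.2 u w = true := (he true u w).2 h7
      rw [h4] at h8
      cases h8

/-- one forbidden ordered graph -/
theorem faithful_H {V : Type} {lt : V → V → Prop} {G : SimpleGraph V} {a b c : V}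
    (hab : a ≠ b) (hbc : b ≠ c) (hac : a ≠ c) (hlt : IsStrictTotalOrder V lt) :
    Faithful PIso (fun y => OD y ∧ ¬ ∃ f : V → ℕ, (∀ u v, lt u v → y.1 (f u) (f v) = true) ∧
      ∀ u v, G.Adj u v ↔ y.2 (f u) (f v) = true) := by
  have inj : ∀ {y : PairStr}, OD y → ∀ f : V → ℕ, (∀ u v, lt u v → y.1 (f u) (f v) = true) →
      ∀ u v, u ≠ v → f u ≠ f v := by
    intro y hy f hf u v huv h
    have h1 := hy.1.irrefl (f u)
    by_cases h2 : lt u v
    · have h3 := hf u v h2
      rw [← h] at h3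
      exact h1 h3
    · by_cases h3 : lt v u
      · have h3 := hf v u h3
        rw [← h] at h3
        exact h1 h3
      · exact huv (hlt.trichotomous u v h2 h3)
  by_cases h : (G.Adj a b ∧ G.Adj a c) ∨ (G.Adj b a ∧ G.Adj b c) ∨ (G.Adj c a ∧ G.Adj c b)
  · refine faithful_D1.mono fun y hy => ⟨hy.1, ?_⟩
    rintro ⟨f, hf1, hf2⟩
    have hi := inj hy.1 f hf1
    rcases h with ⟨h3, h4⟩ | ⟨h3, h4⟩ | ⟨h3, h4⟩
    · exact hi b c hbc (hy.2 _ _ _ ((hf2 _ _).1 h3) ((hf2 _ _).1 h4))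
    · exact hi a c hac (hy.2 _ _ _ ((hf2 _ _).1 h3) ((hf2 _ _).1 h4))
    · exact hi a b hab (hy.2 _ _ _ ((hf2 _ _).1 h3) ((hf2 _ _).1 h4))
  · have h' : (¬ G.Adj a b ∧ ¬ G.Adj a c) ∨ (¬ G.Adj b a ∧ ¬ G.Adj b c) ∨
        (¬ G.Adj c a ∧ ¬ G.Adj c b) := by
      have e1 := G.adj_comm a b
      have e2 := G.adj_comm a c
      have e3 := G.adj_comm b c
      tauto
    refine faithful_D2.mono fun y hy => ⟨hy.1, ?_⟩
    rintro ⟨f, hf1, hf2⟩
    have hi := inj hy.1 f hf1
    have hf3 : ∀ u v, ¬ G.Adj u v → y.2 (f u) (f v) = false := fun u v h => by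
      rw [← Bool.not_eq_true, ← hf2]
      exact h
    rcases h' with ⟨h3, h4⟩ | ⟨h3, h4⟩ | ⟨h3, h4⟩
    · exact hi b c hbc (hy.2 _ _ _ (hi _ _ hab) (hi _ _ hac) (hf3 _ _ h3) (hf3 _ _ h4))
    · exact hi a c hac (hy.2 _ _ _ (hi _ _ hab.symm) (hi _ _ hbc) (hf3 _ _ h3) (hf3 _ _ h4))
    · exact hi a b hab (hy.2 _ _ _ (hi _ _ hac.symm) (hi _ _ hbc.symm) (hf3 _ _ h3)
        (hf3 _ _ h4))

/-! Rational numbers -/

/-- conjugation by order automorphisms -/
def RIso (G H : ℚ → ℚ → Bool) : Prop := ∃ φ : ℚ ≃o ℚ, ∀ p q, H (φ p) (φ q) = G p q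

theorem RIso.symm {G H : ℚ → ℚ → Bool} (h : RIso G H) : RIso H G := by
  obtain ⟨φ, h⟩ := h
  refine ⟨φ.symm, fun p q => ?_⟩
  rw [← h, φ.apply_symm_apply, φ.apply_symm_apply]

/-- the pair of a graph on the rational numbers -/
noncomputable def tq (G : ℚ → ℚ → Bool) : PairStr :=
  (fun u v => decide (en u < en v), fun u v => G (en u) (en v))

theorem tq1 (G : ℚ → ℚ → Bool) (u v : ℕ) : (tq G).1 u v = true ↔ en u < en v := by
  simp [tq]

theorem measurable_tq : Measurable tq := by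
  refine Measurable.prodMk measurable_const ?_
  refine measurable_pi_iff.2 fun u => measurable_pi_iff.2 fun v => ?_
  exact (measurable_pi_apply (en v)).comp (measurable_pi_apply (en u))

theorem tq_iso (G H : ℚ → ℚ → Bool) : RIso G H ↔ PIso (tq G) (tq H) := by
  constructor
  · rintro ⟨φ, h⟩
    refine ⟨(en.trans φ.toEquiv).trans en.symm, fun m n => ⟨?_, ?_⟩⟩
    · rw [Bool.eq_iff_iff, tq1, tq1]
      simp
    · show H (en (en.symm (φ (en m)))) (en (en.symm (φ (en n)))) = G (en m) (en n)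
      rw [Equiv.apply_symm_apply, Equiv.apply_symm_apply, h]
  · rintro ⟨σ, h⟩
    let ψ : ℚ ≃ ℚ := (en.symm.trans σ).trans en
    have hψ : ∀ p q, ψ p ≤ ψ q ↔ p ≤ q := by
      intro p q
      have h1 := (h (en.symm q) (en.symm p)).1
      rw [Bool.eq_iff_iff, tq1, tq1, Equiv.apply_symm_apply, Equiv.apply_symm_apply] at h1
      exact not_lt.symm.trans ((not_congr h1).trans not_lt)
    refine ⟨⟨ψ, fun {p q} => hψ p q⟩, fun p q => ?_⟩
    have h1 := (h (en.symm p) (en.symm q)).2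
    show H (en (σ (en.symm p))) (en (σ (en.symm q))) = G p q
    have h2 : (tq G).2 (en.symm p) (en.symm q) = G p q := by
      show G (en (en.symm p)) (en (en.symm q)) = G p q
      rw [Equiv.apply_symm_apply, Equiv.apply_symm_apply]
    rw [← h2, ← h1]
    rfl

theorem dlo_rat : DLO (fun p q : ℚ => p < q) :=
  ⟨fun a => lt_irrefl a, fun _ _ _ => lt_trans, fun _ _ => lt_or_gt_of_ne, fun _ _ h =>
    exists_between h, fun a => ⟨a + 1, lt_add_one a⟩, fun a => ⟨a - 1, sub_one_lt a⟩⟩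

theorem ex_rat (x : PairStr) (hA : DLO (fun u v => x.1 u v = true)) : ∃ G, PIso (tq G) x := by
  obtain ⟨e, he, -⟩ := shuffle_unique (A := ℕ) (B := ℚ) (Q := Unit)
    (fun u v => x.1 u v = true) (fun p q : ℚ => p < q) hA dlo_rat (fun _ => ()) (fun _ => ())
    (fun _ a1 a2 ha => by
      obtain ⟨c, h1, h2⟩ := hA.dense a1 a2 ha
      exact ⟨c, h1, h2, rfl⟩)
    (fun _ a1 a2 ha => by
      obtain ⟨c, h1, h2⟩ := dlo_rat.dense a1 a2 ha
      exact ⟨c, h1, h2, rfl⟩)
    (fun _ => ⟨0, rfl⟩) (fun _ => ⟨0, rfl⟩)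
  refine ⟨fun p q => x.2 (e.symm p) (e.symm q), en.trans e.symm, fun m n => ⟨?_, rfl⟩⟩
  rw [Bool.eq_iff_iff, tq1]
  refine (he _ _).trans ?_
  simp

/-- transfer to the rational numbers -/
theorem faithful_rat {K : PairStr → Prop} (hF : Faithful PIso K)
    (hK : ∀ y, K y → DLO (fun u v => y.1 u v = true)) : Faithful RIso (fun G => K (tq G)) := by
  intro a B hB hinv
  obtain ⟨B', F, k1, k2, k3, k4, k5, k6, k7⟩ := hF a B hB hinv
  refine ⟨{G | tq G ∈ B'}, fun G => F (tq G), measurable_tq k1,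
    fun G H h => k2 _ _ ((tq_iso G H).1 h), fun G hG => k3 _ hG, k4.comp measurable_tq,
    fun G hG => k5 _ hG, fun G hG H hH => ?_, fun x hx => ?_⟩
  · rw [← k6 _ hG _ hH]
    exact tq_iso G H
  · obtain ⟨y, h3, h4⟩ := k7 x hx
    obtain ⟨G, hG⟩ := ex_rat y (hK y (k3 y h3))
    have h7 : tq G ∈ B' := (k2 _ _ hG).2 h3
    exact ⟨G, h7, h4.trans ((k6 _ h3 _ h7).1 hG.symm)⟩

/-- graphs on the rational numbers locally in the class -/
theorem faithful_RC {𝒞 : (n : ℕ) → SimpleGraph (Fin n) → Prop} (h : HasPatterns 𝒞) :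
    Faithful RIso (fun G => ∃ H : SimpleGraph ℚ, (∀ p q, H.Adj p q ↔ G p q = true) ∧
      Contains 𝒞 (· < ·) H) := by
  refine (faithful_rat (faithful_C h) fun y hy => hy.1).mono fun G hG => ?_
  obtain ⟨-, -, H, h2, h3⟩ := hG
  refine ⟨H.comap en.symm, fun p q => ?_, fun n f hf => ?_⟩
  · show H.Adj (en.symm p) (en.symm q) ↔ _
    rw [h2]
    show G (en (en.symm p)) (en (en.symm q)) = true ↔ _
    rw [Equiv.apply_symm_apply, Equiv.apply_symm_apply]
  · have h4 := h3 n (fun i => en.symm (f i)) fun i j hij => by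
      show (tq G).1 _ _ = true
      rw [tq1, Equiv.apply_symm_apply, Equiv.apply_symm_apply]
      exact hf i j hij
    exact h4

/-- graphs on the rational numbers without a given ordered subgraph -/
theorem faithful_RH {V : Type} {lt : V → V → Prop} {G : SimpleGraph V} {a b c : V}
    (hab : a ≠ b) (hbc : b ≠ c) (hac : a ≠ c) (hlt : IsStrictTotalOrder V lt) :
    Faithful RIso (fun y => (∀ p q, y p q = true → y q p = true) ∧ (∀ p, y p p = false) ∧
      ¬ ∃ f : V → ℚ, (∀ u v, lt u v → f u < f v) ∧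
      ∀ u v, G.Adj u v ↔ y (f u) (f v) = true) := by
  refine (faithful_rat (faithful_H (G := G) hab hbc hac hlt) fun y hy => hy.1.1).mono
    fun y hy => ?_
  obtain ⟨⟨-, h2, h3⟩, h4⟩ := hy
  refine ⟨fun p q h => ?_, fun p => ?_, ?_⟩
  · have h5 := h2 (en.symm p) (en.symm q)
    change y (en (en.symm p)) (en (en.symm q)) = true → y (en (en.symm q)) (en (en.symm p)) = true
      at h5
    rw [Equiv.apply_symm_apply, Equiv.apply_symm_apply] at h5
    exact h5 h
  · have h5 := h3 (en.symm p)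
    change y (en (en.symm p)) (en (en.symm p)) = false at h5
    rwa [Equiv.apply_symm_apply] at h5
  · rintro ⟨f, hf1, hf2⟩
    refine h4 ⟨fun u => en.symm (f u), fun u v huv => ?_, fun u v => ?_⟩
    · rw [tq1, Equiv.apply_symm_apply, Equiv.apply_symm_apply]
      exact hf1 u v huv
    · rw [hf2]
      show _ ↔ y (en (en.symm (f u))) (en (en.symm (f v))) = true
      rw [Equiv.apply_symm_apply, Equiv.apply_symm_apply]

end Pool.Agent.TH783.OT.D
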