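import Pool.Agent.TH783.MD.Bor

set_option autoImplicit false

/-! Structures over pairs of dense linear orders: two copies of the points, two special elements. -/

namespace Pool.Agent.TH783.OT

open Pool.Agent.W889.VC (DLO)
open Pool.Agent.TH783.MD (dlo_map infinite_of_dlo)

/-- two copies of the points and two special elements -/
inductive Tk (Q : Type)
  | p (k : Bool) (q : Q)
  | s (i : Bool)

/-- tables -/
structure Tab (J : Type) where
  pp : J → Bool → Bool → Prop → Prop → Prop → Prop → Prop → Prop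
  ps : J → Bool → Bool → Prop
  sp : J → Bool → Bool → Prop
  ss : J → Bool → Bool → Prop

/-- the structure given by a table -/
def Tab.SY {J : Type} (t : Tab J) {Q : Type} (o1 o2 : Q → Q → Prop) (j : J) :
    Tk Q → Tk Q → Prop
  | .p k x, .p k' y => t.pp j k k' (o1 x y) (o1 y x) (o2 x y) (o2 y x) (x = y)
  | .p k _, .s i => t.ps j k i
  | .s i, .p k _ => t.sp j i k
  | .s i, .s i' => t.ss j i i'

/-- decoders -/
structure Dc (J : Type) where
  dm : ∀ {T : Type}, (J → T → T → Prop) → T → Prop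
  o1 : ∀ {T : Type}, (J → T → T → Prop) → T → T → Prop
  o2 : ∀ {T : Type}, (J → T → T → Prop) → T → T → Prop
  at' : ∀ {T : Type}, (J → T → T → Prop) → Bool → T → T → Prop
  sp : ∀ {T : Type}, (J → T → T → Prop) → Bool → T → Prop

variable {J : Type}

/-- invariance -/
structure Dc.Inv (d : Dc J) : Prop where
  dm : ∀ {T S : Type} (e : T ≃ S) {X : J → T → T → Prop} {Y : J → S → S → Prop},
    (∀ j u v, X j u v ↔ Y j (e u) (e v)) → ∀ u, d.dm X u ↔ d.dm Y (e u)
  o1 : ∀ {T S : Type} (e : T ≃ S) {X : J → T → T → Prop} {Y : J → S → S → Prop},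
    (∀ j u v, X j u v ↔ Y j (e u) (e v)) → ∀ u v, d.o1 X u v ↔ d.o1 Y (e u) (e v)
  o2 : ∀ {T S : Type} (e : T ≃ S) {X : J → T → T → Prop} {Y : J → S → S → Prop},
    (∀ j u v, X j u v ↔ Y j (e u) (e v)) → ∀ u v, d.o2 X u v ↔ d.o2 Y (e u) (e v)
  at' : ∀ {T S : Type} (e : T ≃ S) {X : J → T → T → Prop} {Y : J → S → S → Prop},
    (∀ j u v, X j u v ↔ Y j (e u) (e v)) → ∀ k u v, d.at' X k u v ↔ d.at' Y k (e u) (e v)
  sp : ∀ {T S : Type} (e : T ≃ S) {X : J → T → T → Prop} {Y : J → S → S → Prop},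
    (∀ j u v, X j u v ↔ Y j (e u) (e v)) → ∀ k u, d.sp X k u ↔ d.sp Y k (e u)

/-- correctness -/
structure Dc.Ok (d : Dc J) (t : Tab J) : Prop where
  dm : ∀ {Q : Type} [Nonempty Q] {o1 o2 : Q → Q → Prop}, DLO o1 → DLO o2 →
    ∀ u, d.dm (t.SY o1 o2) u ↔ ∃ q, u = .p false q
  o1 : ∀ {Q : Type} [Nonempty Q] {o1 o2 : Q → Q → Prop}, DLO o1 → DLO o2 →
    ∀ x y, d.o1 (t.SY o1 o2) (.p false x) (.p false y) ↔ o1 x y
  o2 : ∀ {Q : Type} [Nonempty Q] {o1 o2 : Q → Q → Prop}, DLO o1 → DLO o2 →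
    ∀ x y, d.o2 (t.SY o1 o2) (.p false x) (.p false y) ↔ o2 x y
  at' : ∀ {Q : Type} [Nonempty Q] {o1 o2 : Q → Q → Prop}, DLO o1 → DLO o2 →
    ∀ k u x, d.at' (t.SY o1 o2) k u x ↔ ∃ q, x = .p false q ∧ u = .p k q
  sp : ∀ {Q : Type} [Nonempty Q] {o1 o2 : Q → Q → Prop}, DLO o1 → DLO o2 →
    ∀ i u, d.sp (t.SY o1 o2) i u ↔ u = .s i

/-- the axioms -/
structure W {T : Type} (t : Tab J) (d : Dc J) (X : J → T → T → Prop) : Prop where
  d1 : DLO (fun x y : {x // d.dm X x} => d.o1 X x y)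
  d2 : DLO (fun x y : {x // d.dm X x} => d.o2 X x y)
  inf : ∀ m : ℕ, ∃ x : Fin m → T, Function.Injective x ∧ ∀ i, d.dm X (x i)
  ad : ∀ k u x, d.at' X k u x → d.dm X x
  ex : ∀ k x, d.dm X x → ∃ u, d.at' X k u x
  uq : ∀ k x u u', d.at' X k u x → d.at' X k u' x → u = u'
  ij : ∀ k k' u x x', d.at' X k u x → d.at' X k' u x' → k = k' ∧ x = x'
  sx : ∀ i, ∃ u, d.sp X i u
  su : ∀ i u u', d.sp X i u → d.sp X i u' → u = u'
  si : ∀ i i' u, d.sp X i u → d.sp X i' u → i = i'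
  dj : ∀ k i u x, d.at' X k u x → ¬ d.sp X i u
  cov : ∀ u, (∃ k x, d.at' X k u x) ∨ ∃ i, d.sp X i u
  pp : ∀ j k k' u u' x x', d.at' X k u x → d.at' X k' u' x' →
    (X j u u' ↔ t.pp j k k' (d.o1 X x x') (d.o1 X x' x) (d.o2 X x x') (d.o2 X x' x) (x = x'))
  ps : ∀ j k i u v x, d.at' X k u x → d.sp X i v → (X j u v ↔ t.ps j k i)
  sp : ∀ j i k u v x, d.sp X i u → d.at' X k v x → (X j u v ↔ t.sp j i k)
  ss : ∀ j i i' u v, d.sp X i u → d.sp X i' v → (X j u v ↔ t.ss j i i')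

variable {t : Tab J} {d : Dc J}

theorem W.pt {T : Type} {X : J → T → T → Prop} (h : W t d X) : ∃ x, d.dm X x := by
  obtain ⟨x, -, h2⟩ := h.inf 1
  exact ⟨x 0, h2 0⟩

/-- the standard structure satisfies the axioms -/
theorem w_std (hok : d.Ok t) {Q : Type} [Nonempty Q] {o1 o2 : Q → Q → Prop} (h1 : DLO o1)
    (h2 : DLO o2) : W t d (t.SY o1 o2) := by
  have hQ : Infinite Q := infinite_of_dlo h1
  obtain ⟨e, he⟩ : ∃ e : Q ≃ {x : Tk Q // d.dm (t.SY o1 o2) x},
      ∀ q, (e q : Tk Q) = .p false q := by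
    refine ⟨Equiv.ofBijective (fun q => ⟨.p false q, (hok.dm h1 h2 _).2 ⟨q, rfl⟩⟩) ⟨?_, ?_⟩,
      fun q => rfl⟩
    · intro q q' h
      simpa using congrArg Subtype.val h
    · rintro ⟨x, hx⟩
      obtain ⟨q, rfl⟩ := (hok.dm h1 h2 _).1 hx
      exact ⟨q, rfl⟩
  constructor
  case d1 =>
    refine dlo_map e (fun x y => ?_) h1
    rw [he, he, hok.o1 h1 h2]
  case d2 =>
    refine dlo_map e (fun x y => ?_) h2
    rw [he, he, hok.o2 h1 h2]
  case inf =>
    intro m
    let g := Infinite.natEmbedding Q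
    refine ⟨fun i => .p false (g i), fun i j hij => Fin.ext (g.injective (by simpa using hij)),
      fun i => (hok.dm h1 h2 _).2 ⟨_, rfl⟩⟩
  case ad =>
    intro k u x h
    obtain ⟨q, rfl, rfl⟩ := (hok.at' h1 h2 _ _ _).1 h
    exact (hok.dm h1 h2 _).2 ⟨_, rfl⟩
  case ex =>
    intro k x h
    obtain ⟨q, rfl⟩ := (hok.dm h1 h2 _).1 h
    exact ⟨_, (hok.at' h1 h2 _ _ _).2 ⟨q, rfl, rfl⟩⟩
  case uq =>
    intro k x u u' h h'
    obtain ⟨q, rfl, rfl⟩ := (hok.at' h1 h2 _ _ _).1 h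
    obtain ⟨q', h3, rfl⟩ := (hok.at' h1 h2 _ _ _).1 h'
    simp only [Tk.p.injEq] at h3
    rw [h3.2]
  case ij =>
    intro k k' u x x' h h'
    obtain ⟨q, rfl, rfl⟩ := (hok.at' h1 h2 _ _ _).1 h
    obtain ⟨q', rfl, h3⟩ := (hok.at' h1 h2 _ _ _).1 h'
    simp only [Tk.p.injEq] at h3
    exact ⟨h3.1, by rw [h3.2]⟩
  case sx => exact fun i => ⟨.s i, (hok.sp h1 h2 _ _).2 rfl⟩
  case su =>
    intro i u u' h h'
    rw [hok.sp h1 h2] at h h'
    rw [h, h']
  case si =>
    intro i i' u h h'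
    rw [hok.sp h1 h2] at h h'
    rw [h] at h'
    simpa using h'
  case dj =>
    intro k i u x h h'
    obtain ⟨q, rfl, rfl⟩ := (hok.at' h1 h2 _ _ _).1 h
    rw [hok.sp h1 h2] at h'
    cases h'
  case cov =>
    rintro (⟨k, q⟩ | i)
    · exact Or.inl ⟨k, _, (hok.at' h1 h2 _ _ _).2 ⟨q, rfl, rfl⟩⟩
    · exact Or.inr ⟨i, (hok.sp h1 h2 _ _).2 rfl⟩
  case pp =>
    intro j k k' u u' x x' h h'
    obtain ⟨q, rfl, rfl⟩ := (hok.at' h1 h2 _ _ _).1 h
    obtain ⟨q', rfl, rfl⟩ := (hok.at' h1 h2 _ _ _).1 h'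
    rw [hok.o1 h1 h2, hok.o1 h1 h2, hok.o2 h1 h2, hok.o2 h1 h2]
    have e3 : ((.p false q : Tk Q) = .p false q') = (q = q') := by simp
    rw [e3]
    exact Iff.rfl
  case ps =>
    intro j k i u v x h h'
    obtain ⟨q, rfl, rfl⟩ := (hok.at' h1 h2 _ _ _).1 h
    obtain rfl := (hok.sp h1 h2 _ _).1 h'
    exact Iff.rfl
  case sp =>
    intro j i k u v x h h'
    obtain ⟨q, rfl, rfl⟩ := (hok.at' h1 h2 _ _ _).1 h'
    obtain rfl := (hok.sp h1 h2 _ _).1 h
    exact Iff.rfl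
  case ss =>
    intro j i i' u v h h'
    obtain rfl := (hok.sp h1 h2 _ _).1 h
    obtain rfl := (hok.sp h1 h2 _ _).1 h'
    exact Iff.rfl

/-- invariance of the axioms -/
theorem W.map (hi : d.Inv) {T S : Type} (e : T ≃ S) {X : J → T → T → Prop}
    {Y : J → S → S → Prop} (h : ∀ j u v, X j u v ↔ Y j (e u) (e v)) (hX : W t d X) :
    W t d Y := by
  have hD : ∃ E : {x // d.dm X x} ≃ {x // d.dm Y x}, ∀ x, (E x : S) = e x :=
    ⟨e.subtypeEquiv fun x => hi.dm e h x, fun x => rfl⟩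
  obtain ⟨E, hE⟩ := hD
  constructor
  case d1 =>
    refine dlo_map E (fun x y => ?_) hX.d1
    rw [hE, hE]
    exact hi.o1 e h _ _
  case d2 =>
    refine dlo_map E (fun x y => ?_) hX.d2
    rw [hE, hE]
    exact hi.o2 e h _ _
  case inf =>
    intro m
    obtain ⟨x, h1, h2⟩ := hX.inf m
    exact ⟨fun i => e (x i), e.injective.comp h1, fun i => (hi.dm e h _).1 (h2 i)⟩
  case ad =>
    intro k
    have := hX.ad k
    simpa only [hi.dm e h, e.surjective.forall, hi.at' e h] using this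
  case ex =>
    intro k
    have := hX.ex k
    simpa only [hi.dm e h, e.surjective.forall, e.surjective.exists, hi.at' e h] using this
  case uq =>
    intro k
    have := hX.uq k
    simpa only [e.surjective.forall, hi.at' e h, e.injective.eq_iff] using this
  case ij =>
    intro k k'
    have := hX.ij k k'
    simpa only [e.surjective.forall, hi.at' e h, e.injective.eq_iff] using this
  case sx =>
    intro i
    have := hX.sx i
    simpa only [e.surjective.exists, hi.sp e h] using this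
  case su =>
    intro i
    have := hX.su i
    simpa only [e.surjective.forall, hi.sp e h, e.injective.eq_iff] using this
  case si =>
    intro i i'
    have := hX.si i i'
    simpa only [e.surjective.forall, hi.sp e h] using this
  case dj =>
    intro k i
    have := hX.dj k i
    simpa only [e.surjective.forall, hi.at' e h, hi.sp e h] using this
  case cov =>
    have := hX.cov
    simpa only [e.surjective.forall, e.surjective.exists, hi.at' e h, hi.sp e h] using this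
  case pp =>
    intro j k k' u u' x x' hu hu'
    obtain ⟨u, rfl⟩ := e.surjective u
    obtain ⟨u', rfl⟩ := e.surjective u'
    obtain ⟨x, rfl⟩ := e.surjective x
    obtain ⟨x', rfl⟩ := e.surjective x'
    rw [← hi.at' e h] at hu hu'
    rw [← h, hX.pp j k k' u u' x x' hu hu', hi.o1 e h, hi.o1 e h, hi.o2 e h, hi.o2 e h,
      e.injective.eq_iff]
  case ps =>
    intro j k i
    have := hX.ps j k i
    simpa only [e.surjective.forall, hi.at' e h, hi.sp e h, h] using this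
  case sp =>
    intro j i k
    have := hX.sp j i k
    simpa only [e.surjective.forall, hi.at' e h, hi.sp e h, h] using this
  case ss =>
    intro j i i'
    have := hX.ss j i i'
    simpa only [e.surjective.forall, hi.sp e h, h] using this

theorem sy_sub {T : Type} {P : T → Prop} {o1 o2 : T → T → Prop} {j : J} {k k' : Bool}
    {q q' : {x // P x}} :
    t.SY (fun x y : {x // P x} => o1 x y) (fun x y : {x // P x} => o2 x y) j (.p k q) (.p k' q')
      ↔ t.pp j k k' (o1 q q') (o1 q' q) (o2 q q') (o2 q' q) ((q : T) = q') := by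
  show t.pp j k k' (o1 q q') (o1 q' q) (o2 q q') (o2 q' q) (q = q') ↔ _
  rw [Subtype.ext_iff]

/-- the representation -/
theorem W.rep {X : J → ℕ → ℕ → Prop} (h : W t d X) : ∃ e : Tk {x // d.dm X x} ≃ ℕ,
    ∀ j u v, t.SY (fun x y : {x // d.dm X x} => d.o1 X x y)
      (fun x y : {x // d.dm X x} => d.o2 X x y) j u v ↔ X j (e u) (e v) := by
  classical
  choose g hg using fun (k : Bool) (x : {x // d.dm X x}) => h.ex k x x.2
  choose w hw using h.sx
  let E : Tk {x // d.dm X x} → ℕ := fun u => match u with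
    | .p k q => g k q
    | .s i => w i
  have hinj : Function.Injective E := by
    rintro (⟨k, q⟩ | i) (⟨k', q'⟩ | j) huv
    · have huv : g k q = g k' q' := huv
      obtain ⟨h1, h2⟩ := h.ij k k' _ _ _ (hg k q) (huv ▸ hg k' q')
      rw [h1, Subtype.ext h2]
    · have huv : g k q = w j := huv
      exact (h.dj k j _ _ (hg k q) (huv ▸ hw j)).elim
    · have huv : w i = g k' q' := huv
      exact (h.dj k' i _ _ (hg k' q') (huv ▸ hw i)).elim
    · have huv : w i = w j := huv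
      rw [h.si i j (w i) (hw i) (huv ▸ hw j)]
  have hsurj : Function.Surjective E := by
    intro u
    rcases h.cov u with ⟨k, x, h1⟩ | ⟨i, h1⟩
    · exact ⟨.p k ⟨x, h.ad k u x h1⟩, h.uq k x _ _ (hg k ⟨x, h.ad k u x h1⟩) h1⟩
    · exact ⟨.s i, h.su i _ _ (hw i) h1⟩
  refine ⟨Equiv.ofBijective E ⟨hinj, hsurj⟩, fun j => ?_⟩
  rintro (⟨k, q⟩ | i) (⟨k', q'⟩ | i')
  · show _ ↔ X j (g k q) (g k' q')
    rw [h.pp j k k' _ _ _ _ (hg k q) (hg k' q')]
    exact sy_sub
  · show _ ↔ X j (g k q) (w i')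
    rw [h.ps j k i' _ _ _ (hg k q) (hw i')]
    exact Iff.rfl
  · show _ ↔ X j (w i) (g k' q')
    rw [h.sp j i k' _ _ _ (hw i) (hg k' q')]
    exact Iff.rfl
  · show _ ↔ X j (w i) (w i')
    rw [h.ss j i i' _ _ (hw i) (hw i')]
    exact Iff.rfl

/-- places over equivalent sets of points -/
def Tk.map {Q Q' : Type} (π : Q ≃ Q') : Tk Q ≃ Tk Q' where
  toFun u := match u with
    | .p k q => .p k (π q)
    | .s i => .s i
  invFun u := match u with
    | .p k q => .p k (π.symm q)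
    | .s i => .s i
  left_inv := by
    rintro (⟨k, q⟩ | i)
    · show Tk.p k (π.symm (π q)) = _
      rw [π.symm_apply_apply]
    · rfl
  right_inv := by
    rintro (⟨k, q⟩ | i)
    · show Tk.p k (π (π.symm q)) = _
      rw [π.apply_symm_apply]
    · rfl

theorem sy_tkmap {Q Q' : Type} (π : Q ≃ Q') {o1 o2 : Q → Q → Prop}
    {o1' o2' : Q' → Q' → Prop} (h1 : ∀ x y, o1 x y ↔ o1' (π x) (π y))
    (h2 : ∀ x y, o2 x y ↔ o2' (π x) (π y)) (j : J) (u v : Tk Q) :
    t.SY o1 o2 j u v ↔ t.SY o1' o2' j (Tk.map π u) (Tk.map π v) := by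
  rcases u with ⟨k, q⟩ | i <;> rcases v with ⟨k', q'⟩ | i' <;> try exact Iff.rfl
  show t.pp j k k' _ _ _ _ _ ↔ t.pp j k k' (o1' (π q) (π q')) (o1' (π q') (π q))
    (o2' (π q) (π q')) (o2' (π q') (π q)) (π q = π q')
  rw [h1, h1, h2, h2, π.injective.eq_iff]

/-- the pair of orders determines the structure -/
theorem W.ext {X X' : J → ℕ → ℕ → Prop} (h : W t d X) (h' : W t d X')
    (π : {x // d.dm X x} ≃ {x // d.dm X' x})
    (h1 : ∀ x y : {x // d.dm X x}, d.o1 X x y ↔ d.o1 X' (π x) (π y))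
    (h2 : ∀ x y : {x // d.dm X x}, d.o2 X x y ↔ d.o2 X' (π x) (π y)) :
    ∃ e : ℕ ≃ ℕ, ∀ j u v, X j u v ↔ X' j (e u) (e v) := by
  obtain ⟨e, h3⟩ := h.rep
  obtain ⟨e', h3'⟩ := h'.rep
  refine ⟨(e.symm.trans (Tk.map π)).trans e', fun j u v => ?_⟩
  obtain ⟨u, rfl⟩ := e.surjective u
  obtain ⟨v, rfl⟩ := e.surjective v
  rw [← h3]
  show _ ↔ X' j (e' (Tk.map π (e.symm (e u)))) (e' (Tk.map π (e.symm (e v))))
  rw [← h3', e.symm_apply_apply, e.symm_apply_apply]
  exact sy_tkmap π h1 h2 j u v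

instance (Q : Type) [Countable Q] : Countable (Tk Q) := by
  have : Function.Surjective (fun x : (Bool × Q) ⊕ Bool => (match x with
      | .inl (k, q) => Tk.p k q
      | .inr i => Tk.s i : Tk Q)) := by
    rintro (⟨k, q⟩ | i)
    · exact ⟨.inl (k, q), rfl⟩
    · exact ⟨.inr i, rfl⟩
  exact this.countable

instance (Q : Type) [Infinite Q] : Infinite (Tk Q) :=
  Infinite.of_injective (fun q : Q => (Tk.p false q : Tk Q)) fun m n h => by simpa using h

end Pool.Agent.TH783.OT
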