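import Pool.Agent.TH783.OT.Bor

set_option autoImplicit false

/-! Structures over pairs of dense linear orders: two copies of the points. -/

namespace Pool.Agent.TH783.OT.D

open Pool.Agent.W889.VC (DLO)
open Pool.Agent.TH783.MD (dlo_map infinite_of_dlo)

/-- tables -/
abbrev Tab (J : Type) : Type := J → Bool → Bool → Prop → Prop → Prop → Prop → Prop → Prop

/-- the structure given by a table -/
def SY {J : Type} (t : Tab J) {Q : Type} (o1 o2 : Q → Q → Prop) (j : J) (u v : Bool × Q) : Prop :=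
  t j u.1 v.1 (o1 u.2 v.2) (o1 v.2 u.2) (o2 u.2 v.2) (o2 v.2 u.2) (u.2 = v.2)

/-- decoders -/
structure Dc (J : Type) where
  dm : ∀ {T : Type}, (J → T → T → Prop) → T → Prop
  o1 : ∀ {T : Type}, (J → T → T → Prop) → T → T → Prop
  o2 : ∀ {T : Type}, (J → T → T → Prop) → T → T → Prop
  at' : ∀ {T : Type}, (J → T → T → Prop) → Bool → T → T → Prop

variable {J : Type}

/-- invariance -/
structure Dc.Inv (d : Dc J) : Prop where
  dm : ∀ {T S : Type} (e : T ≃ S) {X : J → T → T → Prop} {Y : J → S → S → Prop},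
    (∀ j u v, X j u v ↔ Y j (e u) (e v)) → ∀ u, d.dm X u ↔ d.dm Y (e u)
  o1 : ∀ {T S : Type} (e : T ≃ S) {X : J → T → T → Prop} {Y : J → S → S → Prop},
    (∀ j u v, X j u v ↔ Y j (e u) (e v)) → ∀ u v, d.o1 X u v ↔ d.o1 Y (e u) (e v)
  o2 : ∀ {T S : Type} (e : T ≃ S) {X : J → T → T → Prop} {Y : J → S → S → Prop},
    (∀ j u v, X j u v ↔ Y j (e u) (e v)) → ∀ u v, d.o2 X u v ↔ d.o2 Y (e u) (e v)
  at' : ∀ {T S : Type} (e : T ≃ S) {X : J → T → T → Prop} {Y : J → S → S → Prop},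
    (∀ j u v, X j u v ↔ Y j (e u) (e v)) → ∀ k u v, d.at' X k u v ↔ d.at' Y k (e u) (e v)

/-- correctness -/
structure Dc.Ok (d : Dc J) (t : Tab J) : Prop where
  dm : ∀ {Q : Type} {o1 o2 : Q → Q → Prop}, DLO o1 → DLO o2 →
    ∀ u, d.dm (SY t o1 o2) u ↔ ∃ q, u = (false, q)
  o1 : ∀ {Q : Type} {o1 o2 : Q → Q → Prop}, DLO o1 → DLO o2 →
    ∀ x y, d.o1 (SY t o1 o2) (false, x) (false, y) ↔ o1 x y
  o2 : ∀ {Q : Type} {o1 o2 : Q → Q → Prop}, DLO o1 → DLO o2 →
    ∀ x y, d.o2 (SY t o1 o2) (false, x) (false, y) ↔ o2 x y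
  at' : ∀ {Q : Type} {o1 o2 : Q → Q → Prop}, DLO o1 → DLO o2 →
    ∀ k u x, d.at' (SY t o1 o2) k u x ↔ ∃ q, x = (false, q) ∧ u = (k, q)

/-- the axioms -/
structure W {T : Type} (t : Tab J) (d : Dc J) (X : J → T → T → Prop) : Prop where
  d1 : DLO (fun x y : {x // d.dm X x} => d.o1 X x y)
  d2 : DLO (fun x y : {x // d.dm X x} => d.o2 X x y)
  inf : ∀ m : ℕ, ∃ x : Fin m → T, Function.Injective x ∧ ∀ i, d.dm X (x i)
  ad : ∀ k u x, d.at' X k u x → d.dm X x
  ex : ∀ k x, d.dm X x → ∃ u, d.at' X k u x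
  uq : ∀ k x u u', d.at' X k u x → d.at' X k u' x → u = u'
  ij : ∀ k k' u x x', d.at' X k u x → d.at' X k' u x' → k = k' ∧ x = x'
  cov : ∀ u, ∃ k x, d.at' X k u x
  pp : ∀ j k k' u u' x x', d.at' X k u x → d.at' X k' u' x' →
    (X j u u' ↔ t j k k' (d.o1 X x x') (d.o1 X x' x) (d.o2 X x x') (d.o2 X x' x) (x = x'))

variable {t : Tab J} {d : Dc J}

theorem W.pt {T : Type} {X : J → T → T → Prop} (h : W t d X) : ∃ x, d.dm X x := by
  obtain ⟨x, -, h2⟩ := h.inf 1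
  exact ⟨x 0, h2 0⟩

/-- the standard structure satisfies the axioms -/
theorem w_std (hok : d.Ok t) {Q : Type} [Nonempty Q] {o1 o2 : Q → Q → Prop} (h1 : DLO o1)
    (h2 : DLO o2) : W t d (SY t o1 o2) := by
  have hQ : Infinite Q := infinite_of_dlo h1
  obtain ⟨e, he⟩ : ∃ e : Q ≃ {x : Bool × Q // d.dm (SY t o1 o2) x},
      ∀ q, (e q : Bool × Q) = (false, q) := by
    refine ⟨Equiv.ofBijective (fun q => ⟨(false, q), (hok.dm h1 h2 _).2 ⟨q, rfl⟩⟩) ⟨?_, ?_⟩,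
      fun q => rfl⟩
    · intro q q' h
      simpa using congrArg Subtype.val h
    · rintro ⟨x, hx⟩
      obtain ⟨q, rfl⟩ := (hok.dm h1 h2 _).1 hx
      exact ⟨q, rfl⟩
  constructor
  case d1 =>
    refine dlo_map e (fun x y => ?_) h1
    rw [he, he, hok.o1 h1 h2]
  case d2 =>
    refine dlo_map e (fun x y => ?_) h2
    rw [he, he, hok.o2 h1 h2]
  case inf =>
    intro m
    let g := Infinite.natEmbedding Q
    refine ⟨fun i => (false, g i), fun i j hij => Fin.ext (g.injective (by simpa using hij)),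
      fun i => (hok.dm h1 h2 _).2 ⟨_, rfl⟩⟩
  case ad =>
    intro k u x h
    obtain ⟨q, rfl, rfl⟩ := (hok.at' h1 h2 _ _ _).1 h
    exact (hok.dm h1 h2 _).2 ⟨_, rfl⟩
  case ex =>
    intro k x h
    obtain ⟨q, rfl⟩ := (hok.dm h1 h2 _).1 h
    exact ⟨_, (hok.at' h1 h2 _ _ _).2 ⟨q, rfl, rfl⟩⟩
  case uq =>
    intro k x u u' h h'
    obtain ⟨q, rfl, rfl⟩ := (hok.at' h1 h2 _ _ _).1 h
    obtain ⟨q', h3, rfl⟩ := (hok.at' h1 h2 _ _ _).1 h'
    simp only [Prod.mk.injEq] at h3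
    rw [h3.2]
  case ij =>
    intro k k' u x x' h h'
    obtain ⟨q, rfl, rfl⟩ := (hok.at' h1 h2 _ _ _).1 h
    obtain ⟨q', rfl, h3⟩ := (hok.at' h1 h2 _ _ _).1 h'
    simp only [Prod.mk.injEq] at h3
    exact ⟨h3.1, by rw [h3.2]⟩
  case cov => exact fun u => ⟨u.1, _, (hok.at' h1 h2 _ _ _).2 ⟨u.2, rfl, rfl⟩⟩
  case pp =>
    intro j k k' u u' x x' h h'
    obtain ⟨q, rfl, rfl⟩ := (hok.at' h1 h2 _ _ _).1 h
    obtain ⟨q', rfl, rfl⟩ := (hok.at' h1 h2 _ _ _).1 h'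
    rw [hok.o1 h1 h2, hok.o1 h1 h2, hok.o2 h1 h2, hok.o2 h1 h2]
    have e3 : (((false, q) : Bool × Q) = (false, q')) = (q = q') := by simp
    rw [e3]
    exact Iff.rfl

/-- invariance of the axioms -/
theorem W.map (hi : d.Inv) {T S : Type} (e : T ≃ S) {X : J → T → T → Prop}
    {Y : J → S → S → Prop} (h : ∀ j u v, X j u v ↔ Y j (e u) (e v)) (hX : W t d X) :
    W t d Y := by
  have hD : ∃ E : {x // d.dm X x} ≃ {x // d.dm Y x}, ∀ x, (E x : S) = e x :=
    ⟨e.subtypeEquiv fun x => hi.dm e h x, fun x => rfl⟩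
  obtain ⟨E, hE⟩ := hD
  constructor
  case d1 =>
    refine dlo_map E (fun x y => ?_) hX.d1
    rw [hE, hE]
    exact hi.o1 e h _ _
  case d2 =>
    refine dlo_map E (fun x y => ?_) hX.d2
    rw [hE, hE]
    exact hi.o2 e h _ _
  case inf =>
    intro m
    obtain ⟨x, h1, h2⟩ := hX.inf m
    exact ⟨fun i => e (x i), e.injective.comp h1, fun i => (hi.dm e h _).1 (h2 i)⟩
  case ad =>
    intro k
    have := hX.ad k
    simpa only [hi.dm e h, e.surjective.forall, hi.at' e h] using this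
  case ex =>
    intro k
    have := hX.ex k
    simpa only [hi.dm e h, e.surjective.forall, e.surjective.exists, hi.at' e h] using this
  case uq =>
    intro k
    have := hX.uq k
    simpa only [e.surjective.forall, hi.at' e h, e.injective.eq_iff] using this
  case ij =>
    intro k k'
    have := hX.ij k k'
    simpa only [e.surjective.forall, hi.at' e h, e.injective.eq_iff] using this
  case cov =>
    have := hX.cov
    simpa only [e.surjective.forall, e.surjective.exists, hi.at' e h] using this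
  case pp =>
    intro j k k' u u' x x' hu hu'
    obtain ⟨u, rfl⟩ := e.surjective u
    obtain ⟨u', rfl⟩ := e.surjective u'
    obtain ⟨x, rfl⟩ := e.surjective x
    obtain ⟨x', rfl⟩ := e.surjective x'
    rw [← hi.at' e h] at hu hu'
    rw [← h, hX.pp j k k' u u' x x' hu hu', hi.o1 e h, hi.o1 e h, hi.o2 e h, hi.o2 e h,
      e.injective.eq_iff]

/-- the representation -/
theorem W.rep {X : J → ℕ → ℕ → Prop} (h : W t d X) : ∃ e : Bool × {x // d.dm X x} ≃ ℕ,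
    ∀ j u v, SY t (fun x y : {x // d.dm X x} => d.o1 X x y)
      (fun x y : {x // d.dm X x} => d.o2 X x y) j u v ↔ X j (e u) (e v) := by
  classical
  choose g hg using fun (k : Bool) (x : {x // d.dm X x}) => h.ex k x x.2
  let E : Bool × {x // d.dm X x} → ℕ := fun u => g u.1 u.2
  have hinj : Function.Injective E := by
    rintro ⟨k, q⟩ ⟨k', q'⟩ huv
    have huv : g k q = g k' q' := huv
    obtain ⟨h1, h2⟩ := h.ij k k' _ _ _ (hg k q) (huv ▸ hg k' q')
    rw [h1, Subtype.ext h2]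
  have hsurj : Function.Surjective E := by
    intro u
    obtain ⟨k, x, h1⟩ := h.cov u
    exact ⟨(k, ⟨x, h.ad k u x h1⟩), h.uq k x _ _ (hg k ⟨x, h.ad k u x h1⟩) h1⟩
  refine ⟨Equiv.ofBijective E ⟨hinj, hsurj⟩, fun j => ?_⟩
  rintro ⟨k, q⟩ ⟨k', q'⟩
  show t j k k' (d.o1 X q q') (d.o1 X q' q) (d.o2 X q q') (d.o2 X q' q) (q = q') ↔
    X j (g k q) (g k' q')
  rw [h.pp j k k' _ _ _ _ (hg k q) (hg k' q'), Subtype.ext_iff]

/-- the pair of orders determines the structure -/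
theorem W.ext {X X' : J → ℕ → ℕ → Prop} (h : W t d X) (h' : W t d X')
    (π : {x // d.dm X x} ≃ {x // d.dm X' x})
    (h1 : ∀ x y : {x // d.dm X x}, d.o1 X x y ↔ d.o1 X' (π x) (π y))
    (h2 : ∀ x y : {x // d.dm X x}, d.o2 X x y ↔ d.o2 X' (π x) (π y)) :
    ∃ e : ℕ ≃ ℕ, ∀ j u v, X j u v ↔ X' j (e u) (e v) := by
  obtain ⟨e, h3⟩ := h.rep
  obtain ⟨e', h3'⟩ := h'.rep
  let m : Bool × {x // d.dm X x} ≃ Bool × {x // d.dm X' x} := Equiv.prodCongr (Equiv.refl _) π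
  have hm : ∀ j u v, SY t (fun x y : {x // d.dm X x} => d.o1 X x y)
      (fun x y : {x // d.dm X x} => d.o2 X x y) j u v ↔
      SY t (fun x y : {x // d.dm X' x} => d.o1 X' x y)
      (fun x y : {x // d.dm X' x} => d.o2 X' x y) j (m u) (m v) := by
    rintro j ⟨k, q⟩ ⟨k', q'⟩
    show t j k k' (d.o1 X q q') (d.o1 X q' q) (d.o2 X q q') (d.o2 X q' q) (q = q') ↔
      t j k k' (d.o1 X' (π q) (π q')) (d.o1 X' (π q') (π q))
      (d.o2 X' (π q) (π q')) (d.o2 X' (π q') (π q)) (π q = π q')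
    rw [h1, h1, h2, h2, π.injective.eq_iff]
  refine ⟨(e.symm.trans m).trans e', fun j u v => ?_⟩
  obtain ⟨u, rfl⟩ := e.surjective u
  obtain ⟨v, rfl⟩ := e.surjective v
  rw [← h3]
  show _ ↔ X' j (e' (m (e.symm (e u)))) (e' (m (e.symm (e v))))
  rw [← h3', e.symm_apply_apply, e.symm_apply_apply]
  exact hm j u v

end Pool.Agent.TH783.OT.D
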