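import Pool.Agent.TH783.OT.Bor

set_option autoImplicit false

/-! Ordered graphs: the coding. -/

namespace Pool.Agent.TH783.OT

open Pool.Agent.TH783.FC (FD1 FD2)
open Pool.Agent.W889.FO
open Pool.Agent.W889.FO.StA (FD.all1 FD.ex1)
open Pool.Agent.W889.VC (DLO)

/-- the six ways to encode a matching -/
inductive Sd
  | eq | ne | leR | geR | leC | geC

/-- the adjacencies with the special elements -/
def Sd.c : Sd → Prop
  | .eq => False
  | .ne => True
  | .leR => False
  | .geR => True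
  | .leC => False
  | .geC => True

/-- the adjacencies between the two parts -/
def Sd.cr : Sd → Prop → Prop → Prop → Prop → Prop → Prop
  | .eq, _, _, _, _, e => e
  | .ne, _, _, _, _, e => ¬ e
  | .leR, _, _, _, g, _ => ¬ g
  | .geR, _, _, l, _, _ => ¬ l
  | .leC, _, g, _, _, _ => ¬ g
  | .geC, l, _, _, _, _ => ¬ l

/-- the table of ordered graphs -/
def tabO (s : Sd) (l r : Prop) : Tab Bool where
  pp := fun j k k' l1 g1 l2 g2 e => match j, k, k' with
    | false, false, false => l1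
    | false, true, true => l2
    | false, false, true => True
    | false, true, false => False
    | true, false, false => l ∧ ¬ e
    | true, true, true => r ∧ ¬ e
    | true, false, true => s.cr l1 g1 l2 g2 e
    | true, true, false => s.cr g1 l1 g2 l2 e
  ps := fun j k i => match j, k, i with
    | false, false, _ => True
    | false, true, _ => False
    | true, false, false => l
    | true, false, true => s.c
    | true, true, false => s.c
    | true, true, true => r
  sp := fun j i k => match j, i, k with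
    | false, _, false => False
    | false, _, true => True
    | true, false, false => l
    | true, false, true => s.c
    | true, true, false => s.c
    | true, true, true => r
  ss := fun j i i' => match j, i, i' with
    | false, false, true => True
    | false, _, _ => False
    | true, false, true => s.c
    | true, true, false => s.c
    | true, _, _ => False

section dec

variable {T : Type}

/-- jumps -/
def Jm (l : T → T → Prop) (u v : T) : Prop := l u v ∧ ∀ w, ¬ (l u w ∧ l w v)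

def P2 (l : T → T → Prop) (u : T) : Prop := ∃ v, Jm l u v
def P3 (l : T → T → Prop) (v : T) : Prop := ∃ u, Jm l u v
def PA (l : T → T → Prop) (u : T) : Prop := ∃ m, P2 l m ∧ l u m
def PB (l : T → T → Prop) (u : T) : Prop := ∃ m, P3 l m ∧ l m u

/-- the matching -/
def Mt (s : Sd) (l E : T → T → Prop) (a b : T) : Prop := match s with
  | .eq => E a b
  | .ne => ¬ E a b
  | .leR => E a b ∧ ∀ b', PB l b' → E a b' → ¬ l b' b
  | .geR => E a b ∧ ∀ b', PB l b' → E a b' → ¬ l b b'
  | .leC => E a b ∧ ∀ a', PA l a' → E a' b → ¬ l a a'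
  | .geC => E a b ∧ ∀ a', PA l a' → E a' b → ¬ l a' a

/-- the second order -/
def Ot (s : Sd) (l E : T → T → Prop) (a a' : T) : Prop :=
  ∃ b b', PB l b ∧ PB l b' ∧ Mt s l E a b ∧ Mt s l E a' b' ∧ l b b'

end dec

/-- the decoders -/
def dcO (s : Sd) : Dc Bool where
  dm := fun X => PA (X false)
  o1 := fun X => X false
  o2 := fun X => Ot s (X false) (X true)
  at' := fun X k u x => match k with
    | false => PA (X false) x ∧ u = x
    | true => PA (X false) x ∧ PB (X false) u ∧ Mt s (X false) (X true) x u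
  sp := fun X i => match i with
    | false => P2 (X false)
    | true => P3 (X false)

section inv

variable {T S : Type} (e : T ≃ S) {X : Bool → T → T → Prop} {Y : Bool → S → S → Prop}
  (h : ∀ j u v, X j u v ↔ Y j (e u) (e v))

include h

theorem p2_map (u : T) : P2 (X false) u ↔ P2 (Y false) (e u) := by
  simp only [P2, Jm, e.surjective.exists, e.surjective.forall, h]

theorem p3_map (u : T) : P3 (X false) u ↔ P3 (Y false) (e u) := by
  simp only [P3, Jm, e.surjective.exists, e.surjective.forall, h]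

theorem pa_map (u : T) : PA (X false) u ↔ PA (Y false) (e u) := by
  simp only [PA, e.surjective.exists, p2_map e h, h]

theorem pb_map (u : T) : PB (X false) u ↔ PB (Y false) (e u) := by
  simp only [PB, e.surjective.exists, p3_map e h, h]

theorem mt_map (s : Sd) (u v : T) :
    Mt s (X false) (X true) u v ↔ Mt s (Y false) (Y true) (e u) (e v) := by
  cases s <;> simp only [Mt, e.surjective.forall, pa_map e h, pb_map e h, h]

theorem ot_map (s : Sd) (u v : T) :
    Ot s (X false) (X true) u v ↔ Ot s (Y false) (Y true) (e u) (e v) := by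
  simp only [Ot, e.surjective.exists, pb_map e h, mt_map e h, h]

end inv

theorem inv_dcO (s : Sd) : (dcO s).Inv where
  dm := fun e _ _ h u => pa_map e h u
  o1 := fun e _ _ h u v => h false u v
  o2 := fun e _ _ h u v => ot_map e h s u v
  at' := fun e X Y h k u v => by
    cases k
    · show PA (X false) v ∧ u = v ↔ PA (Y false) (e v) ∧ e u = e v
      rw [pa_map e h, e.injective.eq_iff]
    · show PA (X false) v ∧ PB (X false) u ∧ Mt s (X false) (X true) v u ↔
        PA (Y false) (e v) ∧ PB (Y false) (e u) ∧ Mt s (Y false) (Y true) (e v) (e u)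
      rw [pa_map e h, pb_map e h, mt_map e h]
  sp := fun e _ _ h i u => by
    cases i
    · exact p2_map e h u
    · exact p3_map e h u

section fd

variable {L : FirstOrder.Language.{0, 0}} {V : L.Structure ℕ → Prop}
    {l E : L.Structure ℕ → ℕ → ℕ → Prop}

theorem fd_jm (h : FD2 V l) : FD2 V (fun S => Jm (l S)) := fun _ i j =>
  (h _ _ _).and <| FD.all1 (P := fun S v w => ¬ (l S (v i) w ∧ l S w (v j))) <|
    ((h _ _ _).and (h _ _ _)).not

theorem fd_p2 (h : FD2 V l) : FD1 V (fun S => P2 (l S)) := fun _ i =>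
  FD.ex1 (P := fun S v w => Jm (l S) (v i) w) (fd_jm h _ _ _)

theorem fd_p3 (h : FD2 V l) : FD1 V (fun S => P3 (l S)) := fun _ i =>
  FD.ex1 (P := fun S v w => Jm (l S) w (v i)) (fd_jm h _ _ _)

theorem fd_pa (h : FD2 V l) : FD1 V (fun S => PA (l S)) := fun _ i =>
  FD.ex1 (P := fun S v w => P2 (l S) w ∧ l S (v i) w) <| (fd_p2 h _ _).and (h _ _ _)

theorem fd_pb (h : FD2 V l) : FD1 V (fun S => PB (l S)) := fun _ i =>
  FD.ex1 (P := fun S v w => P3 (l S) w ∧ l S w (v i)) <| (fd_p3 h _ _).and (h _ _ _)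

theorem fd_mt (s : Sd) (h : FD2 V l) (h' : FD2 V E) : FD2 V (fun S => Mt s (l S) (E S)) := by
  cases s with
  | eq => exact h'
  | ne => exact fun _ _ _ => (h' _ _ _).not
  | leR => exact fun _ i j => (h' _ _ _).and <|
      FD.all1 (P := fun S v b' => PB (l S) b' → E S (v i) b' → ¬ l S b' (v j)) <|
      (fd_pb h _ _).imp <| (h' _ _ _).imp (h _ _ _).not
  | geR => exact fun _ i j => (h' _ _ _).and <|
      FD.all1 (P := fun S v b' => PB (l S) b' → E S (v i) b' → ¬ l S (v j) b') <|
      (fd_pb h _ _).imp <| (h' _ _ _).imp (h _ _ _).not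
  | leC => exact fun _ i j => (h' _ _ _).and <|
      FD.all1 (P := fun S v a' => PA (l S) a' → E S a' (v j) → ¬ l S (v i) a') <|
      (fd_pa h _ _).imp <| (h' _ _ _).imp (h _ _ _).not
  | geC => exact fun _ i j => (h' _ _ _).and <|
      FD.all1 (P := fun S v a' => PA (l S) a' → E S a' (v j) → ¬ l S a' (v i)) <|
      (fd_pa h _ _).imp <| (h' _ _ _).imp (h _ _ _).not

theorem fd_ot (s : Sd) (h : FD2 V l) (h' : FD2 V E) : FD2 V (fun S => Ot s (l S) (E S)) := by
  intro α i j
  refine (FD.ex (β := Fin 2) (P := fun S v (b : Fin 2 → ℕ) => PB (l S) (b 0) ∧ PB (l S) (b 1) ∧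
    Mt s (l S) (E S) (v i) (b 0) ∧ Mt s (l S) (E S) (v j) (b 1) ∧ l S (b 0) (b 1)) <|
    (fd_pb h _ _).and <| (fd_pb h _ _).and <| (fd_mt s h h' _ _ _).and <|
    (fd_mt s h h' _ _ _).and (h _ _ _)).congr fun S _ v => ?_
  constructor
  · rintro ⟨b, h1⟩
    exact ⟨b 0, b 1, h1⟩
  · rintro ⟨u, y, h1⟩
    exact ⟨![u, y], h1⟩

end fd

theorem fd_dcO (s : Sd) : (dcO s).Fd where
  dm := fun h => fd_pa (h false)
  o1 := fun h => h false
  o2 := fun h => fd_ot s (h false) (h true)
  at' := fun h k => by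
    cases k
    · exact fun _ i j => (fd_pa (h false) _ _).and (FD.eq _ _)
    · exact fun _ i j => (fd_pa (h false) _ _).and <| (fd_pb (h false) _ _).and <|
        fd_mt s (h false) (h true) _ _ _
  sp := fun h i => by
    cases i
    · exact fd_p2 (h false)
    · exact fd_p3 (h false)

section std

variable {Q : Type} [Nonempty Q] {o1 o2 : Q → Q → Prop} (h1 : DLO o1) (h2 : DLO o2) {s : Sd}
  {l r : Prop}

include h1 h2

theorem jm_std {u v : Tk Q} :
    Jm ((tabO s l r).SY o1 o2 false) u v ↔ u = .s false ∧ v = .s true := by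
  constructor
  · rintro ⟨k1, k2⟩
    rcases u with ⟨_ | _, x⟩ | _ | _ <;> rcases v with ⟨_ | _, y⟩ | _ | _
    · obtain ⟨z, h3, h4⟩ := h1.dense x y k1
      exact (k2 (.p false z) ⟨h3, h4⟩).elim
    · exact (k2 (.s false) ⟨trivial, trivial⟩).elim
    · obtain ⟨z, h3⟩ := h1.above x
      exact (k2 (.p false z) ⟨h3, trivial⟩).elim
    · exact (k2 (.s false) ⟨trivial, trivial⟩).elim
    · exact k1.elim
    · obtain ⟨z, h3, h4⟩ := h2.dense x y k1
      exact (k2 (.p true z) ⟨h3, h4⟩).elim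
    · exact k1.elim
    · exact k1.elim
    · exact k1.elim
    · exact (k2 (.s true) ⟨trivial, trivial⟩).elim
    · exact k1.elim
    · exact ⟨rfl, rfl⟩
    · exact k1.elim
    · obtain ⟨z, h3⟩ := h2.below y
      exact (k2 (.p true z) ⟨trivial, h3⟩).elim
    · exact k1.elim
    · exact k1.elim
  · rintro ⟨rfl, rfl⟩
    refine ⟨trivial, ?_⟩
    rintro (⟨_ | _, x⟩ | _ | _) ⟨h3, h4⟩
    · exact h3.elim
    · exact h4.elim
    · exact h3.elim
    · exact h4.elim

theorem p2_std {u : Tk Q} : P2 ((tabO s l r).SY o1 o2 false) u ↔ u = .s false := by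
  unfold P2
  simp only [jm_std h1 h2]
  exact ⟨fun ⟨_, h, _⟩ => h, fun h => ⟨_, h, rfl⟩⟩

theorem p3_std {u : Tk Q} : P3 ((tabO s l r).SY o1 o2 false) u ↔ u = .s true := by
  unfold P3
  simp only [jm_std h1 h2]
  exact ⟨fun ⟨_, _, h⟩ => h, fun h => ⟨_, rfl, h⟩⟩

theorem pa_std {u : Tk Q} :
    PA ((tabO s l r).SY o1 o2 false) u ↔ ∃ q, u = .p false q := by
  unfold PA
  simp only [p2_std h1 h2]
  constructor
  · rintro ⟨_, rfl, h3⟩
    rcases u with ⟨_ | _, x⟩ | _ | _
    · exact ⟨x, rfl⟩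
    · exact h3.elim
    · exact h3.elim
    · exact h3.elim
  · rintro ⟨x, rfl⟩
    exact ⟨_, rfl, trivial⟩

theorem pb_std {u : Tk Q} :
    PB ((tabO s l r).SY o1 o2 false) u ↔ ∃ q, u = .p true q := by
  unfold PB
  simp only [p3_std h1 h2]
  constructor
  · rintro ⟨_, rfl, h3⟩
    rcases u with ⟨_ | _, x⟩ | _ | _
    · exact h3.elim
    · exact ⟨x, rfl⟩
    · exact h3.elim
    · exact h3.elim
  · rintro ⟨x, rfl⟩
    exact ⟨_, rfl, trivial⟩

theorem eq_of_not {o : Q → Q → Prop} (h : DLO o) {x y : Q} (k1 : ¬ o x y) (k2 : ¬ o y x) :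
    x = y := by
  by_contra hne
  rcases h.total x y hne with h | h
  · exact k1 h
  · exact k2 h

theorem mt_std {x y : Q} : Mt s ((tabO s l r).SY o1 o2 false) ((tabO s l r).SY o1 o2 true)
    (.p false x) (.p true y) ↔ x = y := by
  cases s with
  | eq => exact Iff.rfl
  | ne => exact not_not
  | leR =>
    simp only [Mt, pb_std h1 h2]
    constructor
    · rintro ⟨k1, k2⟩
      exact eq_of_not h1 h2 h2 (k2 _ ⟨x, rfl⟩ (h2.irrefl x)) k1
    · rintro rfl
      refine ⟨h2.irrefl x, ?_⟩
      rintro _ ⟨z, rfl⟩ h3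
      exact h3
  | geR =>
    simp only [Mt, pb_std h1 h2]
    constructor
    · rintro ⟨k1, k2⟩
      exact eq_of_not h1 h2 h2 k1 (k2 _ ⟨x, rfl⟩ (h2.irrefl x))
    · rintro rfl
      refine ⟨h2.irrefl x, ?_⟩
      rintro _ ⟨z, rfl⟩ h3
      exact h3
  | leC =>
    simp only [Mt, pa_std h1 h2]
    constructor
    · rintro ⟨k1, k2⟩
      exact eq_of_not h1 h2 h1 (k2 _ ⟨y, rfl⟩ (h1.irrefl y)) k1
    · rintro rfl
      refine ⟨h1.irrefl x, ?_⟩
      rintro _ ⟨z, rfl⟩ h3
      exact h3
  | geC =>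
    simp only [Mt, pa_std h1 h2]
    constructor
    · rintro ⟨k1, k2⟩
      exact eq_of_not h1 h2 h1 k1 (k2 _ ⟨y, rfl⟩ (h1.irrefl y))
    · rintro rfl
      refine ⟨h1.irrefl x, ?_⟩
      rintro _ ⟨z, rfl⟩ h3
      exact h3

theorem ot_std {x y : Q} : Ot s ((tabO s l r).SY o1 o2 false) ((tabO s l r).SY o1 o2 true)
    (.p false x) (.p false y) ↔ o2 x y := by
  constructor
  · rintro ⟨b, b', h3, h4, h5, h6, h7⟩
    obtain ⟨z, rfl⟩ := (pb_std h1 h2).1 h3
    obtain ⟨w, rfl⟩ := (pb_std h1 h2).1 h4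
    obtain rfl := (mt_std h1 h2).1 h5
    obtain rfl := (mt_std h1 h2).1 h6
    exact h7
  · exact fun h => ⟨.p true x, .p true y, (pb_std h1 h2).2 ⟨_, rfl⟩, (pb_std h1 h2).2 ⟨_, rfl⟩,
      (mt_std h1 h2).2 rfl, (mt_std h1 h2).2 rfl, h⟩

end std

theorem ok_dcO (s : Sd) (l r : Prop) : (dcO s).Ok (tabO s l r) where
  dm := fun h1 h2 _ => pa_std h1 h2
  o1 := fun _ _ _ _ => Iff.rfl
  o2 := fun h1 h2 _ _ => ot_std h1 h2
  at' := fun {Q} _ {o1 o2} h1 h2 k u x => by
    cases k
    · show PA ((tabO s l r).SY o1 o2 false) x ∧ u = x ↔ _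
      rw [pa_std h1 h2]
      constructor
      · rintro ⟨⟨q, rfl⟩, rfl⟩
        exact ⟨q, rfl, rfl⟩
      · rintro ⟨q, rfl, rfl⟩
        exact ⟨⟨q, rfl⟩, rfl⟩
    · show PA ((tabO s l r).SY o1 o2 false) x ∧ PB ((tabO s l r).SY o1 o2 false) u ∧
        Mt s ((tabO s l r).SY o1 o2 false) ((tabO s l r).SY o1 o2 true) x u ↔ _
      rw [pa_std h1 h2, pb_std h1 h2]
      constructor
      · rintro ⟨⟨q, rfl⟩, ⟨q', rfl⟩, h3⟩
        obtain rfl := (mt_std h1 h2).1 h3
        exact ⟨q, rfl, rfl⟩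
      · rintro ⟨q, rfl, rfl⟩
        exact ⟨⟨q, rfl⟩, ⟨q, rfl⟩, (mt_std h1 h2).2 rfl⟩
  sp := fun h1 h2 i u => by
    cases i
    · exact p2_std h1 h2
    · exact p3_std h1 h2

end Pool.Agent.TH783.OT
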