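import Pool.Agent.TH783.OT.Fd0
import Pool.Agent.TH783.OT.OG

set_option autoImplicit false

/-! Densely ordered graphs: the coding. -/

namespace Pool.Agent.TH783.OT.D

open Pool.Agent.TH783.FC (FD1 FD2)
open Pool.Agent.W889.FO
open Pool.Agent.W889.FO.StA (FD.all1 FD.ex1)
open Pool.Agent.W889.VC (DLO)

/-- the table of ordered graphs -/
def tabO (s : Sd) (l r : Bool) : Tab Bool := fun j k k' l1 g1 l2 g2 e => match j, k, k' with
    | false, false, false => l1
    | false, true, true => l2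
    | false, false, true => True
    | false, true, false => False
    | true, false, false => l = true ∧ ¬ e
    | true, true, true => r = true ∧ ¬ e
    | true, false, true => s.cr l1 g1 l2 g2 e
    | true, true, false => s.cr g1 l1 g2 l2 e

section dec

variable {T : Type}

/-- the second part -/
def PB (l r : Bool) (X : Bool → T → T → Prop) (u : T) : Prop := match l, r with
  | false, _ => ∃ v, X false v u ∧ X true v u
  | true, false => ¬ ∃ v, X false u v ∧ X true u v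
  | true, true => ¬ ∃ v, X false u v ∧ ¬ X true u v

/-- the matching -/
def Mt (s : Sd) (l r : Bool) (X : Bool → T → T → Prop) (a b : T) : Prop := match s with
  | .eq => X true a b
  | .ne => ¬ X true a b
  | .leR => X true a b ∧ ∀ b', PB l r X b' → X true a b' → ¬ X false b' b
  | .geR => X true a b ∧ ∀ b', PB l r X b' → X true a b' → ¬ X false b b'
  | .leC => X true a b ∧ ∀ a', ¬ PB l r X a' → X true a' b → ¬ X false a a'
  | .geC => X true a b ∧ ∀ a', ¬ PB l r X a' → X true a' b → ¬ X false a' a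

/-- the second order -/
def Ot (s : Sd) (l r : Bool) (X : Bool → T → T → Prop) (a a' : T) : Prop :=
  ∃ b b', PB l r X b ∧ PB l r X b' ∧ Mt s l r X a b ∧ Mt s l r X a' b' ∧ X false b b'

end dec

/-- the decoders -/
def dcO (s : Sd) (l r : Bool) : Dc Bool where
  dm := fun X u => ¬ PB l r X u
  o1 := fun X => X false
  o2 := fun X => Ot s l r X
  at' := fun X k u x => match k with
    | false => ¬ PB l r X x ∧ u = x
    | true => ¬ PB l r X x ∧ PB l r X u ∧ Mt s l r X x u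

section inv

variable {T S : Type} (e : T ≃ S) {X : Bool → T → T → Prop} {Y : Bool → S → S → Prop}
  (h : ∀ j u v, X j u v ↔ Y j (e u) (e v))

include h

theorem pb_map (l r : Bool) (u : T) : PB l r X u ↔ PB l r Y (e u) := by
  rcases l <;> rcases r <;> simp only [PB, e.surjective.exists, h]

theorem mt_map (s : Sd) (l r : Bool) (u v : T) : Mt s l r X u v ↔ Mt s l r Y (e u) (e v) := by
  cases s <;> simp only [Mt, e.surjective.forall, pb_map e h, h]

theorem ot_map (s : Sd) (l r : Bool) (u v : T) : Ot s l r X u v ↔ Ot s l r Y (e u) (e v) := by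
  simp only [Ot, e.surjective.exists, pb_map e h, mt_map e h, h]

end inv

theorem inv_dcO (s : Sd) (l r : Bool) : (dcO s l r).Inv where
  dm := fun e _ _ h u => (pb_map e h l r u).not
  o1 := fun e _ _ h u v => h false u v
  o2 := fun e _ _ h u v => ot_map e h s l r u v
  at' := fun e X Y h k u v => by
    cases k
    · show ¬ PB l r X v ∧ u = v ↔ ¬ PB l r Y (e v) ∧ e u = e v
      rw [pb_map e h, e.injective.eq_iff]
    · show ¬ PB l r X v ∧ PB l r X u ∧ Mt s l r X v u ↔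
        ¬ PB l r Y (e v) ∧ PB l r Y (e u) ∧ Mt s l r Y (e v) (e u)
      rw [pb_map e h, pb_map e h, mt_map e h]

section fd

variable {L : FirstOrder.Language.{0, 0}} {V : L.Structure ℕ → Prop}
    {R : L.Structure ℕ → Bool → ℕ → ℕ → Prop} (h : ∀ j, FD2 V (fun S => R S j))

include h

theorem fd_pb (l r : Bool) : FD1 V (fun S => PB l r (R S)) := by
  rcases l
  · exact fun _ i => FD.ex1 (P := fun S v w => R S false w (v i) ∧ R S true w (v i)) <|
      (h _ _ _ _).and (h _ _ _ _)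
  · rcases r
    · exact fun _ i => (FD.ex1 (P := fun S v w => R S false (v i) w ∧ R S true (v i) w) <|
        (h _ _ _ _).and (h _ _ _ _)).not
    · exact fun _ i => (FD.ex1 (P := fun S v w => R S false (v i) w ∧ ¬ R S true (v i) w) <|
        (h _ _ _ _).and (h _ _ _ _).not).not

theorem fd_mt (s : Sd) (l r : Bool) : FD2 V (fun S => Mt s l r (R S)) := by
  cases s with
  | eq => exact h true
  | ne => exact fun _ _ _ => (h true _ _ _).not
  | leR => exact fun _ i j => (h _ _ _ _).and <|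
      FD.all1 (P := fun S v b' => PB l r (R S) b' → R S true (v i) b' → ¬ R S false b' (v j)) <|
      (fd_pb h l r _ _).imp <| (h _ _ _ _).imp (h _ _ _ _).not
  | geR => exact fun _ i j => (h _ _ _ _).and <|
      FD.all1 (P := fun S v b' => PB l r (R S) b' → R S true (v i) b' → ¬ R S false (v j) b') <|
      (fd_pb h l r _ _).imp <| (h _ _ _ _).imp (h _ _ _ _).not
  | leC => exact fun _ i j => (h _ _ _ _).and <|
      FD.all1 (P := fun S v a' => ¬ PB l r (R S) a' → R S true a' (v j) →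
        ¬ R S false (v i) a') <|
      (fd_pb h l r _ _).not.imp <| (h _ _ _ _).imp (h _ _ _ _).not
  | geC => exact fun _ i j => (h _ _ _ _).and <|
      FD.all1 (P := fun S v a' => ¬ PB l r (R S) a' → R S true a' (v j) →
        ¬ R S false a' (v i)) <|
      (fd_pb h l r _ _).not.imp <| (h _ _ _ _).imp (h _ _ _ _).not

theorem fd_ot (s : Sd) (l r : Bool) : FD2 V (fun S => Ot s l r (R S)) := by
  intro α i j
  refine (FD.ex (β := Fin 2) (P := fun S v (b : Fin 2 → ℕ) => PB l r (R S) (b 0) ∧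
    PB l r (R S) (b 1) ∧ Mt s l r (R S) (v i) (b 0) ∧ Mt s l r (R S) (v j) (b 1) ∧
    R S false (b 0) (b 1)) <|
    (fd_pb h l r _ _).and <| (fd_pb h l r _ _).and <| (fd_mt h s l r _ _ _).and <|
    (fd_mt h s l r _ _ _).and (h _ _ _ _)).congr fun S _ v => ?_
  constructor
  · rintro ⟨b, h1⟩
    exact ⟨b 0, b 1, h1⟩
  · rintro ⟨u, y, h1⟩
    exact ⟨![u, y], h1⟩

end fd

theorem fd_dcO (s : Sd) (l r : Bool) : (dcO s l r).Fd where
  dm := fun h _ _ => (fd_pb h l r _ _).not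
  o1 := fun h => h false
  o2 := fun h => fd_ot h s l r
  at' := fun h k => by
    cases k
    · exact fun _ i j => (fd_pb h l r _ _).not.and (FD.eq _ _)
    · exact fun _ i j => (fd_pb h l r _ _).not.and <| (fd_pb h l r _ _).and <|
        fd_mt h s l r _ _ _

section std

variable {Q : Type} {o1 o2 : Q → Q → Prop} (h1 : DLO o1) (h2 : DLO o2) {s : Sd} {l r : Bool}

include h1 h2

/-- all points have a neighbour on the other side -/
theorem cr_ex (x : Q) : (∃ y, s.cr (o1 x y) (o1 y x) (o2 x y) (o2 y x) (x = y)) ∧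
    (∃ y, s.cr (o1 y x) (o1 x y) (o2 y x) (o2 x y) (x = y)) ∧
    (∃ y, ¬ s.cr (o1 x y) (o1 y x) (o2 x y) (o2 y x) (x = y)) := by
  obtain ⟨a, ha⟩ := h1.above x
  obtain ⟨b, hb⟩ := h1.below x
  obtain ⟨c, hc⟩ := h2.above x
  obtain ⟨d, hd⟩ := h2.below x
  have hxa : x ≠ a := fun e => h1.irrefl a (by rwa [e] at ha)
  have i1 := h1.irrefl x
  have i2 := h2.irrefl x
  cases s with
  | eq => exact ⟨⟨x, rfl⟩, ⟨x, rfl⟩, ⟨a, hxa⟩⟩
  | ne => exact ⟨⟨a, hxa⟩, ⟨a, hxa⟩, ⟨x, fun h => h rfl⟩⟩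
  | leR => exact ⟨⟨x, i2⟩, ⟨x, i2⟩, ⟨d, fun h => h hd⟩⟩
  | geR => exact ⟨⟨x, i2⟩, ⟨x, i2⟩, ⟨c, fun h => h hc⟩⟩
  | leC => exact ⟨⟨x, i1⟩, ⟨x, i1⟩, ⟨b, fun h => h hb⟩⟩
  | geC => exact ⟨⟨x, i1⟩, ⟨x, i1⟩, ⟨a, fun h => h ha⟩⟩

theorem pb_std {u : Bool × Q} : PB l r (SY (tabO s l r) o1 o2) u ↔ ∃ q, u = (true, q) := by
  have hne : ∀ {o : Q → Q → Prop}, DLO o → ∀ {x y}, o x y → x ≠ y := fun ho x y hxy e =>
    ho.irrefl x (by rwa [← e] at hxy)
  rcases u with ⟨_ | _, x⟩
  · refine iff_of_false ?_ (by simp)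
    rcases l
    · rintro ⟨⟨_ | _, y⟩, k1, k2⟩
      · exact Bool.false_ne_true k2.1
      · exact k1.elim
    · rcases r
      · intro hn
        obtain ⟨a, ha⟩ := h1.above x
        exact hn ⟨(false, a), ha, rfl, hne h1 ha⟩
      · intro hn
        obtain ⟨-, -, y, hy⟩ := cr_ex h1 h2 (s := s) x
        exact hn ⟨(true, y), trivial, hy⟩
  · refine iff_of_true ?_ ⟨x, rfl⟩
    rcases l
    · obtain ⟨-, ⟨y, hy⟩, -⟩ := cr_ex h1 h2 (s := s) x
      rw [eq_comm] at hy
      exact ⟨(false, y), trivial, hy⟩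
    · rcases r
      · rintro ⟨⟨_ | _, y⟩, k1, k2⟩
        · exact k1.elim
        · exact Bool.false_ne_true k2.1
      · rintro ⟨⟨_ | _, y⟩, k1, k2⟩
        · exact k1.elim
        · exact k2 ⟨rfl, hne h2 k1⟩

theorem pa_std {u : Bool × Q} : ¬ PB l r (SY (tabO s l r) o1 o2) u ↔ ∃ q, u = (false, q) := by
  rw [pb_std h1 h2]
  rcases u with ⟨_ | _, x⟩ <;> simp

omit h1 h2 in
theorem eq_of_not {o : Q → Q → Prop} (h : DLO o) {x y : Q} (k1 : ¬ o x y) (k2 : ¬ o y x) :
    x = y := by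
  by_contra hne
  rcases h.total x y hne with h | h
  · exact k1 h
  · exact k2 h

theorem mt_std {x y : Q} : Mt s l r (SY (tabO s l r) o1 o2) (false, x) (true, y) ↔ x = y := by
  cases s with
  | eq => exact Iff.rfl
  | ne => exact not_not
  | leR =>
    simp only [Mt, pb_std h1 h2]
    constructor
    · rintro ⟨k1, k2⟩
      exact eq_of_not h2 (k2 _ ⟨x, rfl⟩ (h2.irrefl x)) k1
    · rintro rfl
      refine ⟨h2.irrefl x, ?_⟩
      rintro _ ⟨z, rfl⟩ h3
      exact h3
  | geR =>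
    simp only [Mt, pb_std h1 h2]
    constructor
    · rintro ⟨k1, k2⟩
      exact eq_of_not h2 k1 (k2 _ ⟨x, rfl⟩ (h2.irrefl x))
    · rintro rfl
      refine ⟨h2.irrefl x, ?_⟩
      rintro _ ⟨z, rfl⟩ h3
      exact h3
  | leC =>
    simp only [Mt, pa_std h1 h2]
    constructor
    · rintro ⟨k1, k2⟩
      exact eq_of_not h1 (k2 _ ⟨y, rfl⟩ (h1.irrefl y)) k1
    · rintro rfl
      refine ⟨h1.irrefl x, ?_⟩
      rintro _ ⟨z, rfl⟩ h3
      exact h3
  | geC =>
    simp only [Mt, pa_std h1 h2]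
    constructor
    · rintro ⟨k1, k2⟩
      exact eq_of_not h1 k1 (k2 _ ⟨y, rfl⟩ (h1.irrefl y))
    · rintro rfl
      refine ⟨h1.irrefl x, ?_⟩
      rintro _ ⟨z, rfl⟩ h3
      exact h3

theorem ot_std {x y : Q} : Ot s l r (SY (tabO s l r) o1 o2) (false, x) (false, y) ↔ o2 x y := by
  constructor
  · rintro ⟨b, b', h3, h4, h5, h6, h7⟩
    obtain ⟨z, rfl⟩ := (pb_std h1 h2).1 h3
    obtain ⟨w, rfl⟩ := (pb_std h1 h2).1 h4
    obtain rfl := (mt_std h1 h2).1 h5
    obtain rfl := (mt_std h1 h2).1 h6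
    exact h7
  · exact fun h => ⟨(true, x), (true, y), (pb_std h1 h2).2 ⟨_, rfl⟩, (pb_std h1 h2).2 ⟨_, rfl⟩,
      (mt_std h1 h2).2 rfl, (mt_std h1 h2).2 rfl, h⟩

end std

theorem ok_dcO (s : Sd) (l r : Bool) : (dcO s l r).Ok (tabO s l r) where
  dm := fun h1 h2 _ => pa_std h1 h2
  o1 := fun _ _ _ _ => Iff.rfl
  o2 := fun h1 h2 _ _ => ot_std h1 h2
  at' := fun {Q o1 o2} h1 h2 k u x => by
    cases k
    · show ¬ PB l r (SY (tabO s l r) o1 o2) x ∧ u = x ↔ _
      rw [pa_std h1 h2]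
      constructor
      · rintro ⟨⟨q, rfl⟩, rfl⟩
        exact ⟨q, rfl, rfl⟩
      · rintro ⟨q, rfl, rfl⟩
        exact ⟨⟨q, rfl⟩, rfl⟩
    · show ¬ PB l r (SY (tabO s l r) o1 o2) x ∧ PB l r (SY (tabO s l r) o1 o2) u ∧
        Mt s l r (SY (tabO s l r) o1 o2) x u ↔ _
      rw [pa_std h1 h2, pb_std h1 h2]
      constructor
      · rintro ⟨⟨q, rfl⟩, ⟨q', rfl⟩, h3⟩
        obtain rfl := (mt_std h1 h2).1 h3
        exact ⟨q, rfl, rfl⟩
      · rintro ⟨q, rfl, rfl⟩
        exact ⟨⟨q, rfl⟩, ⟨q, rfl⟩, (mt_std h1 h2).2 rfl⟩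

/-- the order is dense -/
theorem dlo_SY {Q : Type} [Nonempty Q] {o1 o2 : Q → Q → Prop} (h1 : DLO o1) (h2 : DLO o2)
    (s : Sd) (l r : Bool) : DLO (SY (tabO s l r) o1 o2 false) where
  irrefl := by
    rintro ⟨_ | _, x⟩
    · exact h1.irrefl x
    · exact h2.irrefl x
  trans := by
    rintro ⟨_ | _, x⟩ ⟨_ | _, y⟩ ⟨_ | _, z⟩ k1 k2
    all_goals first
      | exact h1.trans _ _ _ k1 k2
      | exact h2.trans _ _ _ k1 k2
      | exact trivial
      | exact k1.elim
      | exact k2.elim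
  total := by
    rintro ⟨_ | _, x⟩ ⟨_ | _, y⟩ hne
    · exact h1.total x y fun e => hne (by rw [e])
    · exact Or.inl trivial
    · exact Or.inr trivial
    · exact h2.total x y fun e => hne (by rw [e])
  dense := by
    rintro ⟨_ | _, x⟩ ⟨_ | _, y⟩ k1
    · obtain ⟨z, h3, h4⟩ := h1.dense x y k1
      exact ⟨(false, z), h3, h4⟩
    · obtain ⟨z, h3⟩ := h1.above x
      exact ⟨(false, z), h3, trivial⟩
    · exact k1.elim
    · obtain ⟨z, h3, h4⟩ := h2.dense x y k1
      exact ⟨(true, z), h3, h4⟩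
  above := by
    rintro ⟨_ | _, x⟩
    · exact ⟨(true, x), trivial⟩
    · obtain ⟨z, h3⟩ := h2.above x
      exact ⟨(true, z), h3⟩
  below := by
    rintro ⟨_ | _, x⟩
    · obtain ⟨z, h3⟩ := h1.below x
      exact ⟨(false, z), h3⟩
    · exact ⟨(false, x), trivial⟩

end Pool.Agent.TH783.OT.D
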