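import Mathlib

set_option autoImplicit false

/-! Finite sets with strict linear orders. -/

namespace Pool.Agent.TH783.OT

/-- strict linear orders -/
structure SL {T : Type} (l : T → T → Prop) : Prop where
  irrefl : ∀ x, ¬ l x x
  trans : ∀ x y z, l x y → l y z → l x z
  total : ∀ x y, x ≠ y → l x y ∨ l y x

theorem SL.not_iff {T : Type} {l : T → T → Prop} (h : SL l) {x y : T} (hne : x ≠ y) :
    ¬ l x y ↔ l y x := by
  constructor
  · exact fun h1 => (h.total x y hne).resolve_left h1
  · exact fun h1 h2 => h.irrefl _ (h.trans _ _ _ h1 h2)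

theorem SL.asymm {T : Type} {l : T → T → Prop} (h : SL l) {x y : T} (h1 : l x y) : ¬ l y x :=
  fun h2 => h.irrefl _ (h.trans _ _ _ h1 h2)

theorem SL.sub {T : Type} {l : T → T → Prop} (h : SL l) (P : T → Prop) :
    SL (fun x y : {x // P x} => l x y) where
  irrefl x := h.irrefl _
  trans x y z := h.trans _ _ _
  total x y hxy := h.total _ _ fun e => hxy (Subtype.ext e)

/-- the order type of a finite linear order -/
theorem SL.fin {F : Type} [Fintype F] {l : F → F → Prop} (h : SL l) :
    ∃ e : F ≃ Fin (Fintype.card F), ∀ x y, l x y ↔ e x < e y := by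
  classical
  have hs : IsStrictTotalOrder F l :=
    { trichotomous := fun a b h1 h2 => by
        by_contra hab
        rcases h.total a b hab with h3 | h3
        · exact h1 h3
        · exact h2 h3
      irrefl := h.irrefl
      trans := h.trans }
  letI := linearOrderOfSTO l
  refine ⟨(monoEquivOfFin F rfl).symm.toEquiv, fun x y => ?_⟩
  exact ((monoEquivOfFin F rfl).symm.lt_iff_lt).symm

/-- two linear orders on a finite set of points give a permutation -/
theorem perm_of {Q : Type} {l1 l2 : Q → Q → Prop} (h1 : SL l1) (h2 : SL l2) {n : ℕ}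
    (p : Fin n → Q) : ∃ (N : ℕ) (π : Equiv.Perm (Fin N)) (a : Fin n → Fin N),
      (∀ i j, a i = a j ↔ p i = p j) ∧ (∀ i j, a i < a j ↔ l1 (p i) (p j)) ∧
      ∀ i j, π (a i) < π (a j) ↔ l2 (p i) (p j) := by
  classical
  let F : Type := {x : Q // ∃ i, p i = x}
  have hF : Finite F := by
    refine Finite.of_surjective (fun i : Fin n => (⟨p i, i, rfl⟩ : F)) ?_
    rintro ⟨_, i, rfl⟩
    exact ⟨i, rfl⟩
  letI : Fintype F := Fintype.ofFinite F
  obtain ⟨e1, k1⟩ := (h1.sub (fun x => ∃ i, p i = x)).fin
  obtain ⟨e2, k2⟩ := (h2.sub (fun x => ∃ i, p i = x)).fin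
  refine ⟨Fintype.card F, e1.symm.trans e2, fun i => e1 ⟨p i, i, rfl⟩, fun i j => ?_,
    fun i j => ?_, fun i j => ?_⟩
  · rw [e1.injective.eq_iff, Subtype.mk.injEq]
  · rw [← k1]
  · rw [Equiv.trans_apply, Equiv.trans_apply, e1.symm_apply_apply, e1.symm_apply_apply, ← k2]

/-- a least and a greatest element are added -/
def Ext {Q : Type} (l : Q → Q → Prop) : Q ⊕ Bool → Q ⊕ Bool → Prop
  | .inl x, .inl y => l x y
  | .inl _, .inr i => i = true
  | .inr i, .inl _ => i = false
  | .inr i, .inr j => i = false ∧ j = true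

theorem SL.ext {Q : Type} {l : Q → Q → Prop} (h : SL l) : SL (Ext l) where
  irrefl := by
    rintro (x | _ | _)
    · exact h.irrefl x
    · simp [Ext]
    · simp [Ext]
  trans := by
    rintro (x | _ | _) (y | _ | _) (z | _ | _) h1 h2
    all_goals first
      | exact h.trans _ _ _ h1 h2
      | simp [Ext] at h1 h2 ⊢
  total := by
    rintro (x | _ | _) (y | _ | _) h1
    all_goals first
      | (simp [Ext]; done)
      | exact absurd rfl h1
      | exact h.total x y fun e => h1 (by rw [e])

end Pool.Agent.TH783.OT
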