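import Pool.Agent.TH783.OT.OG
import Pool.Agent.TH783.OT.Ord

set_option autoImplicit false

/-! Ordered graphs: the patterns. -/

namespace Pool.Agent.TH783.OT.PatO

/-- `𝒞` contains all finite induced ordered subgraphs of the ordered graph `(V, lt, G)`; the
vertices of a finite ordered graph are numbered increasingly. -/
def Contains (𝒞 : (n : ℕ) → SimpleGraph (Fin n) → Prop) {V : Type} (lt : V → V → Prop)
    (G : SimpleGraph V) : Prop :=
  ∀ (n : ℕ) (f : Fin n → V), (∀ i j, i < j → lt (f i) (f j)) → 𝒞 n (G.comap f)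

/-- The six ways `=, ≠, ≤_R, ≥_R, ≤_C, ≥_C` to encode a permutation matrix. -/
inductive Sign
  | eq | ne | leR | geR | leC | geC

/-- The entry of the encoded matrix of the permutation `π` in row `i` and column `j`. -/
def Sign.entry {n : ℕ} (s : Sign) (π : Equiv.Perm (Fin n)) (i j : Fin n) : Prop := match s with
  | .eq => π i = j
  | .ne => π i ≠ j
  | .leR => π i ≤ j
  | .geR => j ≤ π i
  | .leC => i ≤ π.symm j
  | .geC => π.symm j ≤ i

/-- The graph `M_{s,l,r}(π)`: the rows form a clique if `l`, otherwise an independent set, the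
columns form a clique if `r`, otherwise an independent set, and the encoded permutation matrix gives
the edges between rows and columns. All rows are before all columns. -/
def matchGraph (s : Sign) (l r : Bool) {n : ℕ} (π : Equiv.Perm (Fin n)) :
    SimpleGraph (Fin n ⊕ Fin n) where
  Adj u v := match u, v with
    | .inl i, .inl j => l = true ∧ i ≠ j
    | .inr i, .inr j => r = true ∧ i ≠ j
    | .inl i, .inr j => s.entry π i j
    | .inr j, .inl i => s.entry π i j
  symm := ⟨by
    rintro (i | i) (j | j) h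
    · exact ⟨h.1, h.2.symm⟩
    · exact h
    · exact h
    · exact ⟨h.1, h.2.symm⟩⟩
  loopless := ⟨by
    rintro (i | i) h
    · exact h.2 rfl
    · exact h.2 rfl⟩

/-- The permutation graph of `π`: the edges are the inversions. -/
def permGraph {n : ℕ} (π : Equiv.Perm (Fin n)) : SimpleGraph (Fin n) where
  Adj i j := (i < j ∧ π j < π i) ∨ (j < i ∧ π i < π j)
  symm := ⟨fun _ _ h => h.symm⟩
  loopless := ⟨fun i h => h.elim (fun h => lt_irrefl _ h.1) fun h => lt_irrefl _ h.1⟩

/-- `𝒞` contains one of the 25 classes: the 24 classes of the ordered graphs `M_{s,l,r}(π)` and the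
class of the ordered permutation graphs. -/
def HasPatterns (𝒞 : (n : ℕ) → SimpleGraph (Fin n) → Prop) : Prop :=
  (∃ (s : Sign) (l r : Bool), ∀ (n : ℕ) (π : Equiv.Perm (Fin n)),
    Contains 𝒞 (Sum.Lex (· < ·) (· < ·)) (matchGraph s l r π)) ∨
  ∀ (n : ℕ) (π : Equiv.Perm (Fin n)), Contains 𝒞 (· < ·) (permGraph π)

/-- The ordered graphs `(ℕ, lt, E)` all of whose finite induced ordered subgraphs belong to
`𝒞`. -/
def LocallyIn (𝒞 : (n : ℕ) → SimpleGraph (Fin n) → Prop) (lt E : ℕ → ℕ → Prop) : Prop :=
  IsStrictTotalOrder ℕ lt ∧ ∃ G : SimpleGraph ℕ, (∀ u v, G.Adj u v ↔ E u v) ∧ Contains 𝒞 lt G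

end Pool.Agent.TH783.OT.PatO
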