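import Pool.Agent.TH783.OT.TO
import Pool.Agent.TH783.OT.Ord

set_option autoImplicit false

/-! Tournaments: the patterns. -/

namespace Pool.Agent.TH783.OT.PatT

/-- `R` is the arc relation of a tournament. -/
def IsTournament {V : Type} (R : V → V → Prop) : Prop :=
  (∀ u, ¬ R u u) ∧ ∀ u v, u ≠ v → (R u v ↔ ¬ R v u)

/-- `𝒞` contains all finite subtournaments of the tournament `(V, R)`, with all numberings of the
vertices. -/
def Contains (𝒞 : (n : ℕ) → (Fin n → Fin n → Prop) → Prop) {V : Type} (R : V → V → Prop) : Prop :=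
  ∀ (n : ℕ) (f : Fin n → V), Function.Injective f → 𝒞 n (fun i j => R (f i) (f j))

/-- The three relations `=, ≤, ≥`. -/
inductive Sign
  | eq | le | ge

/-- The relation given by a sign. -/
def Sign.rel {n : ℕ} (s : Sign) (i j : Fin n) : Prop := match s with
  | .eq => i = j
  | .le => i ≤ j
  | .ge => j ≤ i

/-- The tournament `F_s(π)`: two transitive tournaments `x_i` (`inl i`) and `y_j` (`inr j`), with an
arc from `y_j` to `x_i` if `i s π⁻¹(j)` and an arc from `x_i` to `y_j` otherwise. -/
def pattern (s : Sign) {n : ℕ} (π : Equiv.Perm (Fin n)) : Fin n ⊕ Fin n → Fin n ⊕ Fin n → Prop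
  | .inl i, .inl j => i < j
  | .inr i, .inr j => i < j
  | .inr j, .inl i => s.rel i (π.symm j)
  | .inl i, .inr j => ¬ s.rel i (π.symm j)

/-- `𝒞` contains one of the three families of obstructions to bounded twin-width. -/
def HasPatterns (𝒞 : (n : ℕ) → (Fin n → Fin n → Prop) → Prop) : Prop :=
  ∃ s : Sign, ∀ (n : ℕ) (π : Equiv.Perm (Fin n)), Contains 𝒞 (pattern s π)

end Pool.Agent.TH783.OT.PatT
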