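import Pool.Agent.TH783.OT.Bor

set_option autoImplicit false

/-! Tournaments: the coding. -/

namespace Pool.Agent.TH783.OT.To

open Pool.Agent.TH783.FC (FD1 FD2)
open Pool.Agent.W889.FO
open Pool.Agent.W889.FO.StA (FD.all1 FD.ex1)
open Pool.Agent.W889.VC (DLO)

/-- the three ways to encode a matching -/
inductive Tt
  | eq | le | ge

/-- position of the special elements -/
def Tt.b : Tt → Prop
  | .eq => True
  | _ => False

/-- the arcs from the second part to the first part -/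
def Tt.cr : Tt → Prop → Prop → Prop → Prop
  | .eq, _, _, e => e
  | .le, l, _, _ => ¬ l
  | .ge, _, g, _ => ¬ g

/-- the table of tournaments -/
def tabT (c : Tt) : Tab Unit where
  pp := fun _ k k' l1 g1 l2 _ e => match k, k' with
    | false, false => l1
    | true, true => l2
    | true, false => c.cr l1 g1 e
    | false, true => ¬ c.cr g1 l1 e
  ps := fun _ k _ => match k with
    | false => c.b
    | true => ¬ c.b
  sp := fun _ _ k => match k with
    | false => ¬ c.b
    | true => c.b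
  ss := fun _ i i' => match i, i' with
    | false, true => True
    | _, _ => False

section dec

variable {T : Type}

/-- homogeneous pairs -/
def Hm (R : T → T → Prop) (u v : T) : Prop := R u v ∧ ∀ z, z ≠ u → z ≠ v → (R z u ↔ R z v)

def W1 (R : T → T → Prop) (u : T) : Prop := ∃ v, Hm R u v
def W2 (R : T → T → Prop) (v : T) : Prop := ∃ u, Hm R u v
def In (R : T → T → Prop) (u : T) : Prop := ∃ w, W1 R w ∧ R u w
def Out (R : T → T → Prop) (u : T) : Prop := (∃ w, W1 R w ∧ R w u) ∧ ¬ W2 R u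

def PX (c : Tt) (R : T → T → Prop) (u : T) : Prop := match c with
  | .eq => In R u
  | _ => Out R u

def PY (c : Tt) (R : T → T → Prop) (u : T) : Prop := match c with
  | .eq => Out R u
  | _ => In R u

/-- the matching -/
def Mt (c : Tt) (R : T → T → Prop) (x y : T) : Prop := match c with
  | .eq => R y x
  | .le => R y x ∧ ∀ x', PX .le R x' → R y x' → ¬ R x x'
  | .ge => R y x ∧ ∀ x', PX .ge R x' → R y x' → ¬ R x' x

/-- the second order -/
def Ot (c : Tt) (R : T → T → Prop) (a a' : T) : Prop :=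
  ∃ b b', PY c R b ∧ PY c R b' ∧ Mt c R a b ∧ Mt c R a' b' ∧ R b b'

end dec

/-- the decoders -/
def dcT (c : Tt) : Dc Unit where
  dm := fun X => PX c (X ())
  o1 := fun X => X ()
  o2 := fun X => Ot c (X ())
  at' := fun X k u x => match k with
    | false => PX c (X ()) x ∧ u = x
    | true => PX c (X ()) x ∧ PY c (X ()) u ∧ Mt c (X ()) x u
  sp := fun X i => match i with
    | false => W1 (X ())
    | true => W2 (X ())

section inv

variable {T S : Type} (e : T ≃ S) {X : T → T → Prop} {Y : S → S → Prop}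
  (h : ∀ u v, X u v ↔ Y (e u) (e v))

include h

theorem w1_map (u : T) : W1 X u ↔ W1 Y (e u) := by
  simp only [W1, Hm, e.surjective.exists, e.surjective.forall, h, e.injective.ne_iff]

theorem w2_map (u : T) : W2 X u ↔ W2 Y (e u) := by
  simp only [W2, Hm, e.surjective.exists, e.surjective.forall, h, e.injective.ne_iff]

theorem in_map (u : T) : In X u ↔ In Y (e u) := by
  simp only [In, e.surjective.exists, w1_map e h, h]

theorem out_map (u : T) : Out X u ↔ Out Y (e u) := by
  simp only [Out, e.surjective.exists, w1_map e h, w2_map e h, h]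

theorem px_map (c : Tt) (u : T) : PX c X u ↔ PX c Y (e u) := by
  cases c
  · exact in_map e h u
  · exact out_map e h u
  · exact out_map e h u

theorem py_map (c : Tt) (u : T) : PY c X u ↔ PY c Y (e u) := by
  cases c
  · exact out_map e h u
  · exact in_map e h u
  · exact in_map e h u

theorem mt_map (c : Tt) (u v : T) : Mt c X u v ↔ Mt c Y (e u) (e v) := by
  cases c <;> simp only [Mt, e.surjective.forall, px_map e h, h]

theorem ot_map (c : Tt) (u v : T) : Ot c X u v ↔ Ot c Y (e u) (e v) := by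
  simp only [Ot, e.surjective.exists, py_map e h, mt_map e h, h]

end inv

theorem inv_dcT (c : Tt) : (dcT c).Inv where
  dm := fun e _ _ h u => px_map e (h ()) c u
  o1 := fun e _ _ h u v => h () u v
  o2 := fun e _ _ h u v => ot_map e (h ()) c u v
  at' := fun e X Y h k u v => by
    cases k
    · show PX c (X ()) v ∧ u = v ↔ PX c (Y ()) (e v) ∧ e u = e v
      rw [px_map e (h ()), e.injective.eq_iff]
    · show PX c (X ()) v ∧ PY c (X ()) u ∧ Mt c (X ()) v u ↔
        PX c (Y ()) (e v) ∧ PY c (Y ()) (e u) ∧ Mt c (Y ()) (e v) (e u)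
      rw [px_map e (h ()), py_map e (h ()), mt_map e (h ())]
  sp := fun e _ _ h i u => by
    cases i
    · exact w1_map e (h ()) u
    · exact w2_map e (h ()) u

section fd

variable {L : FirstOrder.Language.{0, 0}} {V : L.Structure ℕ → Prop}
    {R : L.Structure ℕ → ℕ → ℕ → Prop}

theorem fd_hm (h : FD2 V R) : FD2 V (fun S => Hm (R S)) := fun _ i j =>
  (h _ _ _).and <| FD.all1 (P := fun S v z => z ≠ v i → z ≠ v j → (R S z (v i) ↔ R S z (v j))) <|
    (FD.eq _ _).not.imp <| (FD.eq _ _).not.imp <| (h _ _ _).iff (h _ _ _)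

theorem fd_w1 (h : FD2 V R) : FD1 V (fun S => W1 (R S)) := fun _ i =>
  FD.ex1 (P := fun S v w => Hm (R S) (v i) w) (fd_hm h _ _ _)

theorem fd_w2 (h : FD2 V R) : FD1 V (fun S => W2 (R S)) := fun _ i =>
  FD.ex1 (P := fun S v w => Hm (R S) w (v i)) (fd_hm h _ _ _)

theorem fd_in (h : FD2 V R) : FD1 V (fun S => In (R S)) := fun _ i =>
  FD.ex1 (P := fun S v w => W1 (R S) w ∧ R S (v i) w) <| (fd_w1 h _ _).and (h _ _ _)

theorem fd_out (h : FD2 V R) : FD1 V (fun S => Out (R S)) := fun _ i =>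
  (FD.ex1 (P := fun S v w => W1 (R S) w ∧ R S w (v i)) <| (fd_w1 h _ _).and (h _ _ _)).and <|
    (fd_w2 h _ _).not

theorem fd_px (c : Tt) (h : FD2 V R) : FD1 V (fun S => PX c (R S)) := by
  cases c
  · exact fd_in h
  · exact fd_out h
  · exact fd_out h

theorem fd_py (c : Tt) (h : FD2 V R) : FD1 V (fun S => PY c (R S)) := by
  cases c
  · exact fd_out h
  · exact fd_in h
  · exact fd_in h

theorem fd_mt (c : Tt) (h : FD2 V R) : FD2 V (fun S => Mt c (R S)) := by
  cases c with
  | eq => exact fun _ i j => h _ j i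
  | le => exact fun _ i j => (h _ _ _).and <|
      FD.all1 (P := fun S v x' => PX .le (R S) x' → R S (v j) x' → ¬ R S (v i) x') <|
      (fd_px _ h _ _).imp <| (h _ _ _).imp (h _ _ _).not
  | ge => exact fun _ i j => (h _ _ _).and <|
      FD.all1 (P := fun S v x' => PX .ge (R S) x' → R S (v j) x' → ¬ R S x' (v i)) <|
      (fd_px _ h _ _).imp <| (h _ _ _).imp (h _ _ _).not

theorem fd_ot (c : Tt) (h : FD2 V R) : FD2 V (fun S => Ot c (R S)) := by
  intro α i j
  refine (FD.ex (β := Fin 2) (P := fun S v (b : Fin 2 → ℕ) => PY c (R S) (b 0) ∧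
    PY c (R S) (b 1) ∧ Mt c (R S) (v i) (b 0) ∧ Mt c (R S) (v j) (b 1) ∧ R S (b 0) (b 1)) <|
    (fd_py c h _ _).and <| (fd_py c h _ _).and <| (fd_mt c h _ _ _).and <|
    (fd_mt c h _ _ _).and (h _ _ _)).congr fun S _ v => ?_
  constructor
  · rintro ⟨b, h1⟩
    exact ⟨b 0, b 1, h1⟩
  · rintro ⟨u, y, h1⟩
    exact ⟨![u, y], h1⟩

end fd

theorem fd_dcT (c : Tt) : (dcT c).Fd where
  dm := fun h => fd_px c (h ())
  o1 := fun h => h ()
  o2 := fun h => fd_ot c (h ())
  at' := fun h k => by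
    cases k
    · exact fun _ i j => (fd_px c (h ()) _ _).and (FD.eq _ _)
    · exact fun _ i j => (fd_px c (h ()) _ _).and <| (fd_py c (h ()) _ _).and <|
        fd_mt c (h ()) _ _ _
  sp := fun h i => by
    cases i
    · exact fd_w1 (h ())
    · exact fd_w2 (h ())

section std

variable {Q : Type} {o1 o2 : Q → Q → Prop} (h1 : DLO o1) (h2 : DLO o2) {c : Tt}

include h1 h2

theorem hm_std {u v : Tk Q} :
    Hm ((tabT c).SY o1 o2 ()) u v ↔ u = .s false ∧ v = .s true := by
  -- arcs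
  have a1 : ∀ x y, (tabT c).SY o1 o2 () (.p false x) (.p false y) ↔ o1 x y := fun _ _ => Iff.rfl
  have a2 : ∀ x y, (tabT c).SY o1 o2 () (.p true x) (.p true y) ↔ o2 x y := fun _ _ => Iff.rfl
  have a3 : ∀ x i, (tabT c).SY o1 o2 () (.p false x) (.s i) ↔ c.b := fun _ _ => Iff.rfl
  have a4 : ∀ x i, (tabT c).SY o1 o2 () (.s i) (.p false x) ↔ ¬ c.b := fun _ _ => Iff.rfl
  have a5 : ∀ x i, (tabT c).SY o1 o2 () (.p true x) (.s i) ↔ ¬ c.b := fun _ _ => Iff.rfl
  have a6 : ∀ x i, (tabT c).SY o1 o2 () (.s i) (.p true x) ↔ c.b := fun _ _ => Iff.rfl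
  -- the pairs which are not homogeneous
  have b1 : ∀ x i, ¬ ∀ z, z ≠ .p false x → z ≠ .s i →
      ((tabT c).SY o1 o2 () z (.p false x) ↔ (tabT c).SY o1 o2 () z (.s i)) := by
    intro x i hz
    by_cases hc : c.b
    · obtain ⟨y, hy⟩ := h1.above x
      have h3 := hz (.p false y) (fun e => by
        simp only [Tk.p.injEq, true_and] at e
        rw [e] at hy
        exact h1.irrefl _ hy) (by simp)
      rw [a1, a3] at h3
      exact h1.irrefl _ (h1.trans _ _ _ hy (h3.2 hc))
    · obtain ⟨y, hy⟩ := h1.below x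
      have h3 := hz (.p false y) (fun e => by
        simp only [Tk.p.injEq, true_and] at e
        rw [e] at hy
        exact h1.irrefl _ hy) (by simp)
      rw [a1, a3] at h3
      exact hc (h3.1 hy)
  have b2 : ∀ x i, ¬ ∀ z, z ≠ .p true x → z ≠ .s i →
      ((tabT c).SY o1 o2 () z (.p true x) ↔ (tabT c).SY o1 o2 () z (.s i)) := by
    intro x i hz
    by_cases hc : c.b
    · obtain ⟨y, hy⟩ := h2.below x
      have h3 := hz (.p true y) (fun e => by
        simp only [Tk.p.injEq, true_and] at e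
        rw [e] at hy
        exact h2.irrefl _ hy) (by simp)
      rw [a2, a5] at h3
      exact h3.1 hy hc
    · obtain ⟨y, hy⟩ := h2.above x
      have h3 := hz (.p true y) (fun e => by
        simp only [Tk.p.injEq, true_and] at e
        rw [e] at hy
        exact h2.irrefl _ hy) (by simp)
      rw [a2, a5] at h3
      exact h2.irrefl _ (h2.trans _ _ _ hy (h3.2 hc))
  have b3 : ∀ x y, ¬ ∀ z, z ≠ .p false x → z ≠ .p true y →
      ((tabT c).SY o1 o2 () z (.p false x) ↔ (tabT c).SY o1 o2 () z (.p true y)) := by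
    intro x y hz
    have h3 := hz (.s false) (by simp) (by simp)
    rw [a4, a6] at h3
    tauto
  constructor
  · rintro ⟨k1, k2⟩
    rcases u with ⟨_ | _, x⟩ | _ | _ <;> rcases v with ⟨_ | _, y⟩ | _ | _
    · obtain ⟨z, h3, h4⟩ := h1.dense x y k1
      have h5 := k2 (.p false z) (fun e => by
        simp only [Tk.p.injEq, true_and] at e
        rw [e] at h3
        exact h1.irrefl _ h3) (fun e => by
        simp only [Tk.p.injEq, true_and] at e
        rw [e] at h4
        exact h1.irrefl _ h4)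
      exact (h1.irrefl _ (h1.trans _ _ _ h3 (h5.2 h4))).elim
    · exact (b3 _ _ k2).elim
    · exact (b1 _ _ k2).elim
    · exact (b1 _ _ k2).elim
    · exact (b3 _ _ fun z m1 m2 => (k2 z m2 m1).symm).elim
    · obtain ⟨z, h3, h4⟩ := h2.dense x y k1
      have h5 := k2 (.p true z) (fun e => by
        simp only [Tk.p.injEq, true_and] at e
        rw [e] at h3
        exact h2.irrefl _ h3) (fun e => by
        simp only [Tk.p.injEq, true_and] at e
        rw [e] at h4
        exact h2.irrefl _ h4)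
      exact (h2.irrefl _ (h2.trans _ _ _ h3 (h5.2 h4))).elim
    · exact (b2 _ _ k2).elim
    · exact (b2 _ _ k2).elim
    · exact (b1 _ _ fun z m1 m2 => (k2 z m2 m1).symm).elim
    · exact (b2 _ _ fun z m1 m2 => (k2 z m2 m1).symm).elim
    · exact k1.elim
    · exact ⟨rfl, rfl⟩
    · exact (b1 _ _ fun z m1 m2 => (k2 z m2 m1).symm).elim
    · exact (b2 _ _ fun z m1 m2 => (k2 z m2 m1).symm).elim
    · exact k1.elim
    · exact k1.elim
  · rintro ⟨rfl, rfl⟩
    refine ⟨trivial, ?_⟩
    rintro (⟨_ | _, x⟩ | _ | _) h3 h4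
    · exact Iff.rfl
    · exact Iff.rfl
    · exact absurd rfl h3
    · exact absurd rfl h4

theorem w1_std {u : Tk Q} : W1 ((tabT c).SY o1 o2 ()) u ↔ u = .s false := by
  unfold W1
  simp only [hm_std h1 h2]
  exact ⟨fun ⟨_, h, _⟩ => h, fun h => ⟨_, h, rfl⟩⟩

theorem w2_std {u : Tk Q} : W2 ((tabT c).SY o1 o2 ()) u ↔ u = .s true := by
  unfold W2
  simp only [hm_std h1 h2]
  exact ⟨fun ⟨_, _, h⟩ => h, fun h => ⟨_, rfl, h⟩⟩

theorem px_std {u : Tk Q} : PX c ((tabT c).SY o1 o2 ()) u ↔ ∃ q, u = .p false q := by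
  cases c <;> simp only [PX, In, Out, w1_std h1 h2, w2_std h1 h2]
  · constructor
    · rintro ⟨_, rfl, h3⟩
      rcases u with ⟨_ | _, x⟩ | _ | _
      · exact ⟨x, rfl⟩
      · exact (h3 trivial).elim
      · exact h3.elim
      · exact h3.elim
    · rintro ⟨x, rfl⟩
      exact ⟨_, rfl, trivial⟩
  all_goals
    constructor
    · rintro ⟨⟨_, rfl, h3⟩, h4⟩
      rcases u with ⟨_ | _, x⟩ | _ | _
      · exact ⟨x, rfl⟩
      · exact h3.elim
      · exact h3.elim
      · exact absurd rfl h4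
    · rintro ⟨x, rfl⟩
      exact ⟨⟨_, rfl, fun h => h⟩, by simp⟩

theorem py_std {u : Tk Q} : PY c ((tabT c).SY o1 o2 ()) u ↔ ∃ q, u = .p true q := by
  cases c <;> simp only [PY, In, Out, w1_std h1 h2, w2_std h1 h2]
  · constructor
    · rintro ⟨⟨_, rfl, h3⟩, h4⟩
      rcases u with ⟨_ | _, x⟩ | _ | _
      · exact (h3 trivial).elim
      · exact ⟨x, rfl⟩
      · exact h3.elim
      · exact absurd rfl h4
    · rintro ⟨x, rfl⟩
      exact ⟨⟨_, rfl, trivial⟩, by simp⟩
  all_goals
    constructor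
    · rintro ⟨_, rfl, h3⟩
      rcases u with ⟨_ | _, x⟩ | _ | _
      · exact h3.elim
      · exact ⟨x, rfl⟩
      · exact h3.elim
      · exact h3.elim
    · rintro ⟨x, rfl⟩
      exact ⟨_, rfl, fun h => h⟩

omit h1 h2 in
theorem eq_of_not {o : Q → Q → Prop} (h : DLO o) {x y : Q} (k1 : ¬ o x y) (k2 : ¬ o y x) :
    x = y := by
  by_contra hne
  rcases h.total x y hne with h | h
  · exact k1 h
  · exact k2 h

theorem mt_std {x y : Q} : Mt c ((tabT c).SY o1 o2 ()) (.p false x) (.p true y) ↔ x = y := by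
  cases c with
  | eq => exact eq_comm
  | le =>
    simp only [Mt, px_std h1 h2]
    constructor
    · rintro ⟨k1, k2⟩
      exact eq_of_not h1 (k2 _ ⟨y, rfl⟩ (h1.irrefl y)) k1
    · rintro rfl
      refine ⟨h1.irrefl x, ?_⟩
      rintro _ ⟨z, rfl⟩ h3
      exact h3
  | ge =>
    simp only [Mt, px_std h1 h2]
    constructor
    · rintro ⟨k1, k2⟩
      exact eq_of_not h1 k1 (k2 _ ⟨y, rfl⟩ (h1.irrefl y))
    · rintro rfl
      refine ⟨h1.irrefl x, ?_⟩
      rintro _ ⟨z, rfl⟩ h3
      exact h3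

theorem ot_std {x y : Q} : Ot c ((tabT c).SY o1 o2 ()) (.p false x) (.p false y) ↔ o2 x y := by
  constructor
  · rintro ⟨b, b', h3, h4, h5, h6, h7⟩
    obtain ⟨z, rfl⟩ := (py_std h1 h2).1 h3
    obtain ⟨w, rfl⟩ := (py_std h1 h2).1 h4
    obtain rfl := (mt_std h1 h2).1 h5
    obtain rfl := (mt_std h1 h2).1 h6
    exact h7
  · exact fun h => ⟨.p true x, .p true y, (py_std h1 h2).2 ⟨_, rfl⟩, (py_std h1 h2).2 ⟨_, rfl⟩,
      (mt_std h1 h2).2 rfl, (mt_std h1 h2).2 rfl, h⟩

end std

theorem ok_dcT (c : Tt) : (dcT c).Ok (tabT c) where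
  dm := fun h1 h2 _ => px_std h1 h2
  o1 := fun _ _ _ _ => Iff.rfl
  o2 := fun h1 h2 _ _ => ot_std h1 h2
  at' := fun {Q} _ {o1 o2} h1 h2 k u x => by
    cases k
    · show PX c ((tabT c).SY o1 o2 ()) x ∧ u = x ↔ _
      rw [px_std h1 h2]
      constructor
      · rintro ⟨⟨q, rfl⟩, rfl⟩
        exact ⟨q, rfl, rfl⟩
      · rintro ⟨q, rfl, rfl⟩
        exact ⟨⟨q, rfl⟩, rfl⟩
    · show PX c ((tabT c).SY o1 o2 ()) x ∧ PY c ((tabT c).SY o1 o2 ()) u ∧
        Mt c ((tabT c).SY o1 o2 ()) x u ↔ _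
      rw [px_std h1 h2, py_std h1 h2]
      constructor
      · rintro ⟨⟨q, rfl⟩, ⟨q', rfl⟩, h3⟩
        obtain rfl := (mt_std h1 h2).1 h3
        exact ⟨q, rfl, rfl⟩
      · rintro ⟨q, rfl, rfl⟩
        exact ⟨⟨q, rfl⟩, ⟨q, rfl⟩, (mt_std h1 h2).2 rfl⟩
  sp := fun h1 h2 i u => by
    cases i
    · exact w1_std h1 h2
    · exact w2_std h1 h2

end Pool.Agent.TH783.OT.To
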